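import Mathlib

/-! The elements of the group generated by two involutions. -/

set_option autoImplicit false

namespace Q2.CX

variable {G : Type*} [Group G]

/-- `el a b n` is the alternating product `a b a ⋯` with `n` factors for `n ≥ 0` and
`b a b ⋯` with `-n` factors for `n ≤ 0`. -/
def el (a b : G) (n : ℤ) : G := (a * b) ^ (n / 2) * (if Even n then 1 else a)

lemma el_even (a b : G) (k : ℤ) : el a b (2 * k) = (a * b) ^ k := by
  simp [el]

lemma el_odd (a b : G) (k : ℤ) : el a b (2 * k + 1) = (a * b) ^ k * a := by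
  have h : (2 * k + 1) / 2 = k := by omega
  simp [el, h]

@[simp] lemma el_zero (a b : G) : el a b 0 = 1 := by simp [el]

@[simp] lemma el_one (a b : G) : el a b 1 = a := by simpa using el_odd a b 0

lemma mul_zpow_left {a b : G} (ha : a * a = 1) (hb : b * b = 1) (k : ℤ) :
    a * (a * b) ^ k = (a * b) ^ (-k) * a := by
  have ha' : a⁻¹ = a := inv_eq_of_mul_eq_one_left ha
  have hb' : b⁻¹ = b := inv_eq_of_mul_eq_one_left hb
  have h1 : a * (a * b) * a⁻¹ = (a * b)⁻¹ := by
    rw [mul_inv_rev, ha', hb', ← mul_assoc a a b, ha, one_mul]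
  have h2 : a * (a * b) ^ k * a⁻¹ = (a * b) ^ (-k) := by
    rw [← conj_zpow, h1, inv_zpow, zpow_neg]
  rw [← h2]; group

lemma el_neg_one {a b : G} (ha : a * a = 1) (hb : b * b = 1) : el a b (-1) = b := by
  have h := el_odd a b (-1)
  have hb' : b⁻¹ = b := inv_eq_of_mul_eq_one_left hb
  have ha' : a⁻¹ = a := inv_eq_of_mul_eq_one_left ha
  rw [show (2 * (-1) + 1 : ℤ) = -1 by norm_num] at h
  rw [h, zpow_neg_one, mul_inv_rev, ha', hb', mul_assoc, ha, mul_one]

/-- multiplication of the elements -/
lemma el_mul {a b : G} (ha : a * a = 1) (hb : b * b = 1) (p q : ℤ) :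
    el a b p * el a b q = if Even p then el a b (p + q) else el a b (p - q) := by
  rcases Int.even_or_odd' p with ⟨k, rfl | rfl⟩ <;> rcases Int.even_or_odd' q with ⟨l, rfl | rfl⟩
  · rw [if_pos (even_two_mul k), el_even, el_even, ← mul_add, el_even, zpow_add]
  · rw [if_pos (even_two_mul k), el_even, el_odd, show 2 * k + (2 * l + 1) = 2 * (k + l) + 1 by ring,
      el_odd, zpow_add, mul_assoc]
  · have h : ¬ Even (2 * k + 1) := by simp
    rw [if_neg h, el_odd, el_even, show 2 * k + 1 - 2 * l = 2 * (k + -l) + 1 by ring, el_odd,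
      zpow_add, mul_assoc, mul_zpow_left ha hb, mul_assoc]
  · have h : ¬ Even (2 * k + 1) := by simp
    rw [if_neg h, el_odd, el_odd, show 2 * k + 1 - (2 * l + 1) = 2 * (k + -l) by ring, el_even,
      zpow_add, mul_assoc, ← mul_assoc a, mul_zpow_left ha hb, mul_assoc ((a * b) ^ (-l)), ha,
      mul_one]

lemma el_inv {a b : G} (ha : a * a = 1) (hb : b * b = 1) (p : ℤ) :
    (el a b p)⁻¹ = if Even p then el a b (-p) else el a b p := by
  split_ifs with h
  · apply inv_eq_of_mul_eq_one_right
    rw [el_mul ha hb, if_pos h]; simp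
  · apply inv_eq_of_mul_eq_one_right
    rw [el_mul ha hb, if_neg h]; simp

lemma el_mul_odd {a b : G} (ha : a * a = 1) (hb : b * b = 1) {p : ℤ} (hp : Odd p) (q : ℤ) :
    el a b p * el a b q = el a b (p - q) := by
  rw [el_mul ha hb, if_neg (by simpa using hp)]

lemma a_mul_el {a b : G} (ha : a * a = 1) (hb : b * b = 1) (q : ℤ) :
    a * el a b q = el a b (1 - q) := by
  have := el_mul_odd ha hb (p := 1) odd_one q
  rwa [el_one] at this

lemma b_mul_el {a b : G} (ha : a * a = 1) (hb : b * b = 1) (q : ℤ) :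
    b * el a b q = el a b (-1 - q) := by
  have := el_mul_odd ha hb (p := -1) (by decide) q
  rwa [el_neg_one ha hb] at this

/-- exchanging the two generators -/
lemma el_swap {a b : G} (ha : a * a = 1) (hb : b * b = 1) (n : ℤ) :
    el b a n = el a b (-n) := by
  have ha' : a⁻¹ = a := inv_eq_of_mul_eq_one_left ha
  have hb' : b⁻¹ = b := inv_eq_of_mul_eq_one_left hb
  have h1 : b * a = (a * b)⁻¹ := by rw [mul_inv_rev, ha', hb']
  rcases Int.even_or_odd' n with ⟨k, rfl | rfl⟩
  · rw [el_even, show -(2 * k) = 2 * (-k) by ring, el_even, h1, inv_zpow, zpow_neg]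
  · rw [el_odd, show -(2 * k + 1) = 2 * (-k - 1) + 1 by ring, el_odd, h1, inv_zpow, ← zpow_neg,
      zpow_sub_one, mul_inv_rev, ha', hb', mul_assoc, mul_assoc b a a, ha, mul_one]

/-- a homomorphism maps alternating products to alternating products -/
lemma map_el {H : Type*} [Group H] (f : G →* H) (a b : G) (n : ℤ) :
    f (el a b n) = el (f a) (f b) n := by
  unfold el
  rw [map_mul, map_zpow, map_mul]
  split_ifs <;> simp

end Q2.CX
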