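import Pool.Agent.Q2.CX.Canon
import Pool.Agent.Q2.CX.El

/-! Reflection subgroups of rank two with canonical generators `a`, `b`: inversions and levels. -/

set_option autoImplicit false

namespace Q2.CX

open CoxeterSystem

variable {B : Type*} {M : CoxeterMatrix B}
variable {W : Type*} [Group W] {cs : CoxeterSystem M W}

variable (cs) in
/-- a set `R` of reflections of rank two with canonical elements `a` and `b` -/
structure Can (R : Set W) (a b : W) : Prop where
  refl : ∀ u ∈ R, cs.IsReflection u
  conj : ∀ u ∈ R, ∀ u' ∈ R, u * u' * u⁻¹ ∈ R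
  ha : a ∈ R
  hb : b ∈ R
  ne : a ≠ b
  posa : ∀ u ∈ R, u ≠ a → 0 ≤ geo cs a (rt cs u)
  posb : ∀ u ∈ R, u ≠ b → 0 ≤ geo cs b (rt cs u)
  comb : ∀ u ∈ R, ∃ x y : ℝ, 0 ≤ x ∧ 0 ≤ y ∧ rt cs u = x • rt cs a + y • rt cs b

variable (cs) in
/-- `y` has no inversion (on the left) in `R` -/
def PosOn (R : Set W) (y : W) : Prop := ∀ u ∈ R, 0 ≤ geo cs y⁻¹ (rt cs u)

variable {R : Set W} {a b : W}

namespace Can

lemma swap (h : Can cs R a b) : Can cs R b a where
  refl := h.refl
  conj := h.conj
  ha := h.hb
  hb := h.ha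
  ne := h.ne.symm
  posa := h.posb
  posb := h.posa
  comb := fun u hu => by
    obtain ⟨x, y, hx, hy, e⟩ := h.comb u hu
    exact ⟨y, x, hy, hx, by rw [e, add_comm]⟩

lemma ra (h : Can cs R a b) : cs.IsReflection a := h.refl a h.ha
lemma rb (h : Can cs R a b) : cs.IsReflection b := h.refl b h.hb
lemma aa (h : Can cs R a b) : a * a = 1 := h.ra.mul_self
lemma bb (h : Can cs R a b) : b * b = 1 := h.rb.mul_self

lemma conj' (h : Can cs R a b) {u u' : W} (hu : u ∈ R) (hu' : u' ∈ R) : u * u' * u ∈ R := by
  have := h.conj u hu u' hu'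
  rwa [(h.refl u hu).inv] at this

/-- roots of `R` that are negative multiples -/
lemma neg_self {t u : W} (ht : cs.IsReflection t) (hu : cs.IsReflection u)
    (h : geo cs t (rt cs u) = - rt cs u) : u = t :=
  rt_inj hu ht ((rt_PR hu).eq_rt_of_neg ht h)

/-- every element of `R` is an alternating product -/
lemma exists_el (h : Can cs R a b) : ∀ u ∈ R, ∃ j : ℤ, u = el a b (2 * j + 1) := by
  intro u hu
  induction hn : cs.length u using Nat.strong_induction_on generalizing u with
  | _ n ih =>
  by_cases hua : u = a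
  · exact ⟨0, by simp [hua]⟩
  by_cases hub : u = b
  · exact ⟨-1, by rw [show (2 * (-1) + 1 : ℤ) = -1 by norm_num, el_neg_one h.aa h.bb, hub]⟩
  have hur := h.refl u hu
  -- one of the canonical roots becomes negative
  have key : ∀ c, c ∈ R → u ≠ c → (∀ v ∈ R, v ≠ c → 0 ≤ geo cs c (rt cs v)) →
      geo cs u (rt cs c) ≤ 0 → cs.length (c * u * c) < cs.length u := by
    intro c hc huc hcan hneg
    have hcr := h.refl c hc
    have h1 : cs.length (u * c) < cs.length u := (length_gt_iff hcr).mpr hneg
    have h2 : cs.length (c * u) = cs.length (u * c) := by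
      rw [← cs.length_inv, mul_inv_rev, hcr.inv, hur.inv]
    have h3 : cs.length (c * u * c) < cs.length (c * u) := by
      rw [length_gt_iff hcr, ← geo_geo]
      have h4 := rt_conj_neg hcr u hneg
      have h5 : u * c * u⁻¹ ≠ c := by
        intro e
        rw [e] at h4
        apply huc
        have : geo cs u (rt cs c) = - rt cs c := by
          conv_rhs => rw [h4]
          rw [neg_neg]
        exact (neg_self hur hcr this).symm
      have h6 := hcan _ (h.conj u hu c hc) h5
      rw [h4, map_neg] at h6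
      exact neg_nonneg.mp h6
    omega
  obtain ⟨x, y, hx, hy, e⟩ := h.comb u hu
  have hor : geo cs u (rt cs a) ≤ 0 ∨ geo cs u (rt cs b) ≤ 0 := by
    by_contra hcon
    push Not at hcon
    have h1 := ((rt_isRt h.ra).geo u).not_nonpos.mp hcon.1
    have h2 := ((rt_isRt h.rb).geo u).not_nonpos.mp hcon.2
    have h3 : 0 ≤ geo cs u (rt cs u) := by
      conv_rhs => rw [e]
      rw [map_add, map_smul, map_smul]
      exact add_nonneg (smul_nonneg hx h1) (smul_nonneg hy h2)
    rw [geo_rt_self hur] at h3
    exact (rt_isRt hur).not_both (rt_pos hur) (neg_nonneg.mp h3)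
  rcases hor with h1 | h1
  · have h2 := key a h.ha hua h.posa h1
    obtain ⟨j, hj⟩ := ih _ (hn ▸ h2) _ (h.conj' h.ha hu) rfl
    refine ⟨-j, ?_⟩
    have e1 : u = a * (a * u * a) * a := by
      calc u = (a * a) * u * (a * a) := by rw [h.aa]; simp
        _ = _ := by simp only [mul_assoc]
    rw [e1, hj, a_mul_el h.aa h.bb]
    have e2 := el_mul h.aa h.bb (1 - (2 * j + 1)) 1
    rw [el_one, if_pos (by rw [show (1 - (2 * j + 1) : ℤ) = 2 * (-j) by ring]; exact even_two_mul _)]
      at e2
    rw [e2]
    congr 1; ring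
  · have h2 := key b h.hb hub h.posb h1
    obtain ⟨j, hj⟩ := ih _ (hn ▸ h2) _ (h.conj' h.hb hu) rfl
    refine ⟨-j - 2, ?_⟩
    have e1 : u = b * (b * u * b) * b := by
      calc u = (b * b) * u * (b * b) := by rw [h.bb]; simp
        _ = _ := by simp only [mul_assoc]
    rw [e1, hj, b_mul_el h.aa h.bb]
    have e2 := el_mul h.aa h.bb (-1 - (2 * j + 1)) (-1)
    rw [el_neg_one h.aa h.bb,
      if_pos (by rw [show (-1 - (2 * j + 1) : ℤ) = 2 * (-j - 1) by ring]; exact even_two_mul _)] at e2
    rw [e2]
    congr 1; ring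

/-- conjugation by alternating products preserves `R` -/
lemma conj_el (h : Can cs R a b) (n : ℤ) : ∀ u ∈ R, el a b n * u * (el a b n)⁻¹ ∈ R := by
  have key : ∀ k : ℕ, ∀ u ∈ R, el a b k * u * (el a b k)⁻¹ ∈ R ∧
      el a b (-k) * u * (el a b (-k))⁻¹ ∈ R := by
    intro k
    induction k with
    | zero => intro u hu; simpa using hu
    | succ k ih =>
      intro u hu
      have e1 : el a b ((k + 1 : ℕ) : ℤ) = a * el a b (-(k : ℤ)) := by
        rw [a_mul_el h.aa h.bb]; congr 1; push_cast; ring
      have e2 : el a b (-((k + 1 : ℕ) : ℤ)) = b * el a b (k : ℤ) := by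
        rw [b_mul_el h.aa h.bb]; congr 1; push_cast; ring
      constructor
      · rw [e1]
        have := h.conj a h.ha _ (ih u hu).2
        convert this using 1
        group
      · rw [e2]
        have := h.conj b h.hb _ (ih u hu).1
        convert this using 1
        group
  intro u hu
  rcases Int.eq_nat_or_neg n with ⟨k, rfl | rfl⟩
  · exact (key k u hu).1
  · exact (key k u hu).2

lemma conj_el' (h : Can cs R a b) (n : ℤ) : ∀ u ∈ R, (el a b n)⁻¹ * u * el a b n ∈ R := by
  intro u hu
  rw [el_inv h.aa h.bb]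
  split_ifs with he
  · have := h.conj_el (-n) u hu
    rw [el_inv h.aa h.bb, if_pos (by simpa using he), neg_neg] at this
    exact this
  · have := h.conj_el n u hu
    rw [el_inv h.aa h.bb, if_neg he] at this
    exact this

lemma el_odd_mem (h : Can cs R a b) (j : ℤ) : el a b (2 * j + 1) ∈ R := by
  rcases Int.even_or_odd' j with ⟨m, rfl | rfl⟩
  · have := h.conj_el (2 * m) a h.ha
    convert this using 1
    rw [el_inv h.aa h.bb, if_pos (even_two_mul m)]
    have e1 := el_mul h.aa h.bb (2 * m) 1
    rw [el_one, if_pos (even_two_mul m)] at e1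
    rw [e1, el_mul_odd h.aa h.bb (by simp)]
    congr 1; ring
  · have := h.conj_el (2 * m + 2) b h.hb
    convert this using 1
    have he : Even (2 * m + 2) := by rw [show 2 * m + 2 = 2 * (m + 1) by ring]; exact even_two_mul _
    rw [el_inv h.aa h.bb, if_pos he]
    have e1 := el_mul h.aa h.bb (2 * m + 2) (-1)
    rw [el_neg_one h.aa h.bb, if_pos he] at e1
    rw [e1, el_mul_odd h.aa h.bb (by
      rw [show 2 * m + 2 + -1 = 2 * m + 1 by ring]; simp)]
    congr 1; ring

lemma mem_iff (h : Can cs R a b) (u : W) : u ∈ R ↔ ∃ j : ℤ, u = el a b (2 * j + 1) :=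
  ⟨h.exists_el u, by rintro ⟨j, rfl⟩; exact h.el_odd_mem j⟩

/-- equality of alternating products -/
lemma el_eq_iff (h : Can cs R a b) (p q : ℤ) :
    el a b p = el a b q ↔ (2 * (orderOf (a * b) : ℤ)) ∣ p - q := by
  have ne : ∀ k l : ℤ, el a b (2 * k) ≠ el a b (2 * l + 1) := by
    intro k l e
    have h1 := (h.refl _ (h.el_odd_mem l)).odd_length
    rw [← e] at h1
    have h2 : ∀ k : ℤ, Even (cs.length ((a * b) ^ k)) := by
      intro k
      have h3 : cs.lengthParity ((a * b) ^ k) = 1 := by
        rw [map_zpow, map_mul]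
        have ea : cs.lengthParity a = Multiplicative.ofAdd 1 := by
          rw [cs.lengthParity_eq_ofAdd_length]
          congr 1
          have := h.ra.odd_length
          exact (ZMod.natCast_eq_one_iff_odd).mpr this
        have eb : cs.lengthParity b = Multiplicative.ofAdd 1 := by
          rw [cs.lengthParity_eq_ofAdd_length]
          congr 1
          have := h.rb.odd_length
          exact (ZMod.natCast_eq_one_iff_odd).mpr this
        rw [ea, eb]
        have : (Multiplicative.ofAdd (1 : ZMod 2) * Multiplicative.ofAdd 1) = 1 := by decide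
        rw [this, one_zpow]
      rw [cs.lengthParity_eq_ofAdd_length] at h3
      have h4 : ((cs.length ((a * b) ^ k) : ℕ) : ZMod 2) = 0 := h3
      exact (ZMod.natCast_eq_zero_iff_even).mp h4
    rw [el_even] at h1
    exact (Nat.not_even_iff_odd.mpr h1) (h2 k)
  have key : ∀ k l : ℤ, (a * b) ^ k = (a * b) ^ l ↔ (orderOf (a * b) : ℤ) ∣ k - l := by
    intro k l
    rw [zpow_eq_zpow_iff_modEq, Int.modEq_comm, Int.modEq_iff_dvd]
  rcases Int.even_or_odd' p with ⟨k, rfl | rfl⟩ <;> rcases Int.even_or_odd' q with ⟨l, rfl | rfl⟩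
  · rw [el_even, el_even, key, ← mul_sub]
    exact (mul_dvd_mul_iff_left two_ne_zero).symm
  · constructor
    · intro e; exact (ne k l e).elim
    · intro hd
      have h2 := (Dvd.intro (orderOf (a * b) : ℤ) rfl : (2 : ℤ) ∣ _).trans hd
      omega
  · constructor
    · intro e; exact (ne l k e.symm).elim
    · intro hd
      have h2 := (Dvd.intro (orderOf (a * b) : ℤ) rfl : (2 : ℤ) ∣ _).trans hd
      omega
  · rw [el_odd, el_odd, mul_left_inj, key, show 2 * k + 1 - (2 * l + 1) = 2 * (k - l) by ring]
    exact (mul_dvd_mul_iff_left two_ne_zero).symm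

end Can

end Q2.CX
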