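import Pool.Agent.Q2.CX.Dih

/-! Canonical generators of reflection subgroups of rank two; see `Pool.Agent.TH107.Canon`. -/

set_option autoImplicit false

namespace Q2.CX

open CoxeterSystem

variable {B : Type*} {M : CoxeterMatrix B}
variable {W : Type*} [Group W] {cs : CoxeterSystem M W}

lemma PR.eq_rt_of_neg {v : B →₀ ℝ} (hv : PR cs v) {b : W} (hb : cs.IsReflection b)
    (h : geo cs b v = - v) : v = rt cs b := by
  rw [geo_refl hb] at h
  apply hv.eq_of_smul (rt_PR hb) (a := bil M (rt cs b) v / 2)
  have h1 : (2 : ℝ) • v = bil M (rt cs b) v • rt cs b := by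
    have h2 : v + v = bil M (rt cs b) v • rt cs b := by
      have := congrArg (fun z => z + bil M (rt cs b) v • rt cs b + v) h
      simpa using this
    rw [two_smul, h2]
  calc v = (1 / 2 : ℝ) • ((2 : ℝ) • v) := by module
    _ = _ := by rw [h1]; module

section canon
variable {R : Set W} (hR : ∀ u ∈ R, cs.IsReflection u) (hconj : ∀ u ∈ R, ∀ u' ∈ R, u * u' * u⁻¹ ∈ R)
include hR hconj

lemma min_canon {a : W} (ha : a ∈ R) (hmin : ∀ u ∈ R, cs.length a ≤ cs.length u) :
    ∀ u ∈ R, u ≠ a → 0 ≤ geo cs a (rt cs u) := by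
  intro u hu hne
  by_contra hcon
  have hneg := ((rt_isRt (hR u hu)).geo a).not_nonneg.mp hcon
  rcases pal a u (hR a ha) (hR u hu) hne hneg with h | h
  · have := hmin u hu; omega
  · have := hmin _ (hconj a ha u hu); omega

lemma snd_canon {a b : W} (ha : a ∈ R) (hmin : ∀ u ∈ R, cs.length a ≤ cs.length u)
    (hb : b ∈ R) (hba : b ≠ a) (hmin2 : ∀ u ∈ R, u ≠ a → cs.length b ≤ cs.length u) :
    ∀ u ∈ R, u ≠ b → 0 ≤ geo cs b (rt cs u) := by
  intro u hu hne
  by_contra hcon
  have hneg := ((rt_isRt (hR u hu)).geo b).not_nonneg.mp hcon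
  have har := hR a ha
  have hbr := hR b hb
  have hbneg : geo cs b (rt cs a) ≤ 0 := by
    rcases pal b u hbr (hR u hu) hne hneg with h | h
    · have hua : u = a := by
        by_contra h2
        have := hmin2 u hu h2; omega
      rw [hua] at hneg; exact hneg
    · have hua : b * u * b⁻¹ = a := by
        by_contra h2
        have := hmin2 _ (hconj b hb u hu) h2; omega
      rw [← hua, rt_conj_neg (hR u hu) b hneg, map_neg, geo_geo, hbr.mul_self, map_one,
        Module.End.one_apply]
      exact neg_nonpos.mpr (rt_pos (hR u hu))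
  have h1 : cs.length (b * a) < cs.length b := (length_gt_iff har).mpr hbneg
  have h2 : cs.length (a * b) = cs.length (b * a) := by
    rw [← cs.length_inv, mul_inv_rev, har.inv, hbr.inv]
  have h3 : a * b * a⁻¹ ≠ a := by
    intro h
    apply hba
    have : a * b = a * a := by
      calc a * b = a * b * a⁻¹ * a := by group
        _ = a * a := by rw [h]
    exact mul_left_cancel this
  have h4 := hmin2 _ (hconj a ha b hb) h3
  rw [har.inv] at h4
  have h5 : 0 ≤ geo cs (a * b) (rt cs a) := (length_lt_iff har).mp (by omega)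
  rw [← geo_geo] at h5
  have hcr := hconj b hb a ha
  have hc := rt_conj_neg har b hbneg
  have hca : b * a * b⁻¹ ≠ a := by
    intro h
    rw [h] at hc
    have h6 : geo cs b (rt cs a) = - rt cs a := by
      conv_rhs => rw [hc]
      rw [neg_neg]
    exact hba (rt_inj hbr har ((rt_PR har).eq_rt_of_neg hbr h6).symm)
  have h7 := min_canon hR hconj ha hmin _ hcr hca
  rw [hc, map_neg] at h7
  exact (((rt_isRt har).geo b).geo a).not_both h5 (neg_nonneg.mp h7)

end canon


end Q2.CX
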