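import Pool.Agent.Q2.CX.Twist

/-! The strong exchange condition for twisted involutions: the core statement. -/

set_option autoImplicit false

namespace Q2.CX

open CoxeterSystem

variable {B : Type*} {M : CoxeterMatrix B}
variable {W : Type*} [Group W] {cs : CoxeterSystem M W}

namespace Can

variable {R : Set W} {a b : W}

/-- representatives in the range of levels -/
lemma exists_inRange (h : Can cs R a b) (p : ℤ) : ∃ n : ℤ, InRange a b n ∧ el a b n = el a b p := by
  obtain ⟨n, hn, hmin⟩ : ∃ n : ℤ, el a b n = el a b p ∧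
      ∀ n' : ℤ, el a b n' = el a b p → |n| ≤ |n'| := by
    have hne : {n : ℤ | el a b n = el a b p}.Nonempty := ⟨p, rfl⟩
    obtain ⟨n, hn, hmin⟩ := WellFounded.has_min (measure Int.natAbs).wf _ hne
    refine ⟨n, hn, fun n' hn' => ?_⟩
    have h2 : ¬ (n'.natAbs < n.natAbs) := hmin n' hn'
    rw [Int.abs_eq_natAbs, Int.abs_eq_natAbs]
    omega
  refine ⟨n, ?_, hn⟩
  by_contra hcon
  simp only [InRange, not_or, not_le] at hcon
  obtain ⟨h1, h2⟩ := hcon
  rcases abs_cases n with h3 | h3
  · have h4 := hmin (n - 2 * orderOf (a * b)) (by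
      rw [← hn, h.el_eq_iff]; exact ⟨-1, by ring⟩)
    rcases abs_cases (n - 2 * orderOf (a * b)) with h5 | h5 <;> omega
  · have h4 := hmin (n + 2 * orderOf (a * b)) (by
      rw [← hn, h.el_eq_iff]; exact ⟨1, by ring⟩)
    rcases abs_cases (n + 2 * orderOf (a * b)) with h5 | h5 <;> omega

end Can

/-- the situation of the proof: `x = el n * y` normalizes the reflections of a plane -/
structure Sit (cs : CoxeterSystem M W) (θ : W ≃* W) (P : Submodule ℝ (B →₀ ℝ)) (a b y : W)
    (n : ℤ) : Prop where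
  can : Can cs (RP cs P) a b
  pos : PosOn cs (RP cs P) y
  inv : ∀ v, θ (θ v) = v
  tw : θ (el a b n * y) = (el a b n * y)⁻¹
  stab : ∀ t ∈ RP cs P, (el a b n * y) * θ t * (el a b n * y)⁻¹ ∈ RP cs P

namespace Sit

variable {θ : W ≃* W} {P : Submodule ℝ (B →₀ ℝ)} {a b y : W} {n : ℤ}

/-- conjugation by the twisted element -/
lemma conj_conj (S : Sit cs θ P a b y n) (v : W) :
    (el a b n * y) * θ ((el a b n * y) * θ v * (el a b n * y)⁻¹) * (el a b n * y)⁻¹ = v := by
  rw [map_mul, map_mul, map_inv, S.inv, S.tw]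
  group

lemma c0_mem (S : Sit cs θ P a b y n) {t : W} (ht : t ∈ RP cs P) : y * θ t * y⁻¹ ∈ RP cs P := by
  have h1 := S.can.conj_el' n _ (S.stab t ht)
  convert h1 using 1
  group

lemma c0_surj (S : Sit cs θ P a b y n) {v : W} (hv : v ∈ RP cs P) :
    ∃ t ∈ RP cs P, y * θ t * y⁻¹ = v := by
  have h1 := S.can.conj_el n v hv
  refine ⟨_, S.stab _ h1, ?_⟩
  have h2 := S.conj_conj (el a b n * v * (el a b n)⁻¹)
  have h3 : y * θ ((el a b n * y) * θ (el a b n * v * (el a b n)⁻¹) * (el a b n * y)⁻¹) * y⁻¹ =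
      (el a b n)⁻¹ * ((el a b n * y) *
        θ ((el a b n * y) * θ (el a b n * v * (el a b n)⁻¹) * (el a b n * y)⁻¹) *
          (el a b n * y)⁻¹) * el a b n := by group
  rw [h3, h2]; group

variable (d : Diag cs θ)
include d

lemma geo_y (S : Sit cs θ P a b y n) {t : W} (ht : t ∈ RP cs P) :
    geo cs y (rt cs (θ t)) = rt cs (y * θ t * y⁻¹) := by
  have hr := d.refl ht.1
  rcases ((rt_isRt hr).geo y).cases with h | h
  · exact (rt_conj_pos hr y h).symm
  · exfalso
    have h1 := rt_conj_neg hr y h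
    have h2 := S.pos _ (S.c0_mem ht)
    rw [h1, map_neg, geo_inv_apply] at h2
    exact (rt_isRt hr).not_both (rt_pos hr) (neg_nonneg.mp h2)

/-- the image of a canonical reflection is canonical -/
lemma c0_canon (S : Sit cs θ P a b y n) {c : W} (hc : c ∈ RP cs P)
    (hcan : ∀ u ∈ RP cs P, u ≠ c → 0 ≤ geo cs c (rt cs u)) :
    y * θ c * y⁻¹ = a ∨ y * θ c * y⁻¹ = b := by
  set u := y * θ c * y⁻¹ with hu
  have huR : u ∈ RP cs P := S.c0_mem hc
  have hucan : ∀ v ∈ RP cs P, v ≠ u → 0 ≤ geo cs u (rt cs v) := by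
    intro v hv hvu
    obtain ⟨t, ht, rfl⟩ := S.c0_surj hv
    have htc : t ≠ c := by rintro rfl; exact hvu rfl
    have h1 : c * t * c⁻¹ ∈ RP cs P := RP_conj hc ht
    have h2 := rt_conj_pos ht.1 c (hcan t ht htc)
    rw [← S.geo_y d ht, geo_geo]
    have h3 : u * y = y * θ c := by rw [hu]; group
    rw [h3, ← geo_geo]
    have h4 : geo cs (θ c) (rt cs (θ t)) = rt cs (θ (c * t * c⁻¹)) := by
      rw [d.rt_map ht.1, d.geo_P, d.rt_map h1.1, h2]
    rw [h4, S.geo_y d h1]
    exact rt_pos (S.c0_mem h1).1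
  by_contra hcon
  push Not at hcon
  obtain ⟨x, z, hx, hz, e⟩ := S.can.comb u huR
  have h1 : 0 ≤ geo cs u (rt cs u) := by
    conv_rhs => rw [e]
    rw [map_add, map_smul, map_smul]
    exact add_nonneg (smul_nonneg hx (hucan a S.can.ha (Ne.symm hcon.1)))
      (smul_nonneg hz (hucan b S.can.hb (Ne.symm hcon.2)))
  rw [geo_rt_self huR.1] at h1
  exact (rt_isRt huR.1).not_both (rt_pos huR.1) (neg_nonneg.mp h1)

/-- the effect of the minimal element: identity or exchange of the canonical reflections -/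
lemma c0_el (S : Sit cs θ P a b y n) :
    (∀ q : ℤ, y * θ (el a b q) * y⁻¹ = el a b q) ∨
    (∀ q : ℤ, y * θ (el a b q) * y⁻¹ = el a b (-q)) := by
  have hom : ∀ q : ℤ, y * θ (el a b q) * y⁻¹ = el (y * θ a * y⁻¹) (y * θ b * y⁻¹) q := by
    intro q
    have h1 := map_el ((MulAut.conj y).toMonoidHom.comp θ.toMonoidHom) a b q
    simpa using h1
  have hne : y * θ a * y⁻¹ ≠ y * θ b * y⁻¹ := by
    intro e
    exact S.can.ne (θ.injective (mul_left_cancel (mul_right_cancel e)))
  rcases S.c0_canon d S.can.ha S.can.posa with h1 | h1 <;>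
    rcases S.c0_canon d S.can.hb S.can.posb with h2 | h2
  · exact (hne (h1.trans h2.symm)).elim
  · left; intro q; rw [hom, h1, h2]
  · right; intro q; rw [hom, h1, h2, el_swap S.can.aa S.can.bb]
  · exact (hne (h1.trans h2.symm)).elim

/-- infinite planes: mirror images are not related by a reflection -/
lemma no_mirror_infinite (S : Sit cs θ P a b y n) (hm : orderOf (a * b) = 0) {j j' : ℤ}
    (hrr : (el a b n * y) * θ (el a b (2 * j + 1)) * (el a b n * y)⁻¹ = el a b (2 * j' + 1))
    (hmir : el a b (n + 2 * (j - j')) = el a b (-n)) : n = 0 := by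
  have hinj : ∀ p q : ℤ, el a b p = el a b q → p = q := by
    intro p q h
    rw [S.can.el_eq_iff, hm] at h
    simp only [Nat.cast_zero, mul_zero, zero_dvd_iff] at h
    omega
  have h1 := hinj _ _ hmir
  have hj : j' = j + n := by omega
  have aa := S.can.aa
  have bb := S.can.bb
  have hconj : ∀ v, (el a b n * y) * θ v * (el a b n * y)⁻¹ =
      el a b n * (y * θ v * y⁻¹) * (el a b n)⁻¹ := fun v => by group
  have hcc : (el a b n * y) * θ (el a b (2 * j' + 1)) * (el a b n * y)⁻¹ =
      el a b (2 * j + 1) := by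
    rw [← hrr, S.conj_conj]
  -- conjugation of an odd element
  have hodd : ∀ s : ℤ, Odd s → el a b n * el a b s * (el a b n)⁻¹ =
      if Even n then el a b (s + 2 * n) else el a b (2 * n - s) := by
    intro s hs
    rw [el_inv aa bb, el_mul aa bb n s]
    by_cases he : Even n
    · rw [if_pos he, if_pos he, if_pos he, el_mul_odd aa bb (he.add_odd hs)]
      congr 1; ring
    · have ho : Odd n := by simpa using he
      rw [if_neg he, if_neg he, if_neg he, el_mul aa bb, if_pos (ho.sub_odd hs)]
      congr 1; ring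
  have o1 : Odd (2 * j + 1) := ⟨j, rfl⟩
  have o2 : Odd (2 * j' + 1) := ⟨j', rfl⟩
  rw [hconj] at hrr hcc
  rcases S.c0_el d with hid | hsw
  · rw [hid, hodd _ o1] at hrr
    rw [hid, hodd _ o2] at hcc
    by_cases he : Even n
    · rw [if_pos he] at hrr hcc
      have := hinj _ _ hrr
      have := hinj _ _ hcc
      omega
    · rw [if_neg he] at hrr hcc
      have := hinj _ _ hrr
      omega
  · rw [hsw, hodd _ o1.neg] at hrr
    rw [hsw, hodd _ o2.neg] at hcc
    by_cases he : Even n
    · rw [if_pos he] at hrr hcc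
      have := hinj _ _ hrr
      omega
    · rw [if_neg he] at hrr hcc
      have := hinj _ _ hrr
      have := hinj _ _ hcc
      omega

/-- lengths near a standard parabolic subgroup -/
lemma length_parabolic (S : Sit cs θ P a b y n) {g : W} {i j : B}
    (hga : g * a * g⁻¹ = cs.simple i) (hgb : g * b * g⁻¹ = cs.simple j)
    (hg : ∀ t ∈ RP cs P, 0 ≤ geo cs g (rt cs t)) (k : ℤ) (hk : InRange a b k) :
    (cs.length (g * (el a b k * y) * (θ g)⁻¹) : ℤ) = |k| + cs.length (g * y * (θ g)⁻¹) := by
  have step : ∀ k k' : ℤ, InRange a b k' → |k'| = |k| + 1 → (k + k' = 1 ∨ k + k' = -1) →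
      cs.length (g * (el a b k' * y) * (θ g)⁻¹) = cs.length (g * (el a b k * y) * (θ g)⁻¹) + 1 := by
    intro k k' hr hkk hor
    obtain ⟨h1, h2, h3⟩ := S.can.lt_next hr hkk
    set c := el a b (k + k') with hc
    obtain ⟨s, hs⟩ : ∃ s, g * c * g⁻¹ = cs.simple s := by
      rcases hor with h | h
      · exact ⟨i, by rw [hc, h, el_one]; exact hga⟩
      · exact ⟨j, by rw [hc, h, el_neg_one S.can.aa S.can.bb]; exact hgb⟩
    set X := g * (el a b k * y) * (θ g)⁻¹ with hX
    have hX' : g * (el a b k' * y) * (θ g)⁻¹ = cs.simple s * X := by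
      rw [h3, ← hs, hX]; group
    rw [hX']
    -- the root stays positive
    have h4 : 0 ≤ geo cs X⁻¹ (ee s) := by
      have h5 : (ee s : B →₀ ℝ) = geo cs g (rt cs c) := by
        rw [← rt_simple (cs := cs) s, ← hs, rt_conj_pos h2.1 g (hg c h2)]
      have h6 : X⁻¹ * g = θ g * (el a b k * y)⁻¹ := by rw [hX]; group
      rw [h5, geo_geo, h6, ← geo_geo]
      rw [← S.can.neg_mul_iff S.pos k _ h2] at h1
      have h7 := ((rt_isRt h2.1).geo (el a b k * y)⁻¹).not_nonpos.mp h1
      obtain ⟨u, hu, hue⟩ := S.c0_surj (S.can.conj_el' k c h2)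
      have h8 : (el a b k * y)⁻¹ * c * ((el a b k * y)⁻¹)⁻¹ = θ u := by
        have h9 : θ u = y⁻¹ * (y * θ u * y⁻¹) * y := by group
        rw [h9, hue]; group
      have h9 := rt_conj_pos h2.1 (el a b k * y)⁻¹ h7
      rw [h8] at h9
      rw [← h9, d.rt_map hu.1, d.geo_P]
      exact d.P_nonneg (hg u hu)
    have h10 : cs.length X⁻¹ < cs.length (X⁻¹ * cs.simple s) := (geo_nonneg_iff cs X⁻¹ s).mp h4
    have h11 : cs.length (X⁻¹ * cs.simple s) = cs.length (cs.simple s * X) := by
      rw [← cs.length_inv, mul_inv_rev, cs.inv_simple, inv_inv]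
    rw [cs.length_inv, h11] at h10
    rcases cs.length_simple_mul X s with h12 | h12 <;> omega
  induction hn : k.natAbs generalizing k with
  | zero =>
    have : k = 0 := by omega
    subst this
    simp
  | succ m ih =>
    rcases le_or_gt k 0 with h0 | h0
    · have hr : InRange a b (-1 - k) := by
        rcases hk with h | h
        · exact Or.inl h
        · right
          rcases abs_cases k with h1 | h1 <;> rcases abs_cases (-1 - k) with h2 | h2 <;> omega
      have h1 := ih (-1 - k) hr (by omega)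
      have h2 := step (-1 - k) k hk (by
        rcases abs_cases k with h1 | h1 <;> rcases abs_cases (-1 - k) with h2 | h2 <;> omega)
        (Or.inr (by ring))
      rw [h2]; push_cast; rw [h1]
      rcases abs_cases k with h1 | h1 <;> rcases abs_cases (-1 - k) with h2 | h2 <;> omega
    · have hr : InRange a b (1 - k) := by
        rcases hk with h | h
        · exact Or.inl h
        · right
          rcases abs_cases k with h1 | h1 <;> rcases abs_cases (1 - k) with h2 | h2 <;> omega
      have h1 := ih (1 - k) hr (by omega)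
      have h2 := step (1 - k) k hk (by
        rcases abs_cases k with h1 | h1 <;> rcases abs_cases (1 - k) with h2 | h2 <;> omega)
        (Or.inl (by ring))
      rw [h2]; push_cast; rw [h1]
      rcases abs_cases k with h1 | h1 <;> rcases abs_cases (1 - k) with h2 | h2 <;> omega

end Sit

/-- **The core statement.** -/
theorem core (θ : W ≃* W) (d : Diag cs θ) (hinv : ∀ v, θ (θ v) = v) (w : W) (hw : θ w = w⁻¹)
    (hQ : ∀ v r : W, cs.IsReflection r →
      cs.length (r * (v * w * (θ v)⁻¹) * θ r) = cs.length (v * w * (θ v)⁻¹) →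
      r * (v * w * (θ v)⁻¹) * θ r = v * w * (θ v)⁻¹)
    (r : W) (hr : cs.IsReflection r) (hlt : cs.length (r * w * θ r) < cs.length w) :
    BLE cs (r * w * θ r) w := by
  have hne : r * w * θ r ≠ w := by
    intro h; rw [h] at hlt; exact lt_irrefl _ hlt
  set r' := w * θ r * w⁻¹ with hr'
  have hr'r : cs.IsReflection r' := (d.refl hr).conj w
  have hprod : r * w * θ r = r * r' * w := by rw [hr']; group
  have hrr' : r ≠ r' := by
    intro h
    apply hne
    rw [hprod, ← h, hr.mul_self, one_mul]
  set P := Submodule.span ℝ {rt cs r, rt cs r'} with hP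
  have hrP : r ∈ RP cs P := ⟨hr, Submodule.subset_span (by simp)⟩
  have hrP' : r' ∈ RP cs P := ⟨hr'r, Submodule.subset_span (by simp)⟩
  obtain ⟨a, b, h⟩ := exists_can hr hr'r hrr'
  rw [← hP] at h
  have aa := h.aa
  have bb := h.bb
  obtain ⟨n, y, hn, hy, hwn⟩ := h.exists_coset w
  -- the plane is stable
  have hstab : ∀ t ∈ RP cs P, w * θ t * w⁻¹ ∈ RP cs P := by
    intro t ht
    have hL : ∀ t, cs.IsReflection t → geo cs w (d.P (rt cs t)) = rt cs (w * θ t * w⁻¹) ∨
        geo cs w (d.P (rt cs t)) = - rt cs (w * θ t * w⁻¹) := by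
      intro t ht
      rw [← d.rt_map ht]
      rcases ((rt_isRt (d.refl ht)).geo w).cases with h1 | h1
      · left; exact (rt_conj_pos (d.refl ht) w h1).symm
      · right; rw [rt_conj_neg (d.refl ht) w h1, neg_neg]
    have hww : w * θ r' * w⁻¹ = r := by
      rw [hr', map_mul, map_mul, map_inv, hinv, hw]; group
    have hPP : ∀ v ∈ P, geo cs w (d.P v) ∈ P := by
      intro v hv
      obtain ⟨x, z, rfl⟩ := Submodule.mem_span_pair.mp hv
      rw [map_add, map_add, map_smul, map_smul, map_smul, map_smul]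
      apply P.add_mem
      · apply P.smul_mem
        rcases hL r hr with h1 | h1
        · rw [h1, ← hr']; exact hrP'.2
        · rw [h1, ← hr']; exact P.neg_mem hrP'.2
      · apply P.smul_mem
        rcases hL r' hr'r with h1 | h1
        · rw [h1, hww]; exact hrP.2
        · rw [h1, hww]; exact P.neg_mem hrP.2
    refine ⟨(d.refl ht.1).conj w, ?_⟩
    have h1 := hPP _ ht.2
    rcases hL t ht.1 with h2 | h2
    · rw [h2] at h1; exact h1
    · rw [h2] at h1; simpa using P.neg_mem h1
  have S : Sit cs θ P a b y n := ⟨h, hy, hinv, by rw [← hwn]; exact hw, by rw [← hwn]; exact hstab⟩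
  -- the other element
  obtain ⟨j, hj⟩ := h.exists_el r hrP
  obtain ⟨j', hj'⟩ := h.exists_el r' hrP'
  have hother : r * w * θ r = el a b (n + 2 * (j - j')) * y := by
    rw [hprod, hj, hj', el_mul_odd aa bb ⟨j, rfl⟩, hwn, ← mul_assoc, el_mul aa bb,
      if_pos (by rw [show 2 * j + 1 - (2 * j' + 1) = 2 * (j - j') by ring]; exact even_two_mul _)]
    congr 2; ring
  obtain ⟨n', hn', hn'e⟩ := h.exists_inRange (n + 2 * (j - j'))
  rw [← hn'e] at hother
  rcases lt_trichotomy |n'| |n| with hc | hc | hc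
  · have h1 := (h.ble_of_lt hy hn hc).1
    rw [hother]
    conv_rhs => rw [hwn]
    exact h1
  · exfalso
    rcases abs_eq_abs.mp hc with h1 | h1
    · apply hne
      rw [hother, h1, ← hwn]
    · have hmir : el a b (n + 2 * (j - j')) = el a b (-n) := by rw [← hn'e, h1]
      by_cases hm : orderOf (a * b) = 0
      · have h0 := S.no_mirror_infinite d hm (j := j) (j' := j') (by
          rw [← hwn, ← hj, ← hj', hr']) hmir
        apply hne
        rw [hother, h1, h0, neg_zero, ← h0]
        exact hwn.symm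
      · obtain ⟨g, i, i', hga, hgb, hg⟩ := h.exists_parabolic hm
        have e1 := S.length_parabolic d hga hgb hg n hn
        have e2 := S.length_parabolic d hga hgb hg n' hn'
        rw [hc] at e2
        have e3 : cs.length (g * (el a b n * y) * (θ g)⁻¹) =
            cs.length (g * (el a b n' * y) * (θ g)⁻¹) := by omega
        rw [← hwn, ← hother] at e3
        have e4 : (g * r * g⁻¹) * (g * w * (θ g)⁻¹) * θ (g * r * g⁻¹) =
            g * (r * w * θ r) * (θ g)⁻¹ := by
          rw [map_mul, map_mul, map_inv]; group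
        have e5 := hQ g (g * r * g⁻¹) (hr.conj g) (by rw [e4]; exact e3.symm)
        rw [e4] at e5
        exact hne (mul_left_cancel (mul_right_cancel e5))
  · exfalso
    have h1 := (h.ble_of_lt hy hn' hc).2
    rw [← hother, ← hwn] at h1
    omega

end Q2.CX
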