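import Pool.Agent.Q2.CX.Root

/-! Dihedral reflection subgroups, arbitrary rank; see `Pool.Agent.TH107.Dih`. -/

set_option autoImplicit false

namespace Q2.CX

open CoxeterSystem
open Pool.Agent.Helper741 (cc qs cc_symm cc_self two_le_of_ne cc_of_zero sin_pos_of_ne qs_nonneg
  qs_zero qs_one qs_add_two qs_sin qs_of_one)

section group
variable {G : Type*} [Group G]

lemma inv_conj_zpow {t u : G} (ht : t * t = 1) (hu : u * u = 1) (k : ℤ) :
    t * (t * u) ^ k = (t * u) ^ (-k) * t := by
  have ht' : t⁻¹ = t := inv_eq_of_mul_eq_one_left ht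
  have hu' : u⁻¹ = u := inv_eq_of_mul_eq_one_left hu
  have h1 : t * (t * u) * t⁻¹ = (t * u)⁻¹ := by
    rw [mul_inv_rev, ht', hu', ← mul_assoc t t u, ht, one_mul]
  have h2 : t * (t * u) ^ k * t⁻¹ = (t * u) ^ (-k) := by
    rw [← conj_zpow, h1, inv_zpow, zpow_neg]
  rw [← h2]; group

lemma inv_conj_zpow' {t u : G} (ht : t * t = 1) (hu : u * u = 1) (k : ℤ) :
    u * (t * u) ^ k = (t * u) ^ (-k) * u := by
  have ht' : t⁻¹ = t := inv_eq_of_mul_eq_one_left ht
  have hu' : u⁻¹ = u := inv_eq_of_mul_eq_one_left hu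
  have h1 : u * (t * u) * u⁻¹ = (t * u)⁻¹ := by
    rw [mul_inv_rev, ht', hu']
    calc u * (t * u) * u = u * t * (u * u) := by simp only [mul_assoc]
      _ = u * t := by rw [hu, mul_one]
  have h2 : u * (t * u) ^ k * u⁻¹ = (t * u) ^ (-k) := by
    rw [← conj_zpow, h1, inv_zpow, zpow_neg]
  rw [← h2]; group

end group

variable {B : Type*} {M : CoxeterMatrix B}
variable {W : Type*} [Group W] {cs : CoxeterSystem M W}

lemma refl_zpow {t u : W} (ht : cs.IsReflection t) (hu : cs.IsReflection u) (k : ℤ) :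
    cs.IsReflection ((t * u) ^ k * t) := by
  rcases Int.even_or_odd' k with ⟨m, rfl | rfl⟩
  · have h : (t * u) ^ (2 * m) * t = (t * u) ^ m * t * ((t * u) ^ m)⁻¹ := by
      rw [← zpow_neg, mul_assoc ((t * u) ^ m), inv_conj_zpow ht.mul_self hu.mul_self, neg_neg,
        ← mul_assoc, ← zpow_add, two_mul]
    rw [h]; exact ht.conj _
  · have h : (t * u) ^ (2 * m + 1) * t = (t * u) ^ m * (t * u * t⁻¹) * ((t * u) ^ m)⁻¹ := by
      have ht' : t⁻¹ = t := ht.inv
      rw [ht', ← zpow_neg, mul_assoc ((t * u) ^ m), mul_assoc (t * u) t,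
        inv_conj_zpow ht.mul_self hu.mul_self, neg_neg,
        ← mul_assoc (t * u), ← zpow_one_add, ← mul_assoc, ← zpow_add]
      congr 2
      ring
    rw [h]; exact (hu.conj t).conj _

/-- no infinite line of positive roots -/
lemma exists_neg_zpow {t u : W} (ht : cs.IsReflection t) (hu : cs.IsReflection u) (hne : t ≠ u) :
    ∃ k : ℤ, ¬ 0 ≤ geo cs ((t * u) ^ k) (rt cs t) := by
  by_contra hcon
  push Not at hcon
  set ρ := t * u with hρ
  set τ := rt cs t with hτ
  have key : ∀ k : ℤ, geo cs t (geo cs (ρ ^ k) τ) = - geo cs (ρ ^ (-k)) τ := by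
    intro k
    rw [geo_geo, inv_conj_zpow ht.mul_self hu.mul_self, ← geo_geo, geo_rt_self ht, map_neg]
  have hmem : ∀ k : ℕ, geo cs (ρ ^ (k : ℤ)) τ ∈ {v : B →₀ ℝ | PR cs v ∧ geo cs t v ≤ 0} := by
    intro k
    refine ⟨⟨(rt_isRt ht).geo _, hcon k⟩, ?_⟩
    rw [key]
    simpa using hcon (-k)
  have hninj : ¬ Function.Injective (fun k : ℕ => geo cs (ρ ^ (k : ℤ)) τ) := by
    intro hinj
    exact (Set.infinite_of_injective_forall_mem hinj hmem) (inv_finite t)
  obtain ⟨n, hn0, hn⟩ : ∃ n : ℕ, 0 < n ∧ geo cs (ρ ^ n) τ = τ := by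
    unfold Function.Injective at hninj
    push Not at hninj
    obtain ⟨a, b, hab, hne⟩ := hninj
    have gen : ∀ a b : ℕ, a < b → geo cs (ρ ^ (a : ℤ)) τ = geo cs (ρ ^ (b : ℤ)) τ →
        ∃ n : ℕ, 0 < n ∧ geo cs (ρ ^ n) τ = τ := by
      intro a b hlt h
      refine ⟨b - a, by omega, ?_⟩
      apply geo_injective_apply cs (ρ ^ (a : ℤ))
      rw [geo_geo, h, ← zpow_natCast ρ (b - a), ← zpow_add]
      congr 3
      omega
    rcases lt_or_gt_of_ne hne with h | h
    · exact gen a b h hab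
    · exact gen b a h hab.symm
  set σ := ∑ i ∈ Finset.range n, geo cs (ρ ^ i) τ with hσ
  have hρσ : geo cs ρ σ = σ := by
    have h1 : geo cs ρ σ = ∑ i ∈ Finset.range n, geo cs (ρ ^ (i + 1)) τ := by
      rw [hσ, map_sum]
      apply Finset.sum_congr rfl
      intro i _
      rw [geo_geo, ← pow_succ']
    have h2 := Finset.sum_range_succ (fun i => geo cs (ρ ^ i) τ) n
    have h3 := Finset.sum_range_succ' (fun i => geo cs (ρ ^ i) τ) n
    rw [h1]
    rw [h2, hn] at h3
    simp only [pow_zero, map_one, Module.End.one_apply] at h3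
    exact (add_right_cancel h3).symm
  have htσ : geo cs t σ = - σ := by
    have h1 : geo cs t σ = - ∑ i ∈ Finset.range n, geo cs (ρ ^ (n - 1 - i + 1)) τ := by
      rw [hσ, map_sum, ← Finset.sum_neg_distrib]
      apply Finset.sum_congr rfl
      intro i hi
      have hi' : i < n := Finset.mem_range.mp hi
      have := key i
      rw [zpow_natCast] at this
      rw [this]
      congr 1
      have h4 : ρ ^ (n - 1 - i + 1) = ρ ^ (-(i : ℤ)) * ρ ^ n := by
        rw [← zpow_natCast, ← zpow_natCast, ← zpow_add]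
        congr 1
        omega
      rw [h4, ← geo_geo, hn]
    rw [h1, Finset.sum_range_reflect (fun i => geo cs (ρ ^ (i + 1)) τ) n]
    congr 1
    have h2 : geo cs ρ σ = ∑ i ∈ Finset.range n, geo cs (ρ ^ (i + 1)) τ := by
      rw [hσ, map_sum]
      apply Finset.sum_congr rfl
      intro i _
      rw [geo_geo, ← pow_succ']
    rw [← h2, hρσ]
  have hσ2 : σ = (bil M τ σ / 2) • τ := by
    rw [geo_refl ht, ← hτ] at htσ
    have h1 : (2 : ℝ) • σ = bil M τ σ • τ := by
      have h2 : σ + σ = bil M τ σ • τ := by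
        have := congrArg (fun z => z + bil M τ σ • τ + σ) htσ
        simpa using this
      rw [two_smul, h2]
    calc σ = (1 / 2 : ℝ) • ((2 : ℝ) • σ) := by module
      _ = _ := by rw [h1]; module
  have ha : bil M τ σ / 2 ≠ 0 := by
    intro h0
    rw [h0, zero_smul] at hσ2
    have h1 : τ ≤ σ := by
      have h2 : geo cs (ρ ^ 0) τ ≤ σ := by
        rw [hσ]
        apply Finset.single_le_sum (f := fun i => geo cs (ρ ^ i) τ)
        · intro i _
          have := hcon i
          rwa [zpow_natCast] at this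
        · exact Finset.mem_range.mpr hn0
      simpa using h2
    rw [hσ2] at h1
    exact (rt_isRt ht).not_both (rt_pos ht) h1
  have hρτ : geo cs ρ τ = τ := by
    have h1 := hρσ
    rw [hσ2, map_smul] at h1
    exact smul_right_injective _ ha h1
  have huτ : geo cs u τ = - τ := by
    apply geo_injective_apply cs t
    rw [geo_geo, ← hρ, hρτ, map_neg, geo_rt_self ht, neg_neg]
  rw [geo_refl hu] at huτ
  apply hne
  apply rt_inj ht hu
  apply (rt_PR ht).eq_of_smul (rt_PR hu) (a := bil M (rt cs u) τ / 2)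
  have h1 : (2 : ℝ) • τ = bil M (rt cs u) τ • rt cs u := by
    have h2 : τ + τ = bil M (rt cs u) τ • rt cs u := by
      have := congrArg (fun z => z + bil M (rt cs u) τ • rt cs u + τ) huτ
      simpa using this
    rw [two_smul, h2]
  calc rt cs t = (1 / 2 : ℝ) • ((2 : ℝ) • τ) := by rw [hτ]; module
    _ = _ := by rw [h1]; module

/-- peak elimination -/
lemma peak_elim {t u : W} (ht : cs.IsReflection t) (hu : cs.IsReflection u) (hne : t ≠ u) (x : W) :
    ∃ k : ℤ, cs.length (x * ((t * u) ^ k * t)) < cs.length x ∨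
      cs.length (x * ((t * u) ^ k * t)) < cs.length (x * (t * u)) := by
  by_contra hcon
  push Not at hcon
  set ρ := t * u with hρ
  have hr : ∀ k : ℤ, cs.IsReflection (ρ ^ k * t) := refl_zpow ht hu
  have h1 : ∀ k : ℤ, 0 ≤ geo cs x (rt cs (ρ ^ k * t)) := by
    intro k
    rw [← length_lt_iff (hr k)]
    exact lt_of_le_of_ne (hcon k).1 (Ne.symm (length_ne (hr k) x))
  have h2 : ∀ k : ℤ, 0 ≤ geo cs (x * ρ) (rt cs (ρ ^ k * t)) := by
    intro k
    rw [← length_lt_iff (hr k)]
    have h3 := (hcon (k + 1)).2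
    have h4 : x * ρ * (ρ ^ k * t) = x * (ρ ^ (k + 1) * t) := by
      rw [add_comm, zpow_one_add]; simp only [mul_assoc]
    rw [← h4] at h3
    exact lt_of_le_of_ne h3 (Ne.symm (length_ne (hr k) _))
  have h3 : ∀ k : ℤ, geo cs ρ (rt cs (ρ ^ k * t)) = rt cs (ρ ^ (k + 2) * t) := by
    intro k
    have hc : ρ * (ρ ^ k * t) * ρ⁻¹ = ρ ^ (k + 2) * t := by
      have h5 : t * ρ⁻¹ = ρ * t := by
        have := inv_conj_zpow ht.mul_self hu.mul_self (-1)
        rw [neg_neg, zpow_neg, zpow_one] at this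
        exact this
      have h6 : ρ ^ (k + 2) = ρ * ρ ^ k * ρ := by
        rw [← zpow_one_add, ← zpow_add_one]
        congr 1
        ring
      rw [h6]
      calc ρ * (ρ ^ k * t) * ρ⁻¹ = ρ * ρ ^ k * (t * ρ⁻¹) := by simp only [mul_assoc]
        _ = _ := by rw [h5]; simp only [mul_assoc]
    rcases ((rt_isRt (hr k)).geo ρ).cases with h | h
    · rw [← rt_conj_pos (hr k) ρ h, hc]
    · exfalso
      have h5 := rt_conj_neg (hr k) ρ h
      rw [hc] at h5
      have h6 := h2 k
      rw [← geo_geo] at h6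
      have h7 : geo cs ρ (rt cs (ρ ^ k * t)) = - rt cs (ρ ^ (k + 2) * t) := by
        rw [h5, neg_neg]
      rw [h7, map_neg] at h6
      exact ((rt_isRt (hr (k+2))).geo x).not_both (h1 (k + 2)) (neg_nonneg.mp h6)
  obtain ⟨k, hk⟩ := exists_neg_zpow ht hu hne
  apply hk
  have h4 : ∀ n : ℕ, geo cs (ρ ^ (n : ℤ)) (rt cs t) = rt cs (ρ ^ (2 * (n : ℤ)) * t) := by
    intro n
    induction n with
    | zero => simp
    | succ n ih =>
      have e : ρ ^ ((n + 1 : ℕ) : ℤ) = ρ * ρ ^ (n : ℤ) := by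
        push_cast
        rw [add_comm, zpow_one_add]
      rw [e, ← geo_geo, ih, h3]
      have e2 : (2 * (n : ℤ) + 2) = 2 * ((n + 1 : ℕ) : ℤ) := by push_cast; ring
      rw [e2]
  have h5 : ∀ n : ℕ, geo cs (ρ ^ (-(n : ℤ))) (rt cs t) = rt cs (ρ ^ (-(2 * (n : ℤ))) * t) := by
    intro n
    induction n with
    | zero => simp
    | succ n ih =>
      apply geo_injective_apply cs ρ
      rw [h3, geo_geo]
      have e : ρ * ρ ^ (-((n + 1 : ℕ) : ℤ)) = ρ ^ (-(n : ℤ)) := by
        rw [← zpow_one_add]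
        congr 1
        push_cast
        ring
      rw [e, ih]
      have e2 : (-(2 * ((n + 1 : ℕ) : ℤ)) + 2) = -(2 * (n : ℤ)) := by push_cast; ring
      rw [e2]
  rcases Int.eq_nat_or_neg k with ⟨n, rfl | rfl⟩
  · rw [h4]; exact rt_pos (hr _)
  · rw [h5]; exact rt_pos (hr _)

/-- palindromic lemma -/
lemma pal (p : W) : ∀ (r : W), cs.IsReflection p → cs.IsReflection r → r ≠ p →
    geo cs p (rt cs r) ≤ 0 → cs.length r < cs.length p ∨ cs.length (p * r * p⁻¹) < cs.length p := by
  induction hn : cs.length p using Nat.strong_induction_on generalizing p with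
  | _ n ih =>
  intro r hp hr hne hneg
  have hp1 : p ≠ 1 := by
    rintro rfl
    have := hp.odd_length
    simp at this
  obtain ⟨i, hi⟩ := cs.exists_rightDescent_of_ne_one hp1
  set s := cs.simple i with hs
  have hsr : cs.IsReflection s := cs.isReflection_simple i
  have hi' : cs.length (p * s) < cs.length p := hi
  have hpa : geo cs p (ee i) ≤ 0 := by
    rw [← rt_simple (cs := cs) i]; exact (length_gt_iff hsr).mp hi'
  have hss : s⁻¹ = s := hsr.inv
  have hpp : p⁻¹ = p := hp.inv
  by_cases hps : p = s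
  · exfalso
    apply hne
    rw [hps] at hneg ⊢
    apply rt_inj hr hsr
    rw [(rt_PR hr).eq_ee hneg, rt_simple]
  -- length of s p s
  have hneg2 : geo cs (s * p) (ee i) ≤ 0 := by
    rw [← geo_geo]
    by_contra hcon
    have hrt := (isRt_ee cs i).geo p
    have h1 : 0 ≤ geo cs s (geo cs p (ee i)) := ((hrt.geo s).not_nonpos).mp hcon
    have h2 : - geo cs p (ee i) = ee i := by
      apply PR.eq_ee (cs := cs) ⟨hrt.neg, neg_nonneg.mpr hpa⟩
      rw [map_neg]; exact neg_nonpos.mpr h1
    apply hps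
    apply rt_inj hp hsr
    rw [rt_simple]
    have h3 : geo cs p (ee i) = - ee i := by
      conv_rhs => rw [← h2]
      rw [neg_neg]
    rw [geo_refl hp] at h3
    apply (rt_PR hp).eq_of_smul (PR_ee cs i) (a := 2 / bil M (rt cs p) (ee i))
    have h4 : bil M (rt cs p) (ee i) • rt cs p = (2 : ℝ) • ee i := by
      have := congrArg (fun z => ee i - z) h3
      simp only [sub_sub_cancel, sub_neg_eq_add] at this
      rw [this, two_smul]
    have h5 : bil M (rt cs p) (ee i) ≠ 0 := by
      intro h0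
      rw [h0, zero_smul] at h4
      exact ee_ne_zero (B := B) i ((smul_eq_zero.mp h4.symm).resolve_left two_ne_zero)
    calc rt cs p = (bil M (rt cs p) (ee i))⁻¹ • (bil M (rt cs p) (ee i) • rt cs p) := by
          rw [smul_smul, inv_mul_cancel₀ h5, one_smul]
      _ = _ := by rw [h4, smul_smul]; congr 1; field_simp
  set p' := s * p * s⁻¹ with hp'
  have hp'r : cs.IsReflection p' := hp.conj s
  have hlen1 : cs.length (s * p * s) < cs.length (s * p) := by
    rw [length_gt_iff hsr, hs, rt_simple]; exact hneg2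
  have hlen2 : cs.length (s * p) = cs.length (p * s) := by
    rw [← cs.length_inv, mul_inv_rev, hss, hpp]
  have hlen : cs.length p' + 2 ≤ cs.length p := by
    rw [hp', hss]; omega
  have hs1 : cs.length s = 1 := cs.length_simple i
  by_cases hrs : r = s
  · left; rw [hrs]; omega
  have hconj : cs.length (s * r * s⁻¹) + 2 ≥ cs.length r := by
    have e : r = s * (s * r * s⁻¹) * s := by
      rw [hss]
      calc r = (s * s) * r * (s * s) := by rw [hsr.mul_self]; simp
        _ = _ := by simp only [mul_assoc]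
    have h1 := cs.length_mul_le (s * (s * r * s⁻¹)) s
    have h2 := cs.length_mul_le s (s * r * s⁻¹)
    rw [← e] at h1
    omega
  by_cases hprs : p * r * p⁻¹ = s
  · right; rw [hprs]; omega
  have hspos : 0 ≤ geo cs s (rt cs r) := by
    by_contra hcon
    apply hrs
    apply rt_inj hr hsr
    rw [hs, rt_simple]
    exact (rt_PR hr).eq_ee ((((rt_isRt hr).geo s).not_nonneg).mp hcon)
  have hr' : rt cs (s * r * s⁻¹) = geo cs s (rt cs r) := rt_conj_pos hr s hspos
  have hq : rt cs (p * r * p⁻¹) = - geo cs p (rt cs r) := rt_conj_neg hr p hneg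
  have hneg3 : geo cs p' (rt cs (s * r * s⁻¹)) ≤ 0 := by
    rw [hr', geo_geo, hp']
    have e : s * p * s⁻¹ * s = s * p := by group
    rw [e, ← geo_geo]
    by_contra hcon
    apply hprs
    apply rt_inj (hr.conj p) hsr
    rw [hs, rt_simple]
    apply (rt_PR (hr.conj p)).eq_ee
    rw [hq, map_neg]
    have := (((rt_isRt hr).geo p).geo s).not_nonpos.mp hcon
    exact neg_nonpos.mpr this
  have hne' : s * r * s⁻¹ ≠ p' := by
    intro h
    rw [hp'] at h
    exact hne (mul_left_cancel (mul_right_cancel h))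
  rcases ih (cs.length p') (by omega) p' rfl (s * r * s⁻¹) hp'r (hr.conj s) hne' hneg3 with h | h
  · left; omega
  · right
    have e : p' * (s * r * s⁻¹) * p'⁻¹ = s * (p * r * p⁻¹) * s⁻¹ := by
      rw [hp']; group
    rw [e] at h
    have e2 : p * r * p⁻¹ = s * (s * (p * r * p⁻¹) * s⁻¹) * s := by
      rw [hss]
      calc p * r * p⁻¹ = (s * s) * (p * r * p⁻¹) * (s * s) := by rw [hsr.mul_self]; simp
        _ = _ := by simp only [mul_assoc]
    have h1 := cs.length_mul_le (s * (s * (p * r * p⁻¹) * s⁻¹)) s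
    have h2 := cs.length_mul_le s (s * (p * r * p⁻¹) * s⁻¹)
    rw [← e2] at h1
    omega

end Q2.CX
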