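import Pool.Agent.Q2.CX.Tits

/-! The invariant form, arbitrary rank; see `Pool.Agent.Helper741.FiniteClass`. -/

set_option autoImplicit false

namespace Q2.CX

open CoxeterSystem
open Pool.Agent.Helper741 (cc qs cc_symm cc_self two_le_of_ne cc_of_zero sin_pos_of_ne qs_nonneg
  qs_zero qs_one qs_add_two qs_sin qs_of_one)

variable {B : Type*} {M : CoxeterMatrix B}

variable (M) in
/-- twice the symmetric form -/
noncomputable def bil (v v' : B →₀ ℝ) : ℝ := Finsupp.linearCombination ℝ (fun i => coroot M i v') v

lemma bil_add_left (v v' u : B →₀ ℝ) : bil M (v + v') u = bil M v u + bil M v' u := by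
  simp [bil]

lemma bil_add_right (v v' u : B →₀ ℝ) : bil M u (v + v') = bil M u v + bil M u v' := by
  unfold bil
  induction u using Finsupp.induction_linear with
  | zero => simp
  | add f g hf hg => rw [map_add, map_add, map_add, hf, hg]; ring
  | single a b =>
    rw [Finsupp.linearCombination_single, Finsupp.linearCombination_single,
      Finsupp.linearCombination_single, map_add, smul_add]

lemma bil_smul_left (a : ℝ) (v u : B →₀ ℝ) : bil M (a • v) u = a * bil M v u := by
  simp [bil]

lemma bil_symm (v v' : B →₀ ℝ) : bil M v v' = bil M v' v := by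
  induction v using Finsupp.induction_linear with
  | zero =>
    have h1 : bil M 0 v' = 0 := by simp [bil]
    have h2 := bil_add_right (M := M) 0 0 v'
    rw [add_zero] at h2
    rw [h1]; linarith
  | add f g hf hg => rw [bil_add_left, bil_add_right, hf, hg]
  | single a b =>
    induction v' using Finsupp.induction_linear with
    | zero =>
      have h1 : bil M 0 (Finsupp.single a b) = 0 := by simp [bil]
      have h2 := bil_add_right (M := M) 0 0 (Finsupp.single a b)
      rw [add_zero] at h2
      rw [h1]; linarith
    | add f g hf hg => rw [bil_add_left, bil_add_right, hf, hg]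
    | single c d =>
      unfold bil
      rw [Finsupp.linearCombination_single, Finsupp.linearCombination_single]
      simp only [coroot, Finsupp.linearCombination_single, smul_eq_mul]
      rw [cc_symm M a c]
      ring

lemma bil_sub_left (v v' u : B →₀ ℝ) : bil M (v - v') u = bil M v u - bil M v' u := by
  simp [bil]

lemma bil_sub_right (v v' u : B →₀ ℝ) : bil M u (v - v') = bil M u v - bil M u v' := by
  rw [bil_symm, bil_sub_left, bil_symm v, bil_symm v']

lemma bil_smul_right (a : ℝ) (v u : B →₀ ℝ) : bil M u (a • v) = a * bil M u v := by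
  rw [bil_symm, bil_smul_left, bil_symm v]

lemma bil_ee_left (i : B) (v : B →₀ ℝ) : bil M (ee i) v = coroot M i v := by
  simp [bil, ee]

lemma bil_ee_right (i : B) (v : B →₀ ℝ) : bil M v (ee i) = coroot M i v := by
  rw [bil_symm, bil_ee_left]

lemma bil_sg (i : B) (v v' : B →₀ ℝ) : bil M (sg M i v) (sg M i v') = bil M v v' := by
  simp only [sg_apply, bil_sub_left, bil_sub_right, bil_smul_left, bil_smul_right, bil_ee_left,
    bil_ee_right, map_sub, map_smul, smul_eq_mul, coroot_ee, cc_self]
  ring

variable {W : Type*} [Group W] (cs : CoxeterSystem M W)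

lemma bil_geo (w : W) (v v' : B →₀ ℝ) : bil M (geo cs w v) (geo cs w v') = bil M v v' := by
  induction w using cs.simple_induction_left generalizing v v' with
  | one => simp
  | mul_simple_left w i ih =>
    rw [map_mul, Module.End.mul_apply, Module.End.mul_apply, geo_simple, bil_sg, ih]

lemma geo_conj_simple (w : W) (j : B) (v : B →₀ ℝ) :
    geo cs (w * cs.simple j * w⁻¹) v = v - bil M (geo cs w (ee j)) v • geo cs w (ee j) := by
  rw [map_mul, map_mul, Module.End.mul_apply, Module.End.mul_apply, geo_simple, sg_apply, map_sub,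
    geo_apply_inv, map_smul, ← bil_ee_left, ← bil_geo cs w, geo_apply_inv]

lemma conj_eq_of_geo_eq {w w' : W} {j : B} (h : geo cs w (ee j) = geo cs w' (ee j)) :
    w * cs.simple j * w⁻¹ = w' * cs.simple j * w'⁻¹ := by
  apply geo_injective cs
  apply LinearMap.ext
  intro v
  rw [geo_conj_simple, geo_conj_simple, h]

lemma geo_eq_smul_of_commute {g : W} {i : B} (h : g * cs.simple i = cs.simple i * g) :
    geo cs g (ee i) = ee i ∨ geo cs g (ee i) = - ee i := by
  have h1 : sg M i (geo cs g (ee i)) = - geo cs g (ee i) := by
    rw [← geo_simple cs, ← Module.End.mul_apply, ← map_mul, ← h, map_mul, Module.End.mul_apply,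
      geo_simple, sg_ee_self, map_neg]
  rw [sg_apply] at h1
  set κ : ℝ := coroot M i (geo cs g (ee i)) / 2 with hκ
  have h2 : geo cs g (ee i) = κ • ee i := by
    calc geo cs g (ee i) = (1 / 2 : ℝ) • ((geo cs g (ee i) -
          coroot M i (geo cs g (ee i)) • ee i) + geo cs g (ee i) +
          coroot M i (geo cs g (ee i)) • ee i) := by module
      _ = (1 / 2 : ℝ) • ((- geo cs g (ee i)) + geo cs g (ee i) +
          coroot M i (geo cs g (ee i)) • ee i) := by rw [h1]
      _ = κ • ee i := by rw [hκ]; module
  have h3 := bil_geo cs g (ee i) (ee i)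
  rw [h2, bil_smul_left, bil_smul_right, bil_ee_left, coroot_ee, cc_self] at h3
  have h4 : (κ - 1) * (κ + 1) = 0 := by nlinarith
  rcases mul_eq_zero.mp h4 with h5 | h5
  · left
    rw [h2, sub_eq_zero.mp h5, one_smul]
  · right
    rw [h2, eq_neg_of_add_eq_zero_left h5, neg_one_smul]


end Q2.CX
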