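import Pool.Agent.Q2.CX.Can

/-! Levels in the cosets of a reflection subgroup of rank two. -/

set_option autoImplicit false

namespace Q2.CX

open CoxeterSystem

variable {B : Type*} {M : CoxeterMatrix B}
variable {W : Type*} [Group W] {cs : CoxeterSystem M W}

variable (cs) in
/-- one step in the Bruhat order -/
def Step (x y : W) : Prop := ∃ t, cs.IsReflection t ∧ y = x * t ∧ cs.length x < cs.length y

variable (cs) in
/-- the Bruhat order -/
def BLE (x y : W) : Prop := Relation.ReflTransGen (Step cs) x y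

lemma BLE.length_le {x y : W} (h : BLE cs x y) : cs.length x ≤ cs.length y := by
  induction h with
  | refl => exact le_rfl
  | tail _ h ih =>
    obtain ⟨t, _, _, h2⟩ := h
    omega

lemma step_left {x t : W} (ht : cs.IsReflection t) (h : cs.length x < cs.length (t * x)) :
    Step cs x (t * x) := by
  refine ⟨x⁻¹ * t * x, ?_, by group, h⟩
  have := ht.conj x⁻¹
  rwa [inv_inv] at this

variable {R : Set W} {a b : W}

/-- the number `n` is in the range of levels -/
def InRange (a b : W) (n : ℤ) : Prop := orderOf (a * b) = 0 ∨ |n| ≤ orderOf (a * b)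

namespace Can

lemma neg_iff_aux (h : Can cs R a b) (n : ℕ) (hn : orderOf (a * b) = 0 ∨ n ≤ orderOf (a * b)) :
    ∀ t ∈ R, (geo cs (el a b n)⁻¹ (rt cs t) ≤ 0 ↔ ∃ i : ℕ, i < n ∧ t = el a b (2 * i + 1)) := by
  induction n with
  | zero =>
    intro t ht
    constructor
    · intro h1
      simp only [Nat.cast_zero, el_zero, inv_one, map_one, Module.End.one_apply] at h1
      exact ((rt_isRt (h.refl t ht)).not_both (rt_pos (h.refl t ht)) h1).elim
    · rintro ⟨i, hi, _⟩; omega
  | succ n ih =>
    intro t ht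
    have ih' := ih (by omega)
    have htr := h.refl t ht
    -- the last letter
    obtain ⟨c, hc, hcan, hel, hpal⟩ : ∃ c ∈ R, (∀ v ∈ R, v ≠ c → 0 ≤ geo cs c (rt cs v)) ∧
        el a b ((n + 1 : ℕ) : ℤ) = el a b (n : ℤ) * c ∧
        el a b n * c * (el a b (n : ℤ))⁻¹ = el a b (2 * n + 1) := by
      have hint : ∀ q : ℤ, el a b n * el a b q * (el a b (n : ℤ))⁻¹ =
          if Even (n : ℤ) then (if Even (n + q) then el a b q else el a b (2 * n + q))
          else (if Even ((n : ℤ) - q) then el a b (2 * n - q) else el a b (-q)) := by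
        intro q
        rw [el_mul h.aa h.bb, el_inv h.aa h.bb]
        by_cases he : Even (n : ℤ)
        · rw [if_pos he, if_pos he, if_pos he, el_mul h.aa h.bb]
          split_ifs
          · congr 1; ring
          · congr 1; ring
        · rw [if_neg he, if_neg he, if_neg he, el_mul h.aa h.bb]
          split_ifs
          · congr 1; ring
          · congr 1; ring
      by_cases he : Even (n : ℤ)
      · refine ⟨a, h.ha, h.posa, ?_, ?_⟩
        · have := el_mul h.aa h.bb (n : ℤ) 1
          rw [el_one, if_pos he] at this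
          rw [this]; push_cast; rfl
        · have := hint 1
          rw [el_one, if_pos he, if_neg (by simpa using Even.add_one he)] at this
          exact this
      · have ho : Odd (n : ℤ) := by simpa using he
        refine ⟨b, h.hb, h.posb, ?_, ?_⟩
        · have := el_mul h.aa h.bb (n : ℤ) (-1)
          rw [el_neg_one h.aa h.bb, if_neg he] at this
          rw [this]; congr 1
        · have := hint (-1)
          rw [el_neg_one h.aa h.bb, if_neg he, if_pos (by
            rw [sub_neg_eq_add]; exact Odd.add_one ho)] at this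
          rw [this]; congr 1
    have hcr := h.refl c hc
    set g := el a b (n : ℤ) with hg
    rw [hel, mul_inv_rev, hcr.inv, ← geo_geo]
    have hu : g⁻¹ * t * g ∈ R := h.conj_el' n t ht
    have hur := h.refl _ hu
    have hteq : (∃ i : ℕ, i < n + 1 ∧ t = el a b (2 * i + 1)) ↔
        ((∃ i : ℕ, i < n ∧ t = el a b (2 * i + 1)) ∨ t = el a b (2 * n + 1)) := by
      constructor
      · rintro ⟨i, hi, e⟩
        by_cases hin : i = n
        · right; rw [e, hin]
        · left; exact ⟨i, by omega, e⟩
      · rintro (⟨i, hi, e⟩ | e)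
        · exact ⟨i, by omega, e⟩
        · exact ⟨n, by omega, e⟩
    rw [hteq]
    by_cases htc : t = el a b (2 * n + 1)
    · -- new inversion
      simp only [htc, or_true, iff_true]
      have h1 : g⁻¹ * t * g = c := by
        rw [htc, ← hpal]; group
      have h2 : ¬ geo cs g⁻¹ (rt cs t) ≤ 0 := by
        rw [ih' t ht]
        rintro ⟨i, hi, e⟩
        rw [htc, h.el_eq_iff] at e
        obtain ⟨k, hk⟩ := e
        have h3 : ((n : ℤ) - i) = (orderOf (a * b) : ℤ) * k := by linarith
        have h4 : (orderOf (a * b) : ℤ) ∣ (n : ℤ) - i := ⟨k, h3⟩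
        rcases hn with hn | hn
        · rw [hn] at h4
          simp only [Nat.cast_zero, zero_dvd_iff] at h4
          omega
        · have := Int.le_of_dvd (by omega) h4
          omega
      have h3 := ((rt_isRt htr).geo g⁻¹).not_nonpos.mp h2
      have h4 := rt_conj_pos htr g⁻¹ h3
      rw [inv_inv, h1] at h4
      rw [htc] at h4
      rw [← h4, geo_rt_self hcr]
      exact neg_nonpos.mpr (rt_pos hcr)
    · simp only [htc, or_false]
      rw [← ih' t ht]
      have h1 : g⁻¹ * t * g ≠ c := by
        intro e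
        apply htc
        rw [← hpal, ← e]; group
      constructor
      · intro h2
        by_contra h3
        have h4 := ((rt_isRt htr).geo g⁻¹).not_nonpos.mp h3
        have h5 := rt_conj_pos htr g⁻¹ h4
        rw [inv_inv] at h5
        rw [← h5] at h2
        exact ((rt_isRt hur).geo c).not_both (hcan _ hu h1) h2
      · intro h2
        have h5 := rt_conj_neg htr g⁻¹ h2
        rw [inv_inv] at h5
        have h6 := hcan _ hu h1
        rw [h5, map_neg] at h6
        exact neg_nonneg.mp h6

/-- the inversions of the alternating products in `R` -/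
lemma neg_iff (h : Can cs R a b) {n : ℤ} (hn : InRange a b n) :
    ∀ t ∈ R, (geo cs (el a b n)⁻¹ (rt cs t) ≤ 0 ↔
      ∃ i : ℤ, 0 ≤ i ∧ i < |n| ∧ t = el a b (if 0 ≤ n then 2 * i + 1 else -(2 * i + 1))) := by
  intro t ht
  rcases le_or_gt 0 n with h0 | h0
  · obtain ⟨k, rfl⟩ := Int.eq_ofNat_of_zero_le h0
    rw [h.neg_iff_aux k (by
      rcases hn with h1 | h1
      · exact Or.inl h1
      · right; simpa using h1) t ht]
    simp only [h0, if_true, Nat.abs_cast]
    constructor
    · rintro ⟨i, hi, e⟩; exact ⟨i, by omega, by omega, e⟩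
    · rintro ⟨i, h1, h2, e⟩
      obtain ⟨j, rfl⟩ := Int.eq_ofNat_of_zero_le h1
      exact ⟨j, by omega, e⟩
  · obtain ⟨k, rfl⟩ : ∃ k : ℕ, n = -(k : ℤ) := ⟨n.natAbs, by omega⟩
    have ho : orderOf (b * a) = orderOf (a * b) := by
      have : b * a = (a * b)⁻¹ := by rw [mul_inv_rev, h.ra.inv, h.rb.inv]
      rw [this, orderOf_inv]
    have := h.swap.neg_iff_aux k (by
      rw [ho]
      rcases hn with h1 | h1
      · exact Or.inl h1
      · right; simpa using h1) t ht
    rw [el_swap h.aa h.bb] at this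
    rw [this]
    have hneg : ¬ (0 ≤ -(k : ℤ)) := by omega
    simp only [hneg, if_false, abs_neg, Nat.abs_cast]
    constructor
    · rintro ⟨i, hi, e⟩; exact ⟨i, by omega, by omega, by rw [e, el_swap h.aa h.bb]⟩
    · rintro ⟨i, h1, h2, e⟩
      obtain ⟨j, rfl⟩ := Int.eq_ofNat_of_zero_le h1
      exact ⟨j, by omega, by rw [e, el_swap h.aa h.bb]⟩

/-- `y` minimal in its coset: the sign of a root of `R` under `(el n * y)⁻¹` -/
lemma neg_mul_iff (h : Can cs R a b) {y : W} (hy : PosOn cs R y) (n : ℤ) (t : W) (ht : t ∈ R) :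
    geo cs (el a b n * y)⁻¹ (rt cs t) ≤ 0 ↔ geo cs (el a b n)⁻¹ (rt cs t) ≤ 0 := by
  have htr := h.refl t ht
  set g := el a b n
  have hu : g⁻¹ * t * g ∈ R := h.conj_el' n t ht
  rw [mul_inv_rev, ← geo_geo]
  constructor
  · intro h1
    by_contra h2
    have h3 := rt_conj_pos htr g⁻¹ (((rt_isRt htr).geo g⁻¹).not_nonpos.mp h2)
    rw [inv_inv] at h3
    rw [← h3] at h1
    exact ((rt_isRt (h.refl _ hu)).geo y⁻¹).not_both (hy _ hu) h1
  · intro h1
    have h3 := rt_conj_neg htr g⁻¹ h1
    rw [inv_inv] at h3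
    have h4 := hy _ hu
    rw [h3, map_neg] at h4
    exact neg_nonneg.mp h4

/-- one level up -/
lemma lt_next (h : Can cs R a b) {n n' : ℤ} (hn : InRange a b n') (hnn : |n'| = |n| + 1) :
    ¬ geo cs (el a b n)⁻¹ (rt cs (el a b (n + n'))) ≤ 0 ∧ el a b (n + n') ∈ R ∧
    el a b n' = el a b (n + n') * el a b n := by
  have hodd : Odd (n + n') := by
    rcases abs_cases n with h1 | h1 <;> rcases abs_cases n' with h2 | h2
    · exact ⟨n, by omega⟩
    · exact ⟨-1, by omega⟩
    · exact ⟨0, by omega⟩
    · exact ⟨n - 1, by omega⟩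
  have hmem : el a b (n + n') ∈ R := by
    obtain ⟨k, hk⟩ := hodd
    rw [hk]; exact h.el_odd_mem k
  refine ⟨?_, hmem, by rw [el_mul_odd h.aa h.bb hodd]; congr 1; ring⟩
  have hr : InRange a b n := by
    rcases hn with h1 | h1
    · exact Or.inl h1
    · right; omega
  rw [h.neg_iff hr _ hmem]
  rintro ⟨i, hi0, hi1, e⟩
  rw [h.el_eq_iff] at e
  -- the difference is twice a number of absolute value between `1` and `|n|`
  have key : ∀ d : ℤ, 0 < d → d ≤ |n| → ¬ (2 * (orderOf (a * b) : ℤ)) ∣ 2 * d := by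
    intro d hd0 hd1 hd
    have h1 : (orderOf (a * b) : ℤ) ∣ d := (mul_dvd_mul_iff_left two_ne_zero).mp hd
    rcases hn with h2 | h2
    · rw [h2] at h1
      simp only [Nat.cast_zero, zero_dvd_iff] at h1
      omega
    · have := Int.le_of_dvd hd0 h1
      omega
  rcases le_or_gt 0 n with h0 | h0
  · rw [if_pos h0] at e
    have ha : |n| = n := abs_of_nonneg h0
    rcases abs_cases n' with h2 | h2
    · apply key (n - i) (by omega) (by omega)
      convert e using 1
      omega
    · apply key (i + 1) (by omega) (by omega)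
      rw [← Int.dvd_neg]
      convert e using 1
      omega
  · rw [if_neg (by omega)] at e
    have ha : |n| = -n := abs_of_neg h0
    rcases abs_cases n' with h2 | h2
    · apply key (i + 1) (by omega) (by omega)
      convert e using 1
      omega
    · apply key (-n - i) (by omega) (by omega)
      rw [← Int.dvd_neg]
      convert e using 1
      omega

lemma step_next (h : Can cs R a b) {y : W} (hy : PosOn cs R y) {n n' : ℤ} (hn : InRange a b n')
    (hnn : |n'| = |n| + 1) : Step cs (el a b n * y) (el a b n' * y) := by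
  obtain ⟨h1, h2, h3⟩ := h.lt_next hn hnn
  rw [h3, mul_assoc]
  have htr := h.refl _ h2
  apply step_left htr
  rw [← h.neg_mul_iff hy n _ h2] at h1
  have h4 := ((rt_isRt htr).geo (el a b n * y)⁻¹).not_nonpos.mp h1
  rw [← length_lt_iff htr] at h4
  have h5 : (el a b (n + n') * (el a b n * y))⁻¹ = (el a b n * y)⁻¹ * el a b (n + n') := by
    rw [mul_inv_rev, htr.inv]
  rw [← cs.length_inv, ← cs.length_inv (el a b (n + n') * (el a b n * y)), h5]
  exact h4

/-- elements of lower level are smaller in the Bruhat order -/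
lemma ble_of_lt (h : Can cs R a b) {y : W} (hy : PosOn cs R y) {n n' : ℤ} (hn : InRange a b n')
    (hnn : |n| < |n'|) : BLE cs (el a b n * y) (el a b n' * y) ∧
      cs.length (el a b n * y) < cs.length (el a b n' * y) := by
  induction hk : (|n'| - |n| - 1).toNat generalizing n' with
  | zero =>
    have h1 := h.step_next hy hn (n := n) (by omega)
    exact ⟨Relation.ReflTransGen.single h1, h1.choose_spec.2.2⟩
  | succ k ih =>
    have h0 : 0 ≤ |n| := abs_nonneg n
    have e1 : |(|n'| - 1)| = |n'| - 1 := abs_of_nonneg (by omega)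
    have hr : InRange a b (|n'| - 1) := by
      rcases hn with h1 | h1
      · exact Or.inl h1
      · right; rw [e1]; omega
    obtain ⟨h1, h2⟩ := ih hr (by rw [e1]; omega) (by rw [e1]; omega)
    have h3 := h.step_next hy hn (n := |n'| - 1) (by rw [e1]; omega)
    exact ⟨h1.tail h3, h2.trans h3.choose_spec.2.2⟩

/-- minimal elements of cosets -/
lemma exists_coset (h : Can cs R a b) (w : W) : ∃ (n : ℤ) (y : W), InRange a b n ∧
    PosOn cs R y ∧ w = el a b n * y := by
  obtain ⟨p, hp⟩ : ∃ p : ℤ, ∀ q : ℤ, cs.length (el a b p * w) ≤ cs.length (el a b q * w) := by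
    obtain ⟨v, ⟨p, rfl⟩, hmin⟩ := WellFounded.has_min (measure cs.length).wf
      (Set.range (fun q : ℤ => el a b q * w)) ⟨_, 0, rfl⟩
    exact ⟨p, fun q => not_lt.mp (hmin _ ⟨q, rfl⟩)⟩
  set y := el a b p * w with hy
  have hpos : ∀ c ∈ R, (∃ s : ℤ, Odd s ∧ c = el a b s) → 0 ≤ geo cs y⁻¹ (rt cs c) := by
    rintro c hc ⟨s, hs, rfl⟩
    have hcr := h.refl _ hc
    rw [← length_lt_iff hcr]
    have h1 := hp (s - p)
    rw [← el_mul_odd h.aa h.bb hs, mul_assoc, ← hy] at h1
    have h2 : cs.length (y⁻¹ * el a b s) = cs.length (el a b s * y) := by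
      rw [← cs.length_inv, mul_inv_rev, hcr.inv, inv_inv]
    rw [cs.length_inv, h2]
    refine lt_of_le_of_ne h1 ?_
    exact (hcr.length_mul_right_ne y).symm
  have hposR : PosOn cs R y := by
    intro u hu
    obtain ⟨x, z, hx, hz, e⟩ := h.comb u hu
    rw [e, map_add, map_smul, map_smul]
    exact add_nonneg (smul_nonneg hx (hpos a h.ha ⟨1, odd_one, (el_one a b).symm⟩))
      (smul_nonneg hz (hpos b h.hb ⟨-1, by decide, (el_neg_one h.aa h.bb).symm⟩))
  -- a representative of the least level
  obtain ⟨n, hn, hmin⟩ : ∃ n : ℤ, el a b n = (el a b p)⁻¹ ∧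
      ∀ n' : ℤ, el a b n' = (el a b p)⁻¹ → |n| ≤ |n'| := by
    have hne : {n : ℤ | el a b n = (el a b p)⁻¹}.Nonempty := by
      rw [el_inv h.aa h.bb]
      split_ifs
      · exact ⟨-p, rfl⟩
      · exact ⟨p, rfl⟩
    obtain ⟨n, hn, hmin⟩ := WellFounded.has_min (measure Int.natAbs).wf _ hne
    refine ⟨n, hn, fun n' hn' => ?_⟩
    have h2 : ¬ (n'.natAbs < n.natAbs) := hmin n' hn'
    rw [Int.abs_eq_natAbs, Int.abs_eq_natAbs]
    omega
  refine ⟨n, y, ?_, hposR, by rw [hn, hy]; group⟩
  by_contra hcon
  simp only [InRange, not_or, not_le] at hcon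
  obtain ⟨h1, h2⟩ := hcon
  rcases abs_cases n with h3 | h3
  · have h4 := hmin (n - 2 * orderOf (a * b)) (by
      rw [← hn, h.el_eq_iff]; exact ⟨-1, by ring⟩)
    rcases abs_cases (n - 2 * orderOf (a * b)) with h5 | h5 <;> omega
  · have h4 := hmin (n + 2 * orderOf (a * b)) (by
      rw [← hn, h.el_eq_iff]; exact ⟨1, by ring⟩)
    rcases abs_cases (n + 2 * orderOf (a * b)) with h5 | h5 <;> omega

end Can

end Q2.CX
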