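import Pool.Agent.Q2.CX.PlaneR

/-! Finite maximal reflection subgroups of rank two are conjugate to standard parabolic ones. -/

set_option autoImplicit false

namespace Q2.CX

open CoxeterSystem

variable {B : Type*} {M : CoxeterMatrix B}
variable {W : Type*} [Group W] {cs : CoxeterSystem M W}
variable {P : Submodule ℝ (B →₀ ℝ)} {a b : W}

lemma sum_ee (v : B →₀ ℝ) : v = ∑ i ∈ v.support, v i • (ee i : B →₀ ℝ) := by
  conv_lhs => rw [← Finsupp.sum_single v]
  rw [Finsupp.sum]
  apply Finset.sum_congr rfl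
  intro i _
  simp [ee]

namespace Can

lemma geo_el_sub_mem (h : Can cs (RP cs P) a b) (n : ℤ) (v : B →₀ ℝ) :
    geo cs (el a b n) v - v ∈ P := by
  have hs : ∀ c ∈ RP cs P, ∀ v : B →₀ ℝ, geo cs c v - v ∈ P := by
    intro c hc v
    rw [geo_refl hc.1, sub_sub_cancel_left]
    exact P.neg_mem (P.smul_mem _ hc.2)
  have key : ∀ k : ℕ, ∀ v : B →₀ ℝ, geo cs (el a b k) v - v ∈ P ∧
      geo cs (el a b (-k)) v - v ∈ P := by
    intro k
    induction k with
    | zero => intro v; simp
    | succ k ih =>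
      intro v
      have e1 : el a b ((k + 1 : ℕ) : ℤ) = a * el a b (-(k : ℤ)) := by
        rw [a_mul_el h.aa h.bb]; congr 1; push_cast; ring
      have e2 : el a b (-((k + 1 : ℕ) : ℤ)) = b * el a b (k : ℤ) := by
        rw [b_mul_el h.aa h.bb]; congr 1; push_cast; ring
      constructor
      · rw [e1, ← geo_geo]
        have := P.add_mem (hs a h.ha (geo cs (el a b (-(k : ℤ))) v)) (ih v).2
        rwa [sub_add_sub_cancel] at this
      · rw [e2, ← geo_geo]
        have := P.add_mem (hs b h.hb (geo cs (el a b (k : ℤ)) v)) (ih v).1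
        rwa [sub_add_sub_cancel] at this
  rcases Int.eq_nat_or_neg n with ⟨k, rfl | rfl⟩
  · exact (key k v).1
  · exact (key k v).2

/-- the main geometric lemma -/
theorem exists_parabolic (h : Can cs (RP cs P) a b) (hm : orderOf (a * b) ≠ 0) :
    ∃ (g : W) (i j : B), g * a * g⁻¹ = cs.simple i ∧ g * b * g⁻¹ = cs.simple j ∧
      ∀ t ∈ RP cs P, 0 ≤ geo cs g (rt cs t) := by
  classical
  have hDfin : (Set.range (el a b)).Finite := by
    apply Set.Finite.subset (Set.Finite.image (el a b)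
      (Set.finite_Ico (0 : ℤ) (2 * orderOf (a * b))))
    rintro _ ⟨n, rfl⟩
    have hpos : (0 : ℤ) < 2 * orderOf (a * b) := by positivity
    refine ⟨n % (2 * orderOf (a * b)), ⟨Int.emod_nonneg _ hpos.ne', Int.emod_lt_of_pos _ hpos⟩, ?_⟩
    rw [h.el_eq_iff]
    have := Int.emod_add_mul_ediv n (2 * orderOf (a * b))
    refine ⟨-(n / (2 * orderOf (a * b))), ?_⟩
    linarith
  set D : Finset W := hDfin.toFinset with hD
  have memD : ∀ d, d ∈ D ↔ ∃ n, el a b n = d := fun d => by simp [hD]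
  have hD1 : (1 : W) ∈ D := (memD 1).mpr ⟨0, el_zero a b⟩
  -- closed under right multiplication by the generators
  have hDr : ∀ s : ℤ, Odd s → ∀ d ∈ D, d * el a b s ∈ D := by
    intro s _ d hd
    obtain ⟨n, rfl⟩ := (memD d).mp hd
    rw [memD, el_mul h.aa h.bb]
    split_ifs
    · exact ⟨_, rfl⟩
    · exact ⟨_, rfl⟩
  let u : (B →₀ ℝ) →ₗ[ℝ] (B →₀ ℝ) := ∑ d ∈ D, geo cs d
  have hu : ∀ v, u v = ∑ d ∈ D, geo cs d v := fun v => by simp [u, LinearMap.sum_apply]
  have huinv : ∀ s : ℤ, Odd s → ∀ v, u (geo cs (el a b s) v) = u v := by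
    intro s hs v
    have hss : el a b s * el a b s = 1 := by
      rw [el_mul_odd h.aa h.bb hs, sub_self, el_zero]
    rw [hu, hu]
    apply Finset.sum_nbij' (fun d => d * el a b s) (fun d => d * el a b s)
    · intro d hd; exact hDr s hs d hd
    · intro d hd; exact hDr s hs d hd
    · intro d _; simp only [mul_assoc, hss, mul_one]
    · intro d _; simp only [mul_assoc, hss, mul_one]
    · intro d _; rw [geo_geo]
  have huP : ∀ v, v ∉ P → u v ≠ 0 := by
    intro v hv h0
    apply hv
    have h1 : u v - (D.card : ℝ) • v ∈ P := by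
      rw [hu, Nat.cast_smul_eq_nsmul, ← Finset.sum_const, ← Finset.sum_sub_distrib]
      apply P.sum_mem
      intro d hd
      obtain ⟨n, rfl⟩ := (memD d).mp hd
      exact h.geo_el_sub_mem n v
    rw [h0, zero_sub] at h1
    have h2 : (D.card : ℝ) ≠ 0 := by
      have := Finset.card_pos.mpr ⟨_, hD1⟩
      positivity
    have h3 := P.smul_mem (-(D.card : ℝ)⁻¹) h1
    rwa [neg_smul_neg, smul_smul, inv_mul_cancel₀ h2, one_smul] at h3
  -- the finite set of inverted roots
  have hF : (⋃ d ∈ D, {v : B →₀ ℝ | PR cs v ∧ geo cs d v ≤ 0}).Finite :=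
    Set.Finite.biUnion (Finset.finite_toSet _) (fun d _ => inv_finite d)
  set F := ⋃ d ∈ D, {v : B →₀ ℝ | PR cs v ∧ geo cs d v ≤ 0} with hFdef
  obtain ⟨φ₃, hφ₃, hφU⟩ := exists_pos_functional
    ((hF.toFinset.filter (fun v => v ∉ P)).image u) (by
      intro w hw
      obtain ⟨v, hv, rfl⟩ := Finset.mem_image.mp hw
      exact huP v (Finset.mem_filter.mp hv).2)
  set φ : (B →₀ ℝ) →ₗ[ℝ] ℝ := φ₃ ∘ₗ u with hφ
  have hφapp : ∀ v, φ v = φ₃ (u v) := fun v => rfl
  have hle : ∀ v, PR cs v → φ v ≤ 0 → v ∈ F := by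
    intro v hv hle
    by_contra hcon
    simp only [hFdef, Set.mem_iUnion, not_exists] at hcon
    have hpos : ∀ d ∈ D, 0 < φ₃ (geo cs d v) := by
      intro d hd
      have h1 : ¬ geo cs d v ≤ 0 := fun h2 => hcon d hd ⟨hv, h2⟩
      have h2 := (hv.root.geo d).not_nonpos.mp h1
      exact functional_pos hφ₃ h2 (hv.root.geo d).ne_zero
    have : 0 < φ v := by
      rw [hφapp, hu, map_sum]
      exact Finset.sum_pos hpos ⟨_, hD1⟩
    linarith
  have hzero : ∀ v, PR cs v → φ v = 0 → v ∈ P := by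
    intro v hv h0
    by_contra hcon
    apply hφU (u v) _ h0
    apply Finset.mem_image_of_mem
    rw [Finset.mem_filter, Set.Finite.mem_toFinset]
    exact ⟨hle v hv h0.le, hcon⟩
  have hφa : φ (rt cs a) = 0 := by
    have h1 := huinv 1 odd_one (rt cs a)
    rw [el_one, geo_rt_self h.ra, map_neg] at h1
    have h2 : φ (rt cs a) = - φ (rt cs a) := by
      rw [hφapp]; conv_lhs => rw [← h1]
      rw [map_neg]
    linarith
  have hφb : φ (rt cs b) = 0 := by
    have h1 := huinv (-1) (by decide) (rt cs b)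
    rw [el_neg_one h.aa h.bb, geo_rt_self h.rb, map_neg] at h1
    have h2 : φ (rt cs b) = - φ (rt cs b) := by
      rw [hφapp]; conv_lhs => rw [← h1]
      rw [map_neg]
    linarith
  have hφR : ∀ t ∈ RP cs P, φ (rt cs t) = 0 := by
    intro t ht
    obtain ⟨x, y, _, _, e⟩ := h.comb t ht
    rw [e, map_add, map_smul, map_smul, hφa, hφb]; simp
  -- a dominant position of least length
  obtain ⟨g0, hg0⟩ := exists_dominant (cs := cs) φ
    (hF.subset (fun v hv => hle v hv.1 hv.2.le))
  obtain ⟨g, hg, hgmin⟩ := WellFounded.has_min (measure cs.length).wf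
    {g : W | ∀ i, 0 ≤ φ (geo cs g⁻¹ (ee i))} ⟨g0, hg0⟩
  have hg : ∀ i, 0 ≤ φ (geo cs g⁻¹ (ee i)) := hg
  have claim1 : ∀ j, φ (geo cs g⁻¹ (ee j)) = 0 →
      geo cs g⁻¹ (ee j) ∈ P ∧ 0 ≤ geo cs g⁻¹ (ee j) := by
    intro j hj
    have hrt := (isRt_ee cs j).geo g⁻¹
    rcases hrt.cases with h1 | h1
    · exact ⟨hzero _ ⟨hrt, h1⟩ hj, h1⟩
    · exfalso
      have h2 : cs.length (g⁻¹ * cs.simple j) < cs.length g⁻¹ := (geo_nonpos_iff cs g⁻¹ j).mp h1
      have h3 : cs.length (cs.simple j * g) < cs.length g := by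
        rw [← cs.length_inv, mul_inv_rev, cs.inv_simple, ← cs.length_inv g]
        exact h2
      apply hgmin (cs.simple j * g) _ h3
      intro i
      rw [mul_inv_rev, cs.inv_simple, ← geo_geo, geo_simple, sg_ee, map_add, map_smul, map_add,
        map_smul, hj, smul_zero, add_zero]
      exact hg i
  have claim2 : ∀ t ∈ RP cs P, 0 ≤ geo cs g (rt cs t) ∧
      ∀ j, geo cs g (rt cs t) j ≠ 0 → φ (geo cs g⁻¹ (ee j)) = 0 := by
    intro t ht
    set x := geo cs g (rt cs t) with hx
    have hxr : IsRt cs x := (rt_isRt ht.1).geo g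
    have hback : rt cs t = ∑ j ∈ x.support, x j • geo cs g⁻¹ (ee j) := by
      have h1 : rt cs t = geo cs g⁻¹ x := by rw [hx, geo_inv_apply]
      rw [h1]
      conv_lhs => rw [sum_ee x]
      rw [map_sum]
      apply Finset.sum_congr rfl
      intro j _
      rw [map_smul]
    have hsum : ∑ j ∈ x.support, x j * φ (geo cs g⁻¹ (ee j)) = 0 := by
      have h1 := hφR t ht
      rw [hback, map_sum] at h1
      rw [← h1]
      apply Finset.sum_congr rfl
      intro j _
      rw [map_smul, smul_eq_mul]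
    have hz : ∀ j, x j ≠ 0 → φ (geo cs g⁻¹ (ee j)) = 0 := by
      intro j hj
      have hjs : j ∈ x.support := Finsupp.mem_support_iff.mpr hj
      rcases hxr.cases with h1 | h1
      · have h2 := (Finset.sum_eq_zero_iff_of_nonneg
          (fun i _ => mul_nonneg (h1 i) (hg i))).mp hsum j hjs
        exact (mul_eq_zero.mp h2).resolve_left hj
      · have h2 := (Finset.sum_eq_zero_iff_of_nonpos
          (fun i _ => mul_nonpos_of_nonpos_of_nonneg (h1 i) (hg i))).mp hsum j hjs
        exact (mul_eq_zero.mp h2).resolve_left hj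
    refine ⟨?_, hz⟩
    rcases hxr.cases with h1 | h1
    · exact h1
    · exfalso
      have h2 : rt cs t ≤ 0 := by
        rw [hback]
        apply Finset.sum_nonpos
        intro j hj
        exact smul_nonpos_of_nonpos_of_nonneg (h1 j)
          (claim1 j (hz j (Finsupp.mem_support_iff.mp hj))).2
      exact (rt_isRt ht.1).not_both (rt_pos ht.1) h2
  have hli : LinearIndependent ℝ ![rt cs a, rt cs b] := rt_linInd h.ra h.rb h.ne
  have claim3 : ∀ c ∈ RP cs P, (c = a ∨ c = b) → ∃ i, g * c * g⁻¹ = cs.simple i := by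
    intro c hc hcab
    obtain ⟨hx0, hz⟩ := claim2 c hc
    set x := geo cs g (rt cs c) with hx
    have hxr : IsRt cs x := (rt_isRt hc.1).geo g
    obtain ⟨i, hi⟩ := Finsupp.support_nonempty_iff.mpr hxr.ne_zero
    have hcomb : ∀ j, ∃ p q : ℝ, j ∈ x.support → 0 ≤ p ∧ 0 ≤ q ∧
        geo cs g⁻¹ (ee j) = p • rt cs a + q • rt cs b := by
      intro j
      by_cases hj : j ∈ x.support
      · obtain ⟨h1, h2⟩ := claim1 j (hz j (Finsupp.mem_support_iff.mp hj))
        obtain ⟨t, ht, htr⟩ := exists_refl_of_root (cs := cs)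
          (v := geo cs g⁻¹ (ee j)) ⟨(isRt_ee cs j).geo g⁻¹, h2⟩
        obtain ⟨p, q, hp, hq, e⟩ := h.comb t ⟨ht, by rw [htr]; exact h1⟩
        exact ⟨p, q, fun _ => ⟨hp, hq, by rw [← htr]; exact e⟩⟩
      · exact ⟨0, 0, fun h => (hj h).elim⟩
    choose p q hpq using hcomb
    have hback : rt cs c = (∑ j ∈ x.support, x j * p j) • rt cs a +
        (∑ j ∈ x.support, x j * q j) • rt cs b := by
      have h1 : rt cs c = geo cs g⁻¹ x := by rw [hx, geo_inv_apply]
      rw [h1]
      conv_lhs => rw [sum_ee x]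
      rw [map_sum, Finset.sum_smul, Finset.sum_smul, ← Finset.sum_add_distrib]
      apply Finset.sum_congr rfl
      intro j hj
      rw [map_smul, (hpq j hj).2.2, smul_add, smul_smul, smul_smul]
    rw [LinearIndependent.pair_iff] at hli
    have hroot : geo cs g⁻¹ (ee i) = rt cs c := by
      have hPR : PR cs (geo cs g⁻¹ (ee i)) := ⟨(isRt_ee cs i).geo g⁻¹,
        (claim1 i (hz i (Finsupp.mem_support_iff.mp hi))).2⟩
      rcases hcab with rfl | rfl
      · have h1 := hli ((∑ j ∈ x.support, x j * p j) - 1) (∑ j ∈ x.support, x j * q j) (by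
          rw [sub_smul, one_smul]
          nth_rewrite 2 [hback]
          module)
        have h2 := (Finset.sum_eq_zero_iff_of_nonneg
          (fun j hj => mul_nonneg (hx0 j) (hpq j hj).2.1)).mp h1.2 i hi
        have h3 : q i = 0 := (mul_eq_zero.mp h2).resolve_left (Finsupp.mem_support_iff.mp hi)
        have h4 := (hpq i hi).2.2
        rw [h3, zero_smul, add_zero] at h4
        exact hPR.eq_of_smul (rt_PR hc.1) h4
      · have h1 := hli (∑ j ∈ x.support, x j * p j) ((∑ j ∈ x.support, x j * q j) - 1) (by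
          rw [sub_smul, one_smul]
          nth_rewrite 2 [hback]
          module)
        have h2 := (Finset.sum_eq_zero_iff_of_nonneg
          (fun j hj => mul_nonneg (hx0 j) (hpq j hj).1)).mp h1.1 i hi
        have h3 : p i = 0 := (mul_eq_zero.mp h2).resolve_left (Finsupp.mem_support_iff.mp hi)
        have h4 := (hpq i hi).2.2
        rw [h3, zero_smul, zero_add] at h4
        exact hPR.eq_of_smul (rt_PR hc.1) h4
    refine ⟨i, ?_⟩
    apply rt_inj (cs := cs) (hc.1.conj g) (cs.isReflection_simple i)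
    rw [rt_conj_pos hc.1 g hx0, rt_simple, ← hroot, geo_apply_inv]
  obtain ⟨i, hi⟩ := claim3 a h.ha (Or.inl rfl)
  obtain ⟨j, hj⟩ := claim3 b h.hb (Or.inr rfl)
  exact ⟨g, i, j, hi, hj, fun t ht => (claim2 t ht).1⟩

end Can

end Q2.CX
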