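import Pool.Agent.Q2.CX.Level

/-! The maximal reflection subgroup of a plane spanned by two roots. -/

set_option autoImplicit false

namespace Q2.CX

open CoxeterSystem

variable {B : Type*} {M : CoxeterMatrix B}
variable {W : Type*} [Group W] {cs : CoxeterSystem M W}

variable (cs) in
/-- the reflections whose root lies in `P` -/
def RP (P : Submodule ℝ (B →₀ ℝ)) : Set W := {t | cs.IsReflection t ∧ rt cs t ∈ P}

lemma RP_conj {P : Submodule ℝ (B →₀ ℝ)} {u u' : W} (hu : u ∈ RP cs P) (hu' : u' ∈ RP cs P) :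
    u * u' * u⁻¹ ∈ RP cs P := by
  refine ⟨hu'.1.conj u, ?_⟩
  have h1 : geo cs u (rt cs u') ∈ P := by
    rw [geo_refl hu.1]; exact P.sub_mem hu'.2 (P.smul_mem _ hu.2)
  rcases ((rt_isRt hu'.1).geo u).cases with h | h
  · rw [rt_conj_pos hu'.1 u h]; exact h1
  · rw [rt_conj_neg hu'.1 u h]; exact P.neg_mem h1

lemma rt_linInd {t u : W} (ht : cs.IsReflection t) (hu : cs.IsReflection u) (hne : t ≠ u) :
    LinearIndependent ℝ ![rt cs t, rt cs u] := by
  rw [LinearIndependent.pair_iff' (rt_isRt ht).ne_zero]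
  intro x hx
  apply hne
  exact (rt_inj hu ht ((rt_PR hu).eq_of_smul (rt_PR ht) hx.symm)).symm

lemma span_pair_eq {v w α β : B →₀ ℝ} (hα : α ∈ Submodule.span ℝ {v, w})
    (hβ : β ∈ Submodule.span ℝ {v, w}) (hli : LinearIndependent ℝ ![α, β]) :
    Submodule.span ℝ {α, β} = Submodule.span ℝ {v, w} := by
  have hfin : Module.Finite ℝ (Submodule.span ℝ ({v, w} : Set (B →₀ ℝ))) :=
    Module.Finite.span_of_finite ℝ (by simp)
  apply Submodule.eq_of_le_of_finrank_le
  · rw [Submodule.span_le]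
    rintro x (rfl | rfl)
    · exact hα
    · exact hβ
  · have h1 : Module.finrank ℝ (Submodule.span ℝ ({v, w} : Set (B →₀ ℝ))) ≤ 2 := by
      classical
      have := finrank_span_finset_le_card (R := ℝ) ({v, w} : Finset (B →₀ ℝ))
      have h2 := Finset.card_le_two (a := v) (b := w)
      simp only [Finset.coe_insert, Finset.coe_singleton] at this
      exact this.trans h2
    have h2 : Module.finrank ℝ (Submodule.span ℝ ({α, β} : Set (B →₀ ℝ))) = 2 := by
      have h3 := finrank_span_eq_card hli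
      have h4 : Set.range ![α, β] = {α, β} := by
        rw [Matrix.range_cons, Matrix.range_cons, Matrix.range_empty, Set.union_empty]; rfl
      rw [h4, Fintype.card_fin] at h3
      exact h3
    omega

/-- canonical elements of a plane -/
lemma exists_can {r r' : W} (hr : cs.IsReflection r) (hr' : cs.IsReflection r') (hne : r ≠ r') :
    ∃ a b : W, Can cs (RP cs (Submodule.span ℝ {rt cs r, rt cs r'})) a b := by
  classical
  set P := Submodule.span ℝ {rt cs r, rt cs r'} with hP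
  set R := RP cs P with hRdef
  have hR : ∀ u ∈ R, cs.IsReflection u := fun u hu => hu.1
  have hconj : ∀ u ∈ R, ∀ u' ∈ R, u * u' * u⁻¹ ∈ R := fun u hu u' hu' => RP_conj hu hu'
  have hrR : r ∈ R := ⟨hr, Submodule.subset_span (by simp)⟩
  have hrR' : r' ∈ R := ⟨hr', Submodule.subset_span (by simp)⟩
  obtain ⟨a, haR, hamin⟩ : ∃ a ∈ R, ∀ u ∈ R, cs.length a ≤ cs.length u := by
    obtain ⟨a, ha, hmin⟩ := WellFounded.has_min (measure cs.length).wf R ⟨r, hrR⟩
    exact ⟨a, ha, fun u hu => not_lt.mp (hmin u hu)⟩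
  obtain ⟨b, ⟨hbR, hba⟩, hbmin⟩ : ∃ b ∈ R \ {a}, ∀ u ∈ R \ {a}, cs.length b ≤ cs.length u := by
    have hne2 : (R \ {a}).Nonempty := by
      by_cases h : r = a
      · exact ⟨r', hrR', by rw [← h]; exact fun e => hne e.symm⟩
      · exact ⟨r, hrR, h⟩
    obtain ⟨b, hb, hmin⟩ := WellFounded.has_min (measure cs.length).wf _ hne2
    exact ⟨b, hb, fun u hu => not_lt.mp (hmin u hu)⟩
  have hba : b ≠ a := hba
  have ca := min_canon hR hconj haR hamin
  have cb := snd_canon hR hconj haR hamin hbR hba (fun u hu hua => hbmin u ⟨hu, hua⟩)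
  refine ⟨a, b, hR, hconj, haR, hbR, hba.symm, ca, cb, ?_⟩
  intro u hu
  by_cases hua : u = a
  · exact ⟨1, 0, zero_le_one, le_rfl, by rw [hua]; simp⟩
  by_cases hub : u = b
  · exact ⟨0, 1, le_rfl, zero_le_one, by rw [hub]; simp⟩
  have hsp := span_pair_eq haR.2 hbR.2 (rt_linInd haR.1 hbR.1 hba.symm)
  have huP := hu.2
  rw [hP, ← hsp] at huP
  obtain ⟨x, y, hxy⟩ := Submodule.mem_span_pair.mp huP
  have gba : 0 ≤ geo cs b (rt cs a) := cb a haR (Ne.symm hba)
  have gbu : 0 ≤ geo cs b (rt cs u) := cb u hu hub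
  have gab : 0 ≤ geo cs a (rt cs b) := ca b hbR hba
  have gau : 0 ≤ geo cs a (rt cs u) := ca u hu hua
  have hx0 : 0 ≤ x := by
    by_contra hx0
    push Not at hx0
    have h1 := congrArg (geo cs b) hxy
    rw [map_add, map_smul, map_smul, geo_rt_self hbR.1] at h1
    have h2 : y • rt cs b ≤ 0 := by
      have h3 : y • rt cs b = x • geo cs b (rt cs a) - geo cs b (rt cs u) := by
        rw [← h1]; module
      rw [h3]
      have h4 : x • geo cs b (rt cs a) ≤ 0 := smul_nonpos_of_nonpos_of_nonneg hx0.le gba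
      exact sub_nonpos_of_le (h4.trans gbu)
    have h5 : rt cs u ≤ 0 := by
      rw [← hxy]
      have h4 : x • rt cs a ≤ 0 := smul_nonpos_of_nonpos_of_nonneg hx0.le (rt_pos haR.1)
      exact add_nonpos h4 h2
    exact (rt_isRt hu.1).not_both (rt_pos hu.1) h5
  have hy0 : 0 ≤ y := by
    by_contra hy0
    push Not at hy0
    have h1 := congrArg (geo cs a) hxy
    rw [map_add, map_smul, map_smul, geo_rt_self haR.1] at h1
    have h2 : x • rt cs a ≤ 0 := by
      have h3 : x • rt cs a = y • geo cs a (rt cs b) - geo cs a (rt cs u) := by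
        rw [← h1]; module
      rw [h3]
      have h4 : y • geo cs a (rt cs b) ≤ 0 := smul_nonpos_of_nonpos_of_nonneg hy0.le gab
      exact sub_nonpos_of_le (h4.trans gau)
    have h5 : rt cs u ≤ 0 := by
      rw [← hxy]
      have h4 : y • rt cs b ≤ 0 := smul_nonpos_of_nonpos_of_nonneg hy0.le (rt_pos hbR.1)
      exact add_nonpos h2 h4
    exact (rt_isRt hu.1).not_both (rt_pos hu.1) h5
  exact ⟨x, y, hx0, hy0, hxy.symm⟩

/-- a positive functional that does not vanish at finitely many given nonzero vectors -/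
lemma exists_pos_functional (U : Finset (B →₀ ℝ)) (hU : ∀ u ∈ U, u ≠ 0) :
    ∃ φ : (B →₀ ℝ) →ₗ[ℝ] ℝ, (∀ i, 0 < φ (ee i)) ∧ ∀ u ∈ U, φ u ≠ 0 := by
  classical
  induction U using Finset.induction_on with
  | empty =>
    refine ⟨Finsupp.linearCombination ℝ (fun _ => (1 : ℝ)), fun i => ?_, by simp⟩
    simp [ee]
  | insert u U hu ih =>
    obtain ⟨φ, h1, h2⟩ := ih (fun v hv => hU v (Finset.mem_insert_of_mem hv))
    obtain ⟨i, hi⟩ := Finsupp.ne_iff.mp (hU u (Finset.mem_insert_self u U))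
    rw [Finsupp.zero_apply] at hi
    -- perturbation
    have hbad : (⋃ v ∈ insert u U, {ε : ℝ | 0 < ε ∧ φ v + ε * v i = 0}).Finite := by
      apply Set.Finite.biUnion (Finset.finite_toSet _)
      intro v hv
      apply Set.Subsingleton.finite
      rintro ε ⟨hε, e1⟩ ε' ⟨hε', e2⟩
      by_cases hvi : v i = 0
      · rw [hvi, mul_zero, add_zero] at e1
        exfalso
        rcases Finset.mem_insert.mp (Finset.mem_coe.mp hv) with h | h
        · rw [h] at hvi; exact hi hvi
        · exact h2 v h e1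
      · have : (ε - ε') * v i = 0 := by linarith
        rcases mul_eq_zero.mp this with h | h
        · linarith
        · exact (hvi h).elim
    obtain ⟨ε, hε, hε'⟩ := (Set.Ioi_infinite (0 : ℝ)).exists_notMem_finite hbad
    refine ⟨φ + ε • Finsupp.lapply i, fun j => ?_, fun v hv => ?_⟩
    · rw [LinearMap.add_apply, LinearMap.smul_apply, Finsupp.lapply_apply, smul_eq_mul]
      have : 0 ≤ (ee j : B →₀ ℝ) i := ee_nonneg j i
      have h3 : 0 ≤ ε * (ee j : B →₀ ℝ) i := mul_nonneg (le_of_lt hε) this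
      linarith [h1 j]
    · rw [LinearMap.add_apply, LinearMap.smul_apply, Finsupp.lapply_apply, smul_eq_mul]
      intro e
      apply hε'
      simp only [Set.mem_iUnion]
      exact ⟨v, hv, hε, e⟩

lemma functional_pos {φ : (B →₀ ℝ) →ₗ[ℝ] ℝ} (hφ : ∀ i, 0 < φ (ee i)) {v : B →₀ ℝ} (hv : 0 ≤ v)
    (hne : v ≠ 0) : 0 < φ v := by
  classical
  have h1 : φ v = ∑ i ∈ v.support, v i * φ (ee i) := by
    conv_lhs => rw [← Finsupp.sum_single v]
    rw [Finsupp.sum, map_sum]
    apply Finset.sum_congr rfl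
    intro i _
    rw [show (Finsupp.single i (v i) : B →₀ ℝ) = v i • ee i by simp [ee], map_smul, smul_eq_mul]
  rw [h1]
  apply Finset.sum_pos
  · intro i hi
    have h2 : 0 ≤ v i := hv i
    have h3 : v i ≠ 0 := Finsupp.mem_support_iff.mp hi
    exact mul_pos (lt_of_le_of_ne h2 h3.symm) (hφ i)
  · exact Finsupp.support_nonempty_iff.mpr hne

/-- moving a functional with finitely many negative positive roots to a dominant one -/
lemma exists_dominant (φ : (B →₀ ℝ) →ₗ[ℝ] ℝ) (hfin : {v : B →₀ ℝ | PR cs v ∧ φ v < 0}.Finite) :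
    ∃ g : W, ∀ i, 0 ≤ φ (geo cs g⁻¹ (ee i)) := by
  induction hn : {v : B →₀ ℝ | PR cs v ∧ φ v < 0}.ncard using Nat.strong_induction_on
    generalizing φ with
  | _ n ih =>
  by_cases hall : ∀ i, 0 ≤ φ (ee i)
  · exact ⟨1, by simpa using hall⟩
  push Not at hall
  obtain ⟨i, hi⟩ := hall
  set φ' : (B →₀ ℝ) →ₗ[ℝ] ℝ := φ ∘ₗ geo cs (cs.simple i) with hφ'
  have hmaps : ∀ v ∈ {v : B →₀ ℝ | PR cs v ∧ φ' v < 0},
      geo cs (cs.simple i) v ∈ {v : B →₀ ℝ | PR cs v ∧ φ v < 0} \ {ee i} := by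
    rintro v ⟨hv, hv'⟩
    have hvi : v ≠ ee i := by
      rintro rfl
      rw [hφ', LinearMap.comp_apply, geo_simple, sg_ee_self, map_neg] at hv'
      linarith
    have hrt := hv.root.geo (cs.simple i)
    have hpos : 0 ≤ geo cs (cs.simple i) v := by
      by_contra hcon
      exact hvi (hv.eq_ee (hrt.not_nonneg.mp hcon))
    refine ⟨⟨⟨hrt, hpos⟩, hv'⟩, ?_⟩
    intro e
    rw [Set.mem_singleton_iff] at e
    have h1 : v = - ee i := by
      apply geo_injective_apply cs (cs.simple i)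
      rw [e, map_neg, geo_simple, sg_ee_self, neg_neg]
    exact hv.root.not_both hv.pos (by rw [h1]; exact neg_nonpos.mpr (ee_nonneg i))
  have hinj : Set.InjOn (fun v => geo cs (cs.simple i) v) {v : B →₀ ℝ | PR cs v ∧ φ' v < 0} :=
    fun v _ v' _ h => geo_injective_apply cs (cs.simple i) h
  have hfin2 : ({v : B →₀ ℝ | PR cs v ∧ φ v < 0} \ {ee i}).Finite := hfin.sdiff
  have hfin' : {v : B →₀ ℝ | PR cs v ∧ φ' v < 0}.Finite :=
    Set.Finite.of_injOn (fun v hv => hmaps v hv) hinj hfin2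
  have hcard : {v : B →₀ ℝ | PR cs v ∧ φ' v < 0}.ncard < n := by
    have h1 := Set.ncard_le_ncard_of_injOn _ hmaps hinj hfin2
    have h2 : ({v : B →₀ ℝ | PR cs v ∧ φ v < 0} \ {ee i}).ncard <
        {v : B →₀ ℝ | PR cs v ∧ φ v < 0}.ncard :=
      Set.ncard_sdiff_singleton_lt_of_mem ⟨PR_ee cs i, hi⟩ hfin
    omega
  obtain ⟨g, hg⟩ := ih _ hcard φ' hfin' rfl
  refine ⟨g * cs.simple i, fun j => ?_⟩
  have := hg j
  rw [hφ', LinearMap.comp_apply, geo_geo] at this
  rwa [mul_inv_rev, cs.inv_simple]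

end Q2.CX
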