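import Pool.Agent.Q2.CX.Seq

/-! `(QP1)` implies `(QP2)` for twisted involutions: the core statements. -/

set_option autoImplicit false

namespace Q2.CX

open CoxeterSystem

variable {B : Type*} {M : CoxeterMatrix B}
variable {W : Type*} [Group W] {cs : CoxeterSystem M W}

lemma functional_nonneg {φ : (B →₀ ℝ) →ₗ[ℝ] ℝ} (hφ : ∀ i, 0 < φ (ee i)) {v : B →₀ ℝ}
    (hv : 0 ≤ v) : 0 ≤ φ v := by
  rw [sum_ee v, map_sum]
  refine Finset.sum_nonneg fun i _ => ?_
  rw [map_smul, smul_eq_mul]
  exact mul_nonneg (hv i) (hφ i).le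

/-- a vector on which all positive functionals are nonnegative is nonnegative -/
lemma nonneg_of_functionals {v : B →₀ ℝ}
    (h : ∀ φ : (B →₀ ℝ) →ₗ[ℝ] ℝ, (∀ i, 0 < φ (ee i)) → 0 ≤ φ v) : 0 ≤ v := by
  intro i
  by_contra hcon
  have hi : v i < 0 := by simpa using hcon
  set φ₀ : (B →₀ ℝ) →ₗ[ℝ] ℝ := Finsupp.linearCombination ℝ (fun _ => (1 : ℝ)) with hφ₀
  set K : ℝ := (|φ₀ v| + 1) / (- v i) with hK
  have hK0 : 0 ≤ K := div_nonneg (by positivity) (by linarith)
  have h1 := h (φ₀ + K • Finsupp.lapply i) (by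
    intro j
    have e1 : φ₀ (ee j) = 1 := by simp [hφ₀, ee]
    have e2 : 0 ≤ (ee j : B →₀ ℝ) i := ee_nonneg j i
    simp only [LinearMap.add_apply, LinearMap.smul_apply, Finsupp.lapply_apply, smul_eq_mul, e1]
    have := mul_nonneg hK0 e2
    linarith)
  simp only [LinearMap.add_apply, LinearMap.smul_apply, Finsupp.lapply_apply, smul_eq_mul] at h1
  have h2 : K * v i = - (|φ₀ v| + 1) := by
    rw [hK, div_neg, neg_mul, div_mul_cancel₀ _ hi.ne]
  rw [h2] at h1
  have := le_abs_self (φ₀ v)
  linarith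

lemma left_pos {t x : W} (ht : cs.IsReflection t) (h : cs.length x < cs.length (t * x)) :
    0 ≤ geo cs x⁻¹ (rt cs t) := by
  rw [← length_lt_iff ht]
  have h5 : (t * x)⁻¹ = x⁻¹ * t := by rw [mul_inv_rev, ht.inv]
  rw [← h5, cs.length_inv, cs.length_inv]
  exact h

variable {a b : W}

lemma D_eq (ha : cs.IsReflection a) (hb : cs.IsReflection b) (φ ψ : (B →₀ ℝ) →ₗ[ℝ] ℝ) (k e : ℤ) :
    φ (rt cs (el a b (2 * k + 1))) * ψ (rt cs (el a b (2 * k + 1))) +
      φ (rt cs (el a b (2 * (k + e) + 1))) *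
        ψ (geo cs (el a b (2 * k + 1)) (rt cs (el a b (2 * (k + e) + 1)))) =
    φ (Fs cs a b k) * ψ (Fs cs a b k) - φ (Fs cs a b (k + e)) * ψ (Fs cs a b (k - e)) := by
  have h1 : φ (rt cs (el a b (2 * k + 1))) * ψ (rt cs (el a b (2 * k + 1))) =
      φ (Fs cs a b k) * ψ (Fs cs a b k) := by
    rcases rt_el ha hb k with h | h <;> rw [h] <;> simp
  have h2 : φ (rt cs (el a b (2 * (k + e) + 1))) *
        ψ (geo cs (el a b (2 * k + 1)) (rt cs (el a b (2 * (k + e) + 1)))) =
      - (φ (Fs cs a b (k + e)) * ψ (Fs cs a b (k - e))) := by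
    have h3 := Fs_geo ha hb k (k + e)
    rw [show 2 * k - (k + e) = k - e by ring] at h3
    rcases rt_el ha hb (k + e) with h | h <;> rw [h]
    · rw [h3, map_neg]; ring
    · rw [map_neg (geo cs (el a b (2 * k + 1))), h3, map_neg, neg_neg]; ring
  rw [h1, h2]; ring

lemma D_indep (ha : cs.IsReflection a) (hb : cs.IsReflection b) (φ ψ : (B →₀ ℝ) →ₗ[ℝ] ℝ)
    (k k' e : ℤ) :
    φ (rt cs (el a b (2 * k + 1))) * ψ (rt cs (el a b (2 * k + 1))) +
      φ (rt cs (el a b (2 * (k + e) + 1))) *
        ψ (geo cs (el a b (2 * k + 1)) (rt cs (el a b (2 * (k + e) + 1)))) =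
    φ (rt cs (el a b (2 * k' + 1))) * ψ (rt cs (el a b (2 * k' + 1))) +
      φ (rt cs (el a b (2 * (k' + e) + 1))) *
        ψ (geo cs (el a b (2 * k' + 1)) (rt cs (el a b (2 * (k' + e) + 1)))) := by
  rw [D_eq ha hb, D_eq ha hb]
  have hr : ∀ (χ : (B →₀ ℝ) →ₗ[ℝ] ℝ) (k : ℤ), χ (Fs cs a b (k + 1)) + χ (Fs cs a b (k - 1)) =
      (- bil M (rt cs a) (rt cs b)) * χ (Fs cs a b k) := by
    intro χ k
    rw [← map_add, Fs_rec ha hb, map_smul, smul_eq_mul]
  exact path_indep (p := fun k => φ (Fs cs a b k)) (q := fun k => ψ (Fs cs a b k)) (hr φ) (hr ψ)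
    k k' e

/-- **Sign lemma.** -/
theorem sign_lemma (θ : W ≃* W) (d : Diag cs θ) (hinv : ∀ v, θ (θ v) = v) (w : W)
    (hw : θ w = w⁻¹)
    (hQ : ∀ v r : W, cs.IsReflection r →
      cs.length (r * (v * w * (θ v)⁻¹) * θ r) = cs.length (v * w * (θ v)⁻¹) →
      r * (v * w * (θ v)⁻¹) * θ r = v * w * (θ v)⁻¹)
    (r : W) (hr : cs.IsReflection r) (hlt : cs.length w < cs.length (r * w * θ r)) :
    0 ≤ geo cs w (d.P (rt cs r)) + geo cs r (geo cs w (d.P (rt cs r))) := by
  have hne : r * w * θ r ≠ w := by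
    intro h; rw [h] at hlt; exact lt_irrefl _ hlt
  set r' := w * θ r * w⁻¹ with hr'
  have hr'r : cs.IsReflection r' := (d.refl hr).conj w
  have hprod : r * w * θ r = r * r' * w := by rw [hr']; group
  have hrr' : r ≠ r' := by
    intro h
    apply hne
    rw [hprod, ← h, hr.mul_self, one_mul]
  set P := Submodule.span ℝ {rt cs r, rt cs r'} with hP
  have hrP : r ∈ RP cs P := ⟨hr, Submodule.subset_span (by simp)⟩
  have hrP' : r' ∈ RP cs P := ⟨hr'r, Submodule.subset_span (by simp)⟩
  obtain ⟨a, b, h⟩ := exists_can hr hr'r hrr'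
  rw [← hP] at h
  have aa := h.aa
  have bb := h.bb
  obtain ⟨n, y, hn, hy, hwn⟩ := h.exists_coset w
  -- the plane is stable
  have hstab : ∀ t ∈ RP cs P, w * θ t * w⁻¹ ∈ RP cs P := by
    intro t ht
    have hL : ∀ t, cs.IsReflection t → geo cs w (d.P (rt cs t)) = rt cs (w * θ t * w⁻¹) ∨
        geo cs w (d.P (rt cs t)) = - rt cs (w * θ t * w⁻¹) := by
      intro t ht
      rw [← d.rt_map ht]
      rcases ((rt_isRt (d.refl ht)).geo w).cases with h1 | h1
      · left; exact (rt_conj_pos (d.refl ht) w h1).symm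
      · right; rw [rt_conj_neg (d.refl ht) w h1, neg_neg]
    have hww : w * θ r' * w⁻¹ = r := by
      rw [hr', map_mul, map_mul, map_inv, hinv, hw]; group
    have hPP : ∀ v ∈ P, geo cs w (d.P v) ∈ P := by
      intro v hv
      obtain ⟨x, z, rfl⟩ := Submodule.mem_span_pair.mp hv
      rw [map_add, map_add, map_smul, map_smul, map_smul, map_smul]
      apply P.add_mem
      · apply P.smul_mem
        rcases hL r hr with h1 | h1
        · rw [h1, ← hr']; exact hrP'.2
        · rw [h1, ← hr']; exact P.neg_mem hrP'.2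
      · apply P.smul_mem
        rcases hL r' hr'r with h1 | h1
        · rw [h1, hww]; exact hrP.2
        · rw [h1, hww]; exact P.neg_mem hrP.2
    refine ⟨(d.refl ht.1).conj w, ?_⟩
    have h1 := hPP _ ht.2
    rcases hL t ht.1 with h2 | h2
    · rw [h2] at h1; exact h1
    · rw [h2] at h1; simpa using P.neg_mem h1
  have S : Sit cs θ P a b y n := ⟨h, hy, hinv, by rw [← hwn]; exact hw, by rw [← hwn]; exact hstab⟩
  -- the other element
  obtain ⟨j, hj⟩ := h.exists_el r hrP
  obtain ⟨j', hj'⟩ := h.exists_el r' hrP'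
  have hother : r * w * θ r = el a b (n + 2 * (j - j')) * y := by
    rw [hprod, hj, hj', el_mul_odd aa bb ⟨j, rfl⟩, hwn, ← mul_assoc, el_mul aa bb,
      if_pos (by rw [show 2 * j + 1 - (2 * j' + 1) = 2 * (j - j') by ring]; exact even_two_mul _)]
    congr 2; ring
  obtain ⟨n', hn', hn'e⟩ := h.exists_inRange (n + 2 * (j - j'))
  rw [← hn'e] at hother
  rcases lt_trichotomy |n'| |n| with hc | hc | hc
  · exfalso
    have h1 := (h.ble_of_lt hy hn hc).2
    rw [← hother, ← hwn] at h1
    omega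
  · exfalso
    rcases abs_eq_abs.mp hc with h1 | h1
    · apply hne
      rw [hother, h1, ← hwn]
    · have hmir : el a b (n + 2 * (j - j')) = el a b (-n) := by rw [← hn'e, h1]
      by_cases hm : orderOf (a * b) = 0
      · have h0 := S.no_mirror_infinite d hm (j := j) (j' := j') (by
          rw [← hwn, ← hj, ← hj', hr']) hmir
        apply hne
        rw [hother, h1, h0, neg_zero, ← h0]
        exact hwn.symm
      · obtain ⟨g, i, i', hga, hgb, hg⟩ := h.exists_parabolic hm
        have e1 := S.length_parabolic d hga hgb hg n hn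
        have e2 := S.length_parabolic d hga hgb hg n' hn'
        rw [hc] at e2
        have e3 : cs.length (g * (el a b n * y) * (θ g)⁻¹) =
            cs.length (g * (el a b n' * y) * (θ g)⁻¹) := by omega
        rw [← hwn, ← hother] at e3
        have e4 : (g * r * g⁻¹) * (g * w * (θ g)⁻¹) * θ (g * r * g⁻¹) =
            g * (r * w * θ r) * (θ g)⁻¹ := by
          rw [map_mul, map_mul, map_inv]; group
        have e5 := hQ g (g * r * g⁻¹) (hr.conj g) (by rw [e4]; exact e3.symm)
        rw [e4] at e5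
        exact hne (mul_left_cancel (mul_right_cancel e5))
  · -- the main case
    have hdvd := (h.el_eq_iff _ _).mp hn'e
    obtain ⟨s, hs⟩ := hdvd
    -- same parity
    obtain ⟨e, he⟩ : ∃ e : ℤ, n' = n + 2 * e := ⟨j - j' + orderOf (a * b) * s, by linarith⟩
    have hj'' : r' = el a b (2 * (j - e) + 1) := by
      rw [hj', h.el_eq_iff]
      refine ⟨s, ?_⟩
      linarith
    have habs : |n| + 2 ≤ |n'| := by
      rcases abs_cases n with h1 | h1 <;> rcases abs_cases n' with h2 | h2 <;> omega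
    have h0 : 0 ≤ |n| := abs_nonneg n
    have e1 : |(|n'| - 1)| = |n'| - 1 := abs_of_nonneg (by omega)
    have hrn : InRange a b (|n'| - 1) := by
      rcases hn' with h1 | h1
      · exact Or.inl h1
      · right; rw [e1]; omega
    obtain ⟨k, hk⟩ : ∃ k : ℤ, n + (|n'| - 1) = 2 * k + 1 := by
      rcases abs_cases n' with h2 | h2
      · exact ⟨n + e - 1, by omega⟩
      · exact ⟨- e - 1, by omega⟩
    have hk2 : (|n'| - 1) + n' = 2 * (k + e) + 1 := by omega
    set t₁ := el a b (2 * k + 1) with ht₁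
    set t₂ := el a b (2 * (k + e) + 1) with ht₂
    have hR1 : cs.IsReflection t₁ := h.refl _ (h.el_odd_mem k)
    have hR2 : cs.IsReflection t₂ := h.refl _ (h.el_odd_mem (k + e))
    have m1 : t₁ * w = el a b (|n'| - 1) * y := by
      rw [hwn, ← mul_assoc, ht₁, el_mul_odd aa bb ⟨k, rfl⟩, ← hk]; congr 2; ring
    have m2 : t₂ * (t₁ * w) = el a b n' * y := by
      rw [m1, ← mul_assoc, ht₂, el_mul_odd aa bb ⟨k + e, rfl⟩, ← hk2]; congr 2; ring
    have l1 : cs.length w < cs.length (t₁ * w) := by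
      rw [m1]; conv_lhs => rw [hwn]
      exact (h.ble_of_lt hy hrn (by rw [e1]; omega)).2
    have l2 : cs.length (t₁ * w) < cs.length (t₂ * (t₁ * w)) := by
      rw [m2, m1]
      exact (h.ble_of_lt hy hn' (by rw [e1]; omega)).2
    have p1 := left_pos hR1 l1
    have p2 := left_pos hR2 l2
    rw [mul_inv_rev, hR1.inv, ← geo_geo] at p2
    apply nonneg_of_functionals
    intro φ hφ
    set ψ : (B →₀ ℝ) →ₗ[ℝ] ℝ := φ ∘ₗ d.P ∘ₗ (geo cs w⁻¹) with hψ
    have hψa : ∀ x, ψ x = φ (d.P (geo cs w⁻¹ x)) := fun x => rfl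
    have hD := D_indep (cs := cs) h.ra h.rb φ ψ k (j - e) e
    rw [show j - e + e = j by ring, ← hj'', ← hj, ← ht₁, ← ht₂] at hD
    have hDpos : 0 ≤ φ (rt cs t₁) * ψ (rt cs t₁) + φ (rt cs t₂) * ψ (geo cs t₁ (rt cs t₂)) := by
      apply add_nonneg
      · apply mul_nonneg (functional_nonneg hφ (rt_pos hR1))
        rw [hψa]
        exact functional_nonneg hφ (d.P_nonneg p1)
      · apply mul_nonneg (functional_nonneg hφ (rt_pos hR2))
        rw [hψa]
        exact functional_nonneg hφ (d.P_nonneg p2)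
    rw [hD] at hDpos
    -- computation of the other side
    have hPP : d.P (d.P (rt cs r)) = rt cs r := by
      rw [← d.rt_map hr, ← d.rt_map (d.refl hr), hinv]
    have c1 : φ (rt cs r') * ψ (rt cs r') =
        φ (geo cs w (d.P (rt cs r))) * φ (rt cs r) := by
      have hg : d.P (geo cs w⁻¹ (geo cs w (d.P (rt cs r)))) = rt cs r := by
        rw [geo_inv_apply, hPP]
      rcases ((rt_isRt (d.refl hr)).geo w).cases with h1 | h1
      · have h2 := rt_conj_pos (d.refl hr) w h1
        rw [← hr', d.rt_map hr] at h2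
        rw [h2, hψa, hg]
      · have h2 := rt_conj_neg (d.refl hr) w h1
        rw [← hr', d.rt_map hr] at h2
        rw [h2, hψa, map_neg, map_neg, map_neg, map_neg, hg]; ring
    have c2 : ψ (geo cs r' (rt cs r)) = φ (geo cs r (geo cs w (d.P (rt cs r)))) := by
      rw [hψa, geo_geo, show w⁻¹ * r' = θ r * w⁻¹ by rw [hr']; group, ← d.geo_P, map_mul, hinv,
        map_inv, hw, inv_inv, ← geo_geo]
    rw [c1, c2] at hDpos
    have hβ : 0 < φ (rt cs r) := by
      exact functional_pos hφ (rt_pos hr) (rt_isRt hr).ne_zero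
    rw [map_add]
    have h3 : 0 ≤ φ (rt cs r) * (φ (geo cs w (d.P (rt cs r))) +
        φ (geo cs r (geo cs w (d.P (rt cs r))))) := by
      linarith
    exact nonneg_of_mul_nonneg_right h3 hβ

/-- the form is invariant under diagram automorphisms -/
lemma Diag.bil_P {θ : W ≃* W} (d : Diag cs θ) (v u : B →₀ ℝ) :
    bil M (d.P v) (d.P u) = bil M v u := by
  rw [sum_ee v, map_sum]
  have hl : ∀ (s : Finset B) (f : B → (B →₀ ℝ)) (x : B →₀ ℝ),
      bil M (∑ i ∈ s, f i) x = ∑ i ∈ s, bil M (f i) x := by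
    intro s f x
    unfold bil
    rw [map_sum]
  rw [hl, hl]
  refine Finset.sum_congr rfl fun i _ => ?_
  rw [map_smul, bil_smul_left, bil_smul_left, d.P_ee, bil_ee_left, bil_ee_left, d.coroot_P]

/-- **`(QP1)` implies `(QP2)`: the core statement.** -/
theorem qp2 (θ : W ≃* W) (d : Diag cs θ) (hinv : ∀ v, θ (θ v) = v) (w : W)
    (hw : θ w = w⁻¹)
    (hQ : ∀ v r : W, cs.IsReflection r →
      cs.length (r * (v * w * (θ v)⁻¹) * θ r) = cs.length (v * w * (θ v)⁻¹) →
      r * (v * w * (θ v)⁻¹) * θ r = v * w * (θ v)⁻¹)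
    (r : W) (hr : cs.IsReflection r) (i : B) (hlt : cs.length w < cs.length (r * w * θ r))
    (hlt2 : cs.length (cs.simple i * (r * w * θ r) * θ (cs.simple i)) <
      cs.length (cs.simple i * w * θ (cs.simple i))) :
    r * w * θ r = cs.simple i * w * θ (cs.simple i) := by
  set s := cs.simple i with hs
  have hsr : cs.IsReflection s := cs.isReflection_simple i
  by_cases hrs : r = s
  · rw [hrs]
  have hss : s * s = 1 := hsr.mul_self
  have hsinv : s⁻¹ = s := hsr.inv
  -- the involution
  set X : (B →₀ ℝ) → (B →₀ ℝ) := fun v => geo cs w (d.P v) with hX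
  have hPPv : ∀ v, d.P (d.P v) = v := by
    intro v
    have h1 : (d.P ∘ₗ d.P) = LinearMap.id := by
      apply Finsupp.lhom_ext'
      intro j
      apply LinearMap.ext_ring
      have h2 : d.P (d.P (ee j)) = ee j := by
        rw [← rt_simple (cs := cs) j, ← d.rt_map (cs.isReflection_simple j),
          ← d.rt_map (d.refl (cs.isReflection_simple j)), hinv]
      simpa [ee] using h2
    exact LinearMap.congr_fun h1 v
  have hXX : ∀ v, X (X v) = v := by
    intro v
    simp only [hX]
    rw [← d.geo_P, hw, geo_apply_inv, hPPv]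
  have hXadd : ∀ v u, X (v + u) = X v + X u := by intro v u; simp only [hX, map_add]
  have hXsmul : ∀ (c : ℝ) v, X (c • v) = c • X v := by intro c v; simp only [hX, map_smul]
  have hXbil : ∀ v u, bil M (X v) (X u) = bil M v u := by
    intro v u
    simp only [hX]
    rw [bil_geo, d.bil_P]
  set β := rt cs r with hβ
  set γ := X β with hγ
  set lam := γ + geo cs r γ with hlam
  have hlam0 : 0 ≤ lam := sign_lemma θ d hinv w hw hQ r hr hlt
  -- the second instance
  have hsβ : 0 ≤ geo cs s β := by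
    rcases ((rt_isRt hr).geo s).cases with h1 | h1
    · exact h1
    · exfalso
      have h2 := (rt_PR hr).eq_ee (i := i) h1
      apply hrs
      apply rt_inj hr hsr
      rw [h2, hs, rt_simple]
  set r₁ := s * r * s with hr₁
  have hr₁' : r₁ = s * r * s⁻¹ := by rw [hsinv]
  have hr₁r : cs.IsReflection r₁ := by rw [hr₁']; exact hr.conj s
  have hrt₁ : rt cs r₁ = geo cs s β := by rw [hr₁']; exact rt_conj_pos hr s hsβ
  set w₂ := s * (r * w * θ r) * θ s with hw₂
  have hθs : θ s * θ s = 1 := by rw [← map_mul, hss, map_one]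
  have hθr : θ r * θ r = 1 := by rw [← map_mul, hr.mul_self, map_one]
  have hw₂' : r₁ * w₂ * θ r₁ = s * w * θ s := by
    rw [hr₁, hw₂, map_mul, map_mul]
    calc s * r * s * (s * (r * w * θ r) * θ s) * (θ s * θ r * θ s)
        = s * r * (s * s) * r * w * θ r * (θ s * θ s) * θ r * θ s := by group
      _ = s * (r * r) * w * (θ r * θ r) * θ s := by rw [hss, hθs]; group
      _ = s * w * θ s := by rw [hr.mul_self, hθr]; group
  have hlam2 : geo cs s lam ≤ 0 := by
    have h1 := sign_lemma θ d hinv w₂ (by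
      rw [hw₂, map_mul, map_mul, map_mul, map_mul, hinv, hinv, hw]
      have e1 : (θ s)⁻¹ = θ s := inv_eq_of_mul_eq_one_left hθs
      have e2 : (θ r)⁻¹ = θ r := inv_eq_of_mul_eq_one_left hθr
      rw [mul_inv_rev, mul_inv_rev, mul_inv_rev, mul_inv_rev, e1, e2, hr.inv, hsinv]
      group) (by
      intro v t ht hl
      have e1 : v * w₂ * (θ v)⁻¹ = (v * s * r) * w * (θ (v * s * r))⁻¹ := by
        rw [hw₂, map_mul, map_mul, mul_inv_rev, mul_inv_rev]
        have e1 : (θ s)⁻¹ = θ s := inv_eq_of_mul_eq_one_left hθs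
        have e2 : (θ r)⁻¹ = θ r := inv_eq_of_mul_eq_one_left hθr
        rw [e1, e2]; group
      rw [e1] at hl ⊢
      exact hQ _ t ht hl) r₁ hr₁r (by rw [hw₂']; exact hlt2)
    -- compute
    have h2 : geo cs w₂ (d.P (rt cs r₁)) = - geo cs (s * r) γ := by
      rw [hrt₁, ← d.geo_P, geo_geo, hw₂,
        show s * (r * w * θ r) * θ s * θ s = s * (r * w * θ r) * (θ s * θ s) by group, hθs, mul_one,
        show s * (r * w * θ r) = (s * r * w) * θ r by group, ← geo_geo, d.geo_P, hβ,
        geo_rt_self hr, map_neg, map_neg, hγ]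
      simp only [hX]
      rw [geo_geo, hβ]
    have h3 : geo cs r₁ (geo cs w₂ (d.P (rt cs r₁))) = - geo cs s γ := by
      rw [h2, map_neg, geo_geo]
      congr 3
      rw [hr₁]
      calc s * r * s * (s * r) = s * r * (s * s) * r := by group
        _ = s := by rw [hss, mul_one, mul_assoc, hr.mul_self, mul_one]
    rw [h3, h2] at h1
    have h4 : geo cs s lam = -(-geo cs (s * r) γ + -geo cs s γ) := by
      rw [hlam, map_add, geo_geo (cs := cs) s r γ]; abel
    rw [h4]
    exact neg_nonpos.mpr h1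
  -- `lam` is a multiple of the simple root
  have hgs : ∀ v, geo cs s v = v - bil M (ee i) v • ee i := by
    intro v
    rw [hs, geo_simple, sg_apply, bil_ee_left]
  have hgr : ∀ v, geo cs r v = v - bil M β v • β := fun v => geo_refl hr v
  have hlame : lam = lam i • ee i := by
    ext j
    by_cases hj : j = i
    · subst hj
      simp [ee]
    · have h1 : 0 ≤ lam j := hlam0 j
      have h2 : (geo cs s lam) j ≤ 0 := hlam2 j
      rw [hgs] at h2
      have h3 : (ee i : B →₀ ℝ) j = 0 := by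
        classical
        rw [ee, Finsupp.single_apply, if_neg (fun h => hj h.symm)]
      simp only [Finsupp.sub_apply, Finsupp.smul_apply, h3, smul_eq_mul, mul_zero, sub_zero] at h2
      simp only [Finsupp.smul_apply, h3, smul_eq_mul, mul_zero]
      linarith
  have hββ : bil M β β = 2 := bil_rt_self hr
  have hlam' : lam = (2 : ℝ) • γ - bil M β γ • β := by
    rw [hlam, hgr, two_smul]; abel
  have hlamβ : bil M lam β = 0 := by
    rw [hlam', bil_sub_left, bil_smul_left, bil_smul_left, hββ, bil_symm γ β]; ring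
  have hne0 : lam i ≠ 0 := by
    intro h0
    have hz : lam = 0 := by rw [hlame, h0, zero_smul]
    have hγc : γ = (bil M β γ / 2) • β := by
      have h1 : (2 : ℝ) • γ = bil M β γ • β := by
        rw [← sub_eq_zero, ← hlam', hz]
      have h2 : γ = (1 / 2 : ℝ) • ((2 : ℝ) • γ) := by rw [smul_smul]; norm_num
      rw [h1, smul_smul] at h2
      rw [h2]
      congr 1
      rw [bil_smul_right, hββ]; ring
    have hcon : w * θ r * w⁻¹ = r := by
      have hγ' : γ = geo cs w (rt cs (θ r)) := by rw [hγ, hβ, d.rt_map hr]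
      apply rt_inj ((d.refl hr).conj w) hr
      rcases ((rt_isRt (d.refl hr)).geo w).cases with h1 | h1
      · have h2 := rt_conj_pos (d.refl hr) w h1
        rw [← hγ'] at h2
        have h3 := rt_PR ((d.refl hr).conj w)
        rw [h2] at h3 ⊢
        exact h3.eq_of_smul (rt_PR hr) hγc
      · have h2 := rt_conj_neg (d.refl hr) w h1
        rw [← hγ'] at h2
        have h3 := rt_PR ((d.refl hr).conj w)
        rw [h2] at h3 ⊢
        refine h3.eq_of_smul (rt_PR hr) (a := -(bil M β γ / 2)) ?_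
        rw [neg_smul]
        exact congrArg Neg.neg hγc
    have h5 : r * w * θ r = w := by
      calc r * w * θ r = r * (w * θ r * w⁻¹) * w := by group
        _ = w := by rw [hcon, hr.mul_self, one_mul]
    rw [h5] at hlt
    exact lt_irrefl _ hlt
  have heβ : bil M (ee i) β = 0 := by
    rw [hlame, bil_smul_left] at hlamβ
    exact (mul_eq_zero.mp hlamβ).resolve_left hne0
  have hee : bil M (ee i) (ee i) = 2 := by
    rw [← rt_simple (cs := cs) i]; exact bil_rt_self hsr
  set μ := lam i / 2 with hμ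
  set ν := bil M β γ / 2 with hν
  have hμ0 : μ ≠ 0 := by rw [hμ]; positivity
  have hγe : γ = μ • ee i + ν • β := by
    have h1 : (2 : ℝ) • γ = lam i • ee i + bil M β γ • β := by
      rw [← hlame, hlam']; abel
    have h2 : γ = (1 / 2 : ℝ) • ((2 : ℝ) • γ) := by rw [smul_smul]; norm_num
    rw [h2, h1, smul_add, smul_smul, smul_smul, hμ, hν]
    congr 2 <;> ring
  have hnorm : μ ^ 2 + ν ^ 2 = 1 := by
    have h1 : bil M γ γ = 2 := by rw [hγ, hXbil, hββ]
    rw [hγe] at h1
    simp only [bil_add_left, bil_add_right, bil_smul_left, bil_smul_right, hee, heβ, hββ,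
      bil_symm β (ee i)] at h1
    linarith
  have hXe : X (ee i) = μ • β - ν • ee i := by
    have h1 : X γ = β := by rw [hγ, hXX]
    have h2 : μ • X (ee i) + ν • γ = β := by
      rw [← h1, hγ, ← hXsmul]
      conv_rhs => rw [← hγ, hγe, hXadd, hXsmul, hXsmul]
      rw [hXsmul]
    have h3 : μ • X (ee i) = μ • (μ • β - ν • ee i) := by
      have h4 : μ • X (ee i) = β - ν • γ := by rw [← h2]; abel
      rw [h4, hγe]
      calc β - ν • (μ • ee i + ν • β) = (1 - ν ^ 2) • β - (ν * μ) • ee i := by module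
        _ = (μ ^ 2) • β - (ν * μ) • ee i := by rw [show 1 - ν ^ 2 = μ ^ 2 by linarith]
        _ = _ := by module
    have h6 := congrArg (fun v => μ⁻¹ • v) h3
    simpa [smul_smul, inv_mul_cancel₀ hμ0] using h6
  -- commutation
  have hcomm : ∀ u, geo cs (s * r) (X u) = X (geo cs (s * r) u) := by
    intro u
    have hsr' : ∀ v, geo cs (s * r) v = v - bil M β v • β - bil M (ee i) v • ee i := by
      intro v
      rw [← geo_geo, hgr, hgs, bil_sub_right, bil_smul_right, heβ, mul_zero, sub_zero]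
    have hXsub : ∀ v u, X (v - u) = X v - X u := by intro v u; simp only [hX, map_sub]
    have e1 : bil M β (X u) = bil M γ u := by rw [← hXbil, hXX]
    have e2 : bil M (ee i) (X u) = bil M (X (ee i)) u := by rw [← hXbil, hXX]
    rw [hsr', hsr', e1, e2, hXsub, hXsub, hXsmul, hXsmul, ← hγ, hXe, hγe]
    simp only [bil_add_left, bil_sub_left, bil_smul_left]
    module
  have hfin : s * r * w = w * θ (s * r) := by
    apply geo_injective cs
    apply LinearMap.ext
    intro v
    have h1 := hcomm (d.P v)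
    simp only [hX] at h1
    rw [hPPv, geo_geo, ← d.geo_P, hPPv, geo_geo] at h1
    exact h1
  calc r * w * θ r = s * (s * r * w) * θ r := by
        rw [show s * (s * r * w) = (s * s) * (r * w) by group, hss, one_mul]
    _ = s * w * θ s * (θ r * θ r) := by rw [hfin, map_mul]; group
    _ = s * w * θ s := by rw [hθr, mul_one]

end Q2.CX
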