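import Pool.Agent.Q2.CX.Form

/-! Roots and reflections, arbitrary rank; see `Pool.Agent.TH107.Root`. -/

set_option autoImplicit false

namespace Q2.CX

open CoxeterSystem
open Pool.Agent.Helper741 (cc qs cc_symm cc_self two_le_of_ne cc_of_zero sin_pos_of_ne qs_nonneg
  qs_zero qs_one qs_add_two qs_sin qs_of_one)

variable {B : Type*} {M : CoxeterMatrix B}
variable {W : Type*} [Group W] (cs : CoxeterSystem M W)

/-- being a root -/
def IsRt (v : B →₀ ℝ) : Prop := ∃ (w : W) (i : B), geo cs w (ee i) = v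

/-- positive root -/
def PR (v : B →₀ ℝ) : Prop := IsRt cs v ∧ 0 ≤ v

lemma isRt_ee (i : B) : IsRt cs (ee i) := ⟨1, i, by simp⟩

lemma PR_ee (i : B) : PR cs (ee i) := ⟨isRt_ee cs i, ee_nonneg i⟩

variable {cs}

lemma IsRt.geo {v : B →₀ ℝ} (h : IsRt cs v) (w : W) : IsRt cs (geo cs w v) := by
  obtain ⟨u, i, rfl⟩ := h
  exact ⟨w * u, i, by rw [map_mul, Module.End.mul_apply]⟩

lemma IsRt.neg {v : B →₀ ℝ} (h : IsRt cs v) : IsRt cs (-v) := by
  obtain ⟨u, i, rfl⟩ := h
  exact ⟨u * cs.simple i, i, by rw [map_mul, Module.End.mul_apply, geo_simple, sg_ee_self, map_neg]⟩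

lemma IsRt.cases {v : B →₀ ℝ} (h : IsRt cs v) : 0 ≤ v ∨ v ≤ 0 := by
  obtain ⟨u, i, rfl⟩ := h
  rcases cs.length_mul_simple u i with h1 | h1
  · left; rw [geo_nonneg_iff]; omega
  · right; rw [geo_nonpos_iff]; omega

lemma IsRt.ne_zero {v : B →₀ ℝ} (h : IsRt cs v) : v ≠ 0 := by
  obtain ⟨u, i, rfl⟩ := h
  exact geo_ee_ne_zero cs u i

lemma IsRt.not_both {v : B →₀ ℝ} (h : IsRt cs v) (h1 : 0 ≤ v) (h2 : v ≤ 0) : False :=
  h.ne_zero (le_antisymm h2 h1)

lemma IsRt.not_nonneg {v : B →₀ ℝ} (h : IsRt cs v) : ¬ 0 ≤ v ↔ v ≤ 0 := by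
  constructor
  · intro h1; exact h.cases.resolve_left h1
  · intro h1 h2; exact h.not_both h2 h1

lemma IsRt.not_nonpos {v : B →₀ ℝ} (h : IsRt cs v) : ¬ v ≤ 0 ↔ 0 ≤ v := by
  constructor
  · intro h1; exact h.cases.resolve_right h1
  · intro h1 h2; exact h.not_both h1 h2

lemma IsRt.bil_self {v : B →₀ ℝ} (h : IsRt cs v) : bil M v v = 2 := by
  obtain ⟨u, i, rfl⟩ := h
  rw [bil_geo, bil_ee_left, coroot_ee, cc_self]; norm_num

lemma PR.root {v : B →₀ ℝ} (h : PR cs v) : IsRt cs v := h.1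
lemma PR.pos {v : B →₀ ℝ} (h : PR cs v) : 0 ≤ v := h.2

lemma bil_neg_left (v u : B →₀ ℝ) : bil M (-v) u = - bil M v u := by
  have := bil_smul_left (M := M) (-1) v u
  rw [neg_one_smul, neg_one_mul] at this; exact this

lemma bil_neg_right (v u : B →₀ ℝ) : bil M v (-u) = - bil M v u := by
  rw [bil_symm, bil_neg_left, bil_symm]

/-- proportional positive roots are equal -/
lemma PR.eq_of_smul {v v' : B →₀ ℝ} (h : PR cs v) (h' : PR cs v') {a : ℝ} (hv : v = a • v') : v = v' := by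
  have h1 := h.root.bil_self
  rw [hv, bil_smul_left, bil_smul_right, h'.root.bil_self] at h1
  have h2 : (a - 1) * (a + 1) = 0 := by nlinarith
  rcases mul_eq_zero.mp h2 with h3 | h3
  · rw [hv, sub_eq_zero.mp h3, one_smul]
  · exfalso
    have ha : a = -1 := by linarith
    rw [ha, neg_one_smul] at hv
    apply h.root.not_both h.pos
    rw [hv]
    exact neg_nonpos.mpr h'.pos

/-- root reflection action determines the positive root -/
lemma PR.eq_of_refl {v v' : B →₀ ℝ} (h : PR cs v) (h' : PR cs v')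
    (hr : ∀ x, x - bil M v x • v = x - bil M v' x • v') : v = v' := by
  have h1 := hr v
  rw [h.root.bil_self] at h1
  apply h.eq_of_smul h' (a := bil M v' v / 2)
  have h2 : (2 : ℝ) • v = bil M v' v • v' := by
    have := congrArg (fun z => v - z) h1
    simpa using this
  calc v = (1 / 2 : ℝ) • ((2 : ℝ) • v) := by module
    _ = (bil M v' v / 2) • v' := by rw [h2]; module

lemma exists_root_of_refl {t : W} (ht : cs.IsReflection t) :
    ∃ v, PR cs v ∧ ∀ x, geo cs t x = x - bil M v x • v := by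
  obtain ⟨w, i, rfl⟩ := ht
  have hrt : IsRt cs (Q2.CX.geo cs w (ee i)) := (isRt_ee cs i).geo w
  rcases hrt.cases with h | h
  · exact ⟨_, ⟨hrt, h⟩, fun x => geo_conj_simple cs w i x⟩
  · refine ⟨_, ⟨hrt.neg, by simpa using h⟩, fun x => ?_⟩
    rw [geo_conj_simple cs w i x, bil_neg_left]; simp

variable (cs)

open Classical in
/-- the positive root of a reflection -/
noncomputable def rt (t : W) : B →₀ ℝ :=
  if h : cs.IsReflection t then (exists_root_of_refl h).choose else 0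

variable {cs}

lemma rt_PR {t : W} (ht : cs.IsReflection t) : PR cs (rt cs t) := by
  rw [rt, dif_pos ht]; exact (exists_root_of_refl ht).choose_spec.1

lemma rt_pos {t : W} (ht : cs.IsReflection t) : 0 ≤ rt cs t := (rt_PR ht).pos

lemma rt_isRt {t : W} (ht : cs.IsReflection t) : IsRt cs (rt cs t) := (rt_PR ht).root

lemma geo_refl {t : W} (ht : cs.IsReflection t) (x : B →₀ ℝ) :
    geo cs t x = x - bil M (rt cs t) x • rt cs t := by
  have h : rt cs t = (exists_root_of_refl ht).choose := by rw [rt, dif_pos ht]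
  rw [h]
  exact (exists_root_of_refl ht).choose_spec.2 x

lemma bil_rt_self {t : W} (ht : cs.IsReflection t) : bil M (rt cs t) (rt cs t) = 2 :=
  (rt_isRt ht).bil_self

lemma geo_rt_self {t : W} (ht : cs.IsReflection t) : geo cs t (rt cs t) = - rt cs t := by
  rw [geo_refl ht, bil_rt_self ht]; module

lemma rt_unique {t : W} (ht : cs.IsReflection t) {v : B →₀ ℝ} (hv : PR cs v)
    (h : ∀ x, geo cs t x = x - bil M v x • v) : rt cs t = v := by
  apply (rt_PR ht).eq_of_refl hv
  intro x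
  rw [← geo_refl ht, h]

lemma rt_inj {t t' : W} (ht : cs.IsReflection t) (ht' : cs.IsReflection t')
    (h : rt cs t = rt cs t') : t = t' := by
  apply geo_injective cs
  apply LinearMap.ext
  intro x
  rw [geo_refl ht, geo_refl ht', h]

lemma refl_mul_self {t : W} (ht : cs.IsReflection t) : t * t = 1 := ht.mul_self

lemma geo_geo (w w' : W) (x : B →₀ ℝ) : geo cs w (geo cs w' x) = geo cs (w * w') x := by
  rw [map_mul, Module.End.mul_apply]

lemma geo_conj_refl {t : W} (ht : cs.IsReflection t) (w : W) (x : B →₀ ℝ) :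
    geo cs (w * t * w⁻¹) x = x - bil M (geo cs w (rt cs t)) x • geo cs w (rt cs t) := by
  rw [map_mul, map_mul, Module.End.mul_apply, Module.End.mul_apply, geo_refl ht, map_sub,
    geo_apply_inv, map_smul]
  congr 2
  rw [← bil_geo cs w, geo_apply_inv]

lemma rt_conj_pos {t : W} (ht : cs.IsReflection t) (w : W) (h : 0 ≤ geo cs w (rt cs t)) :
    rt cs (w * t * w⁻¹) = geo cs w (rt cs t) :=
  rt_unique (ht.conj w) ⟨(rt_isRt ht).geo w, h⟩ (geo_conj_refl ht w)

lemma rt_conj_neg {t : W} (ht : cs.IsReflection t) (w : W) (h : geo cs w (rt cs t) ≤ 0) :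
    rt cs (w * t * w⁻¹) = - geo cs w (rt cs t) := by
  apply rt_unique (ht.conj w) ⟨((rt_isRt ht).geo w).neg, by simpa using h⟩
  intro x
  rw [geo_conj_refl ht w, bil_neg_left]; simp

lemma exists_refl_of_root {v : B →₀ ℝ} (h : PR cs v) : ∃ t, cs.IsReflection t ∧ rt cs t = v := by
  obtain ⟨⟨w, i, rfl⟩, hp⟩ := h
  refine ⟨w * cs.simple i * w⁻¹, ⟨w, i, rfl⟩, ?_⟩
  exact rt_unique ⟨w, i, rfl⟩ ⟨⟨w, i, rfl⟩, hp⟩ (geo_conj_simple cs w i)

lemma rt_simple (i : B) : rt cs (cs.simple i) = ee i := by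
  apply rt_unique (cs.isReflection_simple i) (PR_ee cs i)
  intro x
  rw [geo_simple, sg_apply, bil_ee_left]

/-- a simple reflection only changes the sign of its own root -/
lemma PR.eq_ee {v : B →₀ ℝ} (h : PR cs v) {i : B} (hi : geo cs (cs.simple i) v ≤ 0) : v = ee i := by
  have h1 : ∀ j, j ≠ i → v j = 0 := by
    intro j hj
    have h2 := hi j
    rw [geo_simple, sg_apply] at h2
    have h3 : (ee i : B →₀ ℝ) j = 0 := by
      classical
      rw [ee, Finsupp.single_apply, if_neg (fun e => hj e.symm)]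
    rw [Finsupp.sub_apply, Finsupp.smul_apply, h3, smul_zero, sub_zero, Finsupp.zero_apply] at h2
    exact le_antisymm h2 (h.pos j)
  have h2 : v = (v i) • (ee i : B →₀ ℝ) := by
    ext j
    by_cases hj : j = i
    · subst hj; simp [ee]
    · simp [ee, h1 j hj, hj]
  exact h.eq_of_smul (PR_ee cs i) h2

/-- word lemma -/
lemma word_split (ω : List B) {v : B →₀ ℝ} (hv : PR cs v) (h : geo cs (cs.wordProd ω) v ≤ 0) :
    ∃ ω₁ i ω₂, ω = ω₁ ++ i :: ω₂ ∧ geo cs (cs.wordProd ω₂) v = ee i := by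
  induction ω with
  | nil =>
    simp only [wordProd_nil, map_one, Module.End.one_apply] at h
    exact (hv.root.not_both hv.pos h).elim
  | cons i ω ih =>
    by_cases h1 : geo cs (cs.wordProd ω) v ≤ 0
    · obtain ⟨ω₁, j, ω₂, h2, h3⟩ := ih h1
      exact ⟨i :: ω₁, j, ω₂, by rw [h2]; rfl, h3⟩
    · have hrt := hv.root.geo (cs.wordProd ω)
      refine ⟨[], i, ω, rfl, ?_⟩
      apply PR.eq_ee (cs := cs) ⟨hrt, (hrt.not_nonpos).mp h1⟩
      rw [wordProd_cons] at h
      rwa [geo_geo]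

lemma wordProd_erase {t : W} (ht : cs.IsReflection t) {ω₁ ω₂ : List B} {i : B}
    (h : geo cs (cs.wordProd ω₂) (rt cs t) = ee i) :
    t = (cs.wordProd ω₂)⁻¹ * cs.simple i * cs.wordProd ω₂ ∧
    cs.wordProd (ω₁ ++ i :: ω₂) * t = cs.wordProd (ω₁ ++ ω₂) := by
  have h1 : cs.wordProd ω₂ * t * (cs.wordProd ω₂)⁻¹ = cs.simple i := by
    apply rt_inj (cs := cs) (ht.conj _) (cs.isReflection_simple i)
    rw [rt_conj_pos ht _ (by rw [h]; exact ee_nonneg i), h, rt_simple]
  have h2 : t = (cs.wordProd ω₂)⁻¹ * cs.simple i * cs.wordProd ω₂ := by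
    rw [← h1]; group
  refine ⟨h2, ?_⟩
  rw [wordProd_append, wordProd_append, wordProd_cons, h2]
  calc cs.wordProd ω₁ * (cs.simple i * cs.wordProd ω₂) * ((cs.wordProd ω₂)⁻¹ * cs.simple i * cs.wordProd ω₂)
      = cs.wordProd ω₁ * (cs.simple i * cs.simple i) * cs.wordProd ω₂ := by group
    _ = _ := by rw [cs.simple_mul_simple_self, mul_one]

lemma length_of_neg {t : W} (ht : cs.IsReflection t) {w : W} (h : geo cs w (rt cs t) ≤ 0) :
    cs.length (w * t) < cs.length w := by
  obtain ⟨ω, hred, rfl⟩ := cs.exists_isReduced w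
  obtain ⟨ω₁, i, ω₂, rfl, h2⟩ := word_split ω (rt_PR ht) h
  rw [(wordProd_erase (ω₁ := ω₁) ht h2).2, hred.eq]
  have := cs.length_wordProd_le (ω₁ ++ ω₂)
  simp only [List.length_append, List.length_cons] at this ⊢
  omega

lemma length_of_pos {t : W} (ht : cs.IsReflection t) {w : W} (h : 0 ≤ geo cs w (rt cs t)) :
    cs.length w < cs.length (w * t) := by
  have h1 : geo cs (w * t) (rt cs t) ≤ 0 := by
    rw [← geo_geo, geo_rt_self ht, map_neg]; simpa using h
  have h2 := length_of_neg ht h1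
  rwa [mul_assoc, ht.mul_self, mul_one] at h2

lemma length_lt_iff {t : W} (ht : cs.IsReflection t) {w : W} :
    cs.length w < cs.length (w * t) ↔ 0 ≤ geo cs w (rt cs t) := by
  constructor
  · intro h
    rcases ((rt_isRt ht).geo w).cases with h1 | h1
    · exact h1
    · have := length_of_neg ht h1; omega
  · exact length_of_pos ht

lemma length_gt_iff {t : W} (ht : cs.IsReflection t) {w : W} :
    cs.length (w * t) < cs.length w ↔ geo cs w (rt cs t) ≤ 0 := by
  constructor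
  · intro h
    rcases ((rt_isRt ht).geo w).cases with h1 | h1
    · have := length_of_pos ht h1; omega
    · exact h1
  · exact length_of_neg ht

lemma length_ne {t : W} (ht : cs.IsReflection t) (w : W) : cs.length (w * t) ≠ cs.length w :=
  ht.length_mul_left_ne w

/-- finiteness of inversion sets -/
lemma inv_finite (w : W) : {v : B →₀ ℝ | PR cs v ∧ geo cs w v ≤ 0}.Finite := by
  obtain ⟨ω, hred, rfl⟩ := cs.exists_isReduced w
  apply Set.Finite.subset
    ((Set.finite_range (fun p : Fin ω.length =>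
      geo cs (cs.wordProd (ω.drop (p + 1)))⁻¹ (ee ω[p]))))
  rintro v ⟨hv, h⟩
  obtain ⟨ω₁, i, ω₂, h1, h2⟩ := word_split ω hv h
  refine ⟨⟨ω₁.length, ?_⟩, ?_⟩
  · rw [h1]; simp
  · simp only [Fin.getElem_fin]
    have h3 : ω.drop (ω₁.length + 1) = ω₂ := by
      rw [h1, List.drop_append]; simp
    have h4 : ω[ω₁.length]'(by rw [h1]; simp) = i := by
      simp [h1]
    rw [h3, h4, ← h2, geo_inv_apply]

end Q2.CX
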