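import Pool.Agent.Q2.CX.Core

/-! The sequence of the roots of a plane, and path independence. -/

set_option autoImplicit false

namespace Q2.CX

open CoxeterSystem

variable {B : Type*} {M : CoxeterMatrix B}
variable {W : Type*} [Group W] {cs : CoxeterSystem M W}

variable (cs) in
/-- the roots of a plane, as a two-sided sequence -/
noncomputable def Fs (a b : W) (k : ℤ) : B →₀ ℝ :=
  if Even k then geo cs ((a * b) ^ (k / 2)) (rt cs a)
  else - geo cs ((a * b) ^ ((k + 1) / 2)) (rt cs b)

lemma Fs_even (a b : W) (l : ℤ) : Fs cs a b (2 * l) = geo cs ((a * b) ^ l) (rt cs a) := by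
  have h : (2 * l) / 2 = l := by omega
  simp [Fs, h]

lemma Fs_odd (a b : W) (l : ℤ) : Fs cs a b (2 * l - 1) = - geo cs ((a * b) ^ l) (rt cs b) := by
  have h : (2 * l - 1 + 1) / 2 = l := by omega
  have h2 : ¬ Even (2 * l - 1) := by
    rw [Int.not_even_iff_odd]; exact ⟨l - 1, by ring⟩
  simp [Fs, h, h2]

variable {a b : W}

lemma Fs_rec (ha : cs.IsReflection a) (hb : cs.IsReflection b) (k : ℤ) :
    Fs cs a b (k + 1) + Fs cs a b (k - 1) =
      (- bil M (rt cs a) (rt cs b)) • Fs cs a b k := by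
  rcases Int.even_or_odd' k with ⟨l, rfl | rfl⟩
  · have e1 : (2 * l + 1 : ℤ) = 2 * (l + 1) - 1 := by ring
    rw [e1, Fs_odd, Fs_odd, Fs_even, zpow_add, zpow_one, ← geo_geo, ← geo_geo,
      geo_rt_self hb, map_neg, map_neg, neg_neg, geo_refl ha (rt cs b), map_sub, map_smul]
    module
  · have e1 : (2 * l + 1 + 1 : ℤ) = 2 * (l + 1) := by ring
    have e2 : (2 * l + 1 - 1 : ℤ) = 2 * l := by ring
    have e3 : (2 * l + 1 : ℤ) = 2 * (l + 1) - 1 := by ring
    have e4 : geo cs ((a * b) ^ l) (rt cs a) =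
        geo cs ((a * b) ^ (l + 1)) (geo cs b (geo cs a (rt cs a))) := by
      rw [geo_geo, geo_geo, zpow_add, zpow_one]
      congr 2
      have aa := ha.mul_self
      have bb := hb.mul_self
      calc (a * b) ^ l = (a * b) ^ l * (a * (b * b) * a) := by rw [bb, mul_one, aa, mul_one]
        _ = _ := by group
    rw [e1, e2, e3, Fs_even, Fs_even, Fs_odd, e4, geo_rt_self ha, map_neg, geo_refl hb (rt cs a),
      map_neg, map_sub, map_smul, bil_symm (rt cs b) (rt cs a)]
    module

/-- the action of the alternating products on the sequence -/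
lemma Fs_geo_pow (l k : ℤ) :
    geo cs ((a * b) ^ l) (Fs cs a b k) = Fs cs a b (2 * l + k) := by
  rcases Int.even_or_odd' k with ⟨m, rfl | rfl⟩
  · rw [Fs_even, show 2 * l + 2 * m = 2 * (l + m) by ring, Fs_even, geo_geo, zpow_add]
  · rw [show 2 * m + 1 = 2 * (m + 1) - 1 by ring, Fs_odd,
      show 2 * l + (2 * (m + 1) - 1) = 2 * (l + (m + 1)) - 1 by ring, Fs_odd, map_neg, geo_geo,
      ← zpow_add]

lemma Fs_geo_a (ha : cs.IsReflection a) (hb : cs.IsReflection b) (k : ℤ) :
    geo cs a (Fs cs a b k) = - Fs cs a b (-k) := by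
  have aa := ha.mul_self
  have bb := hb.mul_self
  rcases Int.even_or_odd' k with ⟨m, rfl | rfl⟩
  · rw [Fs_even, show -(2 * m) = 2 * (-m) by ring, Fs_even, geo_geo, mul_zpow_left aa bb,
      ← geo_geo, geo_rt_self ha, map_neg]
  · rw [show 2 * m + 1 = 2 * (m + 1) - 1 by ring, Fs_odd,
      show -(2 * (m + 1) - 1) = 2 * (-m) - 1 by ring, Fs_odd, map_neg, geo_geo, neg_neg,
      mul_zpow_left aa bb]
    have e : (a * b) ^ (-(m + 1)) * a = (a * b) ^ (-m) * b := by
      rw [show -(m + 1) = -m + (-1) by ring, zpow_add, zpow_neg_one, mul_inv_rev, ha.inv, hb.inv]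
      calc (a * b) ^ (-m) * (b * a) * a = (a * b) ^ (-m) * b * (a * a) := by group
        _ = _ := by rw [aa, mul_one]
    rw [e, ← geo_geo, geo_rt_self hb, map_neg, neg_neg]

lemma Fs_geo (ha : cs.IsReflection a) (hb : cs.IsReflection b) (k i : ℤ) :
    geo cs (el a b (2 * k + 1)) (Fs cs a b i) = - Fs cs a b (2 * k - i) := by
  rw [el_odd, ← geo_geo, Fs_geo_a ha hb, map_neg, Fs_geo_pow]
  congr 2

lemma rt_el (ha : cs.IsReflection a) (hb : cs.IsReflection b) (k : ℤ) :
    rt cs (el a b (2 * k + 1)) = Fs cs a b k ∨ rt cs (el a b (2 * k + 1)) = - Fs cs a b k := by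
  have aa := ha.mul_self
  have bb := hb.mul_self
  rcases Int.even_or_odd' k with ⟨m, rfl | rfl⟩
  · have e : el a b (2 * (2 * m) + 1) = (a * b) ^ m * a * ((a * b) ^ m)⁻¹ := by
      rw [el_odd, show 2 * m = m + m by ring, zpow_add, mul_assoc, ← zpow_neg, mul_assoc,
        mul_zpow_left aa bb, neg_neg]
    rw [e, Fs_even]
    rcases ((rt_isRt ha).geo ((a * b) ^ m)).cases with h | h
    · left; exact rt_conj_pos ha _ h
    · right; exact rt_conj_neg ha _ h
  · have e : el a b (2 * (2 * m + 1) + 1) = (a * b) ^ (m + 1) * b * ((a * b) ^ (m + 1))⁻¹ := by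
      have e1 : b * ((a * b) ^ (m + 1))⁻¹ = (a * b) ^ m * a := by
        rw [← mul_left_inj ((a * b) ^ (m + 1)), inv_mul_cancel_right, mul_assoc,
          mul_zpow_left aa bb, ← mul_assoc, ← zpow_add, show m + -(m + 1) = -1 by ring,
          zpow_neg_one, mul_inv_rev, ha.inv, hb.inv, mul_assoc, aa, mul_one]
      rw [mul_assoc, e1, el_odd, show 2 * m + 1 = (m + 1) + m by ring, zpow_add, mul_assoc]
    rw [e, show 2 * m + 1 = 2 * (m + 1) - 1 by ring, Fs_odd]
    rcases ((rt_isRt hb).geo ((a * b) ^ (m + 1))).cases with h | h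
    · right; rw [neg_neg]; exact rt_conj_pos hb _ h
    · left; exact rt_conj_neg hb _ h

/-- path independence -/
lemma path_indep {p q : ℤ → ℝ} {c : ℝ} (hp : ∀ k, p (k + 1) + p (k - 1) = c * p k)
    (hq : ∀ k, q (k + 1) + q (k - 1) = c * q k) (k k' d : ℤ) :
    p k * q k - p (k + d) * q (k - d) = p k' * q k' - p (k' + d) * q (k' - d) := by
  have h1 : ∀ x y : ℤ, p (x + 1) * q (y + 1) - p x * q y =
      p (x + 1 + 1) * q (y - 1 + 1) - p (x + 1) * q (y - 1) := by
    intro x y
    have e1 := hp (x + 1)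
    have e2 := hq y
    have e3 : x + 1 - 1 = x := by ring
    have e4 : y - 1 + 1 = y := by ring
    rw [e3] at e1
    rw [e4]
    linear_combination (-q y) * e1 + p (x + 1) * e2
  have h2 : ∀ (l x y : ℤ), p (x + 1) * q (y + 1) - p x * q y =
      p (x + l + 1) * q (y - l + 1) - p (x + l) * q (y - l) := by
    intro l
    induction l using Int.induction_on with
    | zero => intro x y; simp
    | succ l ih =>
      intro x y
      rw [ih x y, h1 (x + l) (y - l)]
      congr 3 <;> ring_nf
    | pred l ih =>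
      intro x y
      rw [ih x y]
      have := h1 (x + (-(l : ℤ) - 1)) (y - (-(l : ℤ) - 1))
      rw [this]
      congr 3 <;> ring_nf
  have h3 : ∀ k : ℤ, p (k + 1) * q (k + 1) - p (k + 1 + d) * q (k + 1 - d) =
      p k * q k - p (k + d) * q (k - d) := by
    intro k
    have := h2 d k k
    have e1 : k + 1 + d = k + d + 1 := by ring
    have e2 : k + 1 - d = k - d + 1 := by ring
    rw [e1, e2]
    linarith
  have h4 : ∀ k : ℤ, p k * q k - p (k + d) * q (k - d) = p 0 * q 0 - p (0 + d) * q (0 - d) := by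
    intro k
    induction k using Int.induction_on with
    | zero => rfl
    | succ l ih => rw [h3, ih]
    | pred l ih =>
      have := h3 (-(l : ℤ) - 1)
      rw [show -(l : ℤ) - 1 + 1 = -l by ring] at this
      rw [← this, ih]
  rw [h4 k, h4 k']

end Q2.CX
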