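import Pool.Agent.Q2.CX.Geo

/-! Positivity of roots (Tits), arbitrary rank; see `Pool.Agent.Helper741.Tits`. -/

set_option autoImplicit false

namespace Q2.CX

open CoxeterSystem
open Pool.Agent.Helper741 (cc qs cc_symm cc_self two_le_of_ne cc_of_zero sin_pos_of_ne qs_nonneg
  qs_zero qs_one qs_add_two qs_sin qs_of_one)

variable {B : Type*} {M : CoxeterMatrix B}
variable {W : Type*} [Group W] (cs : CoxeterSystem M W)

lemma ee_nonneg (i : B) : (0 : B →₀ ℝ) ≤ ee i := Finsupp.single_nonneg.mpr zero_le_one

lemma ee_ne_zero (i : B) : (ee i : B →₀ ℝ) ≠ 0 := by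
  intro h
  have := DFunLike.congr_fun h i
  simp [ee] at this

/-- **Tits**: `w e_i ≥ 0` if `ℓ (w s_i) > ℓ w`. -/
theorem geo_nonneg (w : W) (i : B) (h : cs.length w < cs.length (w * cs.simple i)) :
    0 ≤ geo cs w (ee i) := by
  classical
  induction hn : cs.length w using Nat.strong_induction_on generalizing w i with
  | _ n ih =>
  by_cases hw : w = 1
  · subst hw
    rw [map_one, Module.End.one_apply]
    exact ee_nonneg i
  obtain ⟨j, hj⟩ := cs.exists_rightDescent_of_ne_one hw
  have hj' : cs.length (w * cs.simple j) + 1 = cs.length w := cs.isRightDescent_iff.mp hj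
  have hij : i ≠ j := by
    rintro rfl
    omega
  set P : ℕ → Prop := fun k =>
    ∃ v : W, w = v * cs.wordProd (alternatingWord i j k) ∧ cs.length w = cs.length v + k with hP
  have hP1 : P 1 := by
    refine ⟨w * cs.simple j, ?_, by omega⟩
    simp [alternatingWord]
  have hw1 : 1 ≤ cs.length w := by omega
  obtain ⟨k, hk1, hkP, hkmax⟩ : ∃ k, 1 ≤ k ∧ P k ∧ ¬ P (k + 1) := by
    refine ⟨Nat.findGreatest P (cs.length w), ?_, ?_, ?_⟩
    · exact Nat.le_findGreatest hw1 hP1
    · exact Nat.findGreatest_spec hw1 hP1
    · intro hcon
      have : Nat.findGreatest P (cs.length w) + 1 ≤ cs.length w := by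
        obtain ⟨v, _, hv⟩ := hcon
        omega
      have := Nat.le_findGreatest this hcon
      omega
  obtain ⟨v, hv, hvl⟩ := hkP
  obtain ⟨k', rfl⟩ : ∃ k', k = k' + 1 := ⟨k - 1, by omega⟩
  -- both `i` and `j` are right ascents of `v`
  have hg : cs.length v < cs.length (v * cs.simple (if Even (k' + 1) then j else i)) := by
    by_contra hcon
    have hlt : cs.length (v * cs.simple (if Even (k' + 1) then j else i)) + 1 = cs.length v := by
      rcases cs.length_mul_simple v (if Even (k' + 1) then j else i) with h1 | h1 <;> omega
    apply hkmax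
    refine ⟨v * cs.simple (if Even (k' + 1) then j else i), ?_, by omega⟩
    rw [alternatingWord_succ', cs.wordProd_cons, ← mul_assoc, cs.simple_mul_simple_cancel_right]
    exact hv
  have hf : cs.length v < cs.length (v * cs.simple (if Even k' then j else i)) := by
    by_contra hcon
    have hlt : cs.length (v * cs.simple (if Even k' then j else i)) + 1 = cs.length v := by
      rcases cs.length_mul_simple v (if Even k' then j else i) with h1 | h1 <;> omega
    rw [alternatingWord_succ', cs.wordProd_cons, ← mul_assoc] at hv
    have h2 := cs.length_mul_le (v * cs.simple (if Even k' then j else i))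
      (cs.wordProd (alternatingWord i j k'))
    rw [← hv] at h2
    have h3 := cs.length_wordProd_le (alternatingWord i j k')
    rw [length_alternatingWord] at h3
    omega
  have hvi : cs.length v < cs.length (v * cs.simple i) := by
    by_cases he : Even k'
    · have : ¬ Even (k' + 1) := by simpa [Nat.even_add_one] using he
      simpa [this] using hg
    · simpa [he] using hf
  have hvj : cs.length v < cs.length (v * cs.simple j) := by
    by_cases he : Even k'
    · simpa [he] using hf
    · have : Even (k' + 1) := by simpa [Nat.even_add_one] using he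
      simpa [this] using hg
  have hi0 := ih (cs.length v) (by omega) v i hvi rfl
  have hj0 := ih (cs.length v) (by omega) v j hvj rfl
  -- bound on k
  have hkm : M i j = 0 ∨ k' + 1 < M i j := by
    by_contra hcon
    push Not at hcon
    obtain ⟨h0, hm⟩ := hcon
    have hred : cs.IsReduced (alternatingWord i j (k' + 1)) := by
      have h2 := cs.length_mul_le v (cs.wordProd (alternatingWord i j (k' + 1)))
      rw [← hv] at h2
      have h3 := cs.length_wordProd_le (alternatingWord i j (k' + 1))
      unfold CoxeterSystem.IsReduced
      rw [length_alternatingWord] at h3 ⊢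
      omega
    have hle : ¬ (k' + 1 > M i j) := fun hgt => cs.not_isReduced_alternatingWord i j h0 hgt hred
    have heq : k' + 1 = M i j := by omega
    have hb := cs.wordProd_braidWord_eq i j
    unfold braidWord at hb
    rw [M.symmetric j i, ← heq, alternatingWord_succ j i, cs.wordProd_concat] at hb
    rw [hb, ← mul_assoc] at hv
    rw [hv, cs.simple_mul_simple_cancel_right] at h
    have h2 := cs.length_mul_le v (cs.wordProd (alternatingWord i j k'))
    have h3 := cs.length_wordProd_le (alternatingWord i j k')
    rw [length_alternatingWord] at h3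
    rw [← hv] at h
    omega
  have q1 : 0 ≤ qs (cc M i j) (k' + 1 + 1) :=
    qs_nonneg M hij (by rcases hkm with h | h; exact Or.inl h; exact Or.inr (by omega))
  have q2 : 0 ≤ qs (cc M i j) (k' + 1) :=
    qs_nonneg M hij (by rcases hkm with h | h; exact Or.inl h; exact Or.inr (by omega))
  rw [hv, map_mul, Module.End.mul_apply, geo_wordProd, prod_alt_ee]
  split_ifs
  · rw [map_add, map_smul, map_smul]
    exact add_nonneg (smul_nonneg q1 hi0) (smul_nonneg q2 hj0)
  · rw [map_add, map_smul, map_smul]
    exact add_nonneg (smul_nonneg q1 hj0) (smul_nonneg q2 hi0)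

theorem geo_nonpos (w : W) (i : B) (h : cs.length (w * cs.simple i) < cs.length w) :
    geo cs w (ee i) ≤ 0 := by
  have h1 : 0 ≤ geo cs (w * cs.simple i) (ee i) := by
    apply geo_nonneg
    rwa [cs.simple_mul_simple_cancel_right]
  rw [map_mul, Module.End.mul_apply, geo_simple, sg_ee_self, map_neg] at h1
  exact neg_nonneg.mp h1

lemma geo_ee_ne_zero (w : W) (i : B) : geo cs w (ee i) ≠ 0 := by
  intro h
  apply ee_ne_zero (B := B) i
  apply geo_injective_apply cs w
  rw [h, map_zero]

theorem geo_nonneg_iff (w : W) (i : B) :
    0 ≤ geo cs w (ee i) ↔ cs.length w < cs.length (w * cs.simple i) := by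
  constructor
  · intro h
    by_contra hcon
    have hlt : cs.length (w * cs.simple i) < cs.length w := by
      rcases cs.length_mul_simple w i with h1 | h1 <;> omega
    have := geo_nonpos cs w i hlt
    exact geo_ee_ne_zero cs w i (le_antisymm this h)
  · exact geo_nonneg cs w i

theorem geo_nonpos_iff (w : W) (i : B) :
    geo cs w (ee i) ≤ 0 ↔ cs.length (w * cs.simple i) < cs.length w := by
  constructor
  · intro h
    by_contra hcon
    have hlt : cs.length w < cs.length (w * cs.simple i) := by
      rcases cs.length_mul_simple w i with h1 | h1 <;> omega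
    have := geo_nonneg cs w i hlt
    exact geo_ee_ne_zero cs w i (le_antisymm h this)
  · exact geo_nonpos cs w i

/-- Faithfulness. -/
theorem eq_one_of_geo (w : W) (h : ∀ i, 0 ≤ geo cs w (ee i)) : w = 1 := by
  by_contra hw
  obtain ⟨j, hj⟩ := cs.exists_rightDescent_of_ne_one hw
  have h1 := geo_nonpos cs w j hj
  exact geo_ee_ne_zero cs w j (le_antisymm h1 (h j))

theorem geo_injective : Function.Injective (geo cs) := by
  rw [injective_iff_map_eq_one]
  intro w hw
  apply eq_one_of_geo cs
  intro i
  rw [hw, Module.End.one_apply]
  exact ee_nonneg i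

lemma simple_injective : Function.Injective cs.simple := by
  intro i j hij
  have h := congrArg (fun w => geo cs w (ee i)) hij
  simp only [geo_simple] at h
  by_contra hne
  rw [sg_ee_self, sg_ee] at h
  have h2 := DFunLike.congr_fun h i
  have h3 : ¬ j = i := fun e => hne e.symm
  simp [ee, Finsupp.single_apply, hne, h3] at h2
  norm_num at h2

end Q2.CX
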