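import Pool.Agent.Q2.CX.Parab

/-! Automorphisms of Coxeter systems act on the geometric representation. -/

set_option autoImplicit false

namespace Q2.CX

open CoxeterSystem
open Pool.Agent.Helper741 (cc qs cc_symm cc_self two_le_of_ne qs_nonneg)

variable {B : Type*} {M : CoxeterMatrix B}
variable {W : Type*} [Group W] (cs : CoxeterSystem M W)

lemma isReduced_alternatingWord {i j : B} (hij : i ≠ j) {k : ℕ} (hk : M i j = 0 ∨ k ≤ M i j) :
    cs.IsReduced (alternatingWord i j k) := by
  induction k generalizing i j with
  | zero =>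
    unfold CoxeterSystem.IsReduced
    simp [alternatingWord]
  | succ k ih =>
    have hk' : M j i = 0 ∨ k + 1 ≤ M j i := by rwa [M.symmetric j i]
    have h1 : cs.IsReduced (alternatingWord j i k) := ih hij.symm (by omega)
    unfold CoxeterSystem.IsReduced at h1 ⊢
    rw [length_alternatingWord] at h1 ⊢
    rw [alternatingWord_succ, cs.wordProd_concat]
    have h2 : 0 ≤ geo cs (cs.wordProd (alternatingWord j i k)) (ee j) := by
      rw [geo_wordProd, prod_alt_ee]
      have q1 : 0 ≤ qs (cc M j i) (k + 1) := qs_nonneg M hij.symm hk'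
      have q2 : 0 ≤ qs (cc M j i) k := qs_nonneg M hij.symm (by omega)
      split_ifs
      · exact add_nonneg (smul_nonneg q1 (ee_nonneg j)) (smul_nonneg q2 (ee_nonneg i))
      · exact add_nonneg (smul_nonneg q1 (ee_nonneg i)) (smul_nonneg q2 (ee_nonneg j))
    rw [geo_nonneg_iff] at h2
    rcases cs.length_mul_simple (cs.wordProd (alternatingWord j i k)) j with h3 | h3 <;> omega

/-- the order of a product of two simple reflections -/
lemma pow_eq_one_iff_dvd {i j : B} (k : ℕ) :
    (cs.simple i * cs.simple j) ^ k = 1 → M i j ∣ k := by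
  intro hk
  by_cases hij : i = j
  · subst hij; simp
  by_contra hcon
  -- reduce to an exponent smaller than `M i j`
  obtain ⟨l, hl0, hl1, hl2⟩ : ∃ l : ℕ, 0 < l ∧ (M i j = 0 ∨ l < M i j) ∧
      (cs.simple i * cs.simple j) ^ l = 1 := by
    by_cases h0 : M i j = 0
    · refine ⟨k, ?_, Or.inl h0, hk⟩
      rcases Nat.eq_zero_or_pos k with rfl | h
      · exact (hcon (dvd_zero _)).elim
      · exact h
    · refine ⟨k % M i j, Nat.pos_of_ne_zero (fun h => hcon (Nat.dvd_of_mod_eq_zero h)),
        Or.inr (Nat.mod_lt _ (Nat.pos_of_ne_zero h0)), ?_⟩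
      have h1 := Nat.div_add_mod k (M i j)
      rw [← h1, pow_add, pow_mul, cs.simple_mul_simple_pow, one_pow, one_mul] at hk
      exact hk
  -- both alternating words of length `l` agree, `l + 1` is still reduced
  have ha := cs.simple_mul_simple_self i
  have hb := cs.simple_mul_simple_self j
  have key : ∀ n : ℕ, cs.wordProd (alternatingWord i j n) =
      if Even n then el (cs.simple i) (cs.simple j) n else el (cs.simple j) (cs.simple i) n := by
    intro n
    induction n with
    | zero => simp [alternatingWord]
    | succ n ih =>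
      rw [alternatingWord_succ', cs.wordProd_cons, ih]
      by_cases he : Even n
      · have ho : ¬ Even (n + 1) := by simpa [Nat.even_add_one] using he
        rw [if_pos he, if_pos he, if_neg ho, b_mul_el ha hb, el_swap ha hb]
        congr 1; push_cast; ring
      · have ho : Even (n + 1) := by simpa [Nat.even_add_one] using he
        rw [if_neg he, if_neg he, if_pos ho, el_swap ha hb, a_mul_el ha hb]
        congr 1; push_cast; ring
  have hr1 := isReduced_alternatingWord cs hij (k := l + 1) (by omega)
  have hr2 : cs.length (cs.wordProd (alternatingWord i j (l + 1))) ≤ l - 1 := by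
    -- as an element of the other kind
    have h2 : ∀ n : ℤ, el (cs.simple i) (cs.simple j) (n + 2 * l) =
        el (cs.simple i) (cs.simple j) n := by
      intro n
      have h3 := el_mul ha hb (2 * (l : ℤ)) n
      rw [if_pos (even_two_mul _), el_even, zpow_natCast, hl2, one_mul] at h3
      rw [h3]; congr 1; ring
    have h4 : cs.wordProd (alternatingWord i j (l + 1)) =
        cs.wordProd (alternatingWord j i (l - 1)) := by
      have key' : ∀ n : ℕ, cs.wordProd (alternatingWord j i n) =
          if Even n then el (cs.simple j) (cs.simple i) n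
          else el (cs.simple i) (cs.simple j) n := by
        intro n
        induction n with
        | zero => simp [alternatingWord]
        | succ n ih =>
          rw [alternatingWord_succ', cs.wordProd_cons, ih]
          by_cases he : Even n
          · have ho : ¬ Even (n + 1) := by simpa [Nat.even_add_one] using he
            rw [if_pos he, if_pos he, if_neg ho, el_swap ha hb, a_mul_el ha hb]
            congr 1; push_cast; ring
          · have ho : Even (n + 1) := by simpa [Nat.even_add_one] using he
            rw [if_neg he, if_neg he, if_pos ho, b_mul_el ha hb, el_swap ha hb]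
            congr 1; push_cast; ring
      rw [key, key']
      have hlc : ((l - 1 : ℕ) : ℤ) = (l : ℤ) - 1 := by omega
      by_cases he : Even (l + 1)
      · have he' : Even (l - 1) := by
          obtain ⟨c, hc⟩ := he
          exact ⟨c - 1, by omega⟩
        rw [if_pos he, if_pos he', el_swap ha hb, hlc, ← h2 (-((l : ℤ) - 1))]
        congr 1; push_cast; ring
      · have he' : ¬ Even (l - 1) := by
          rintro ⟨c, hc⟩
          exact he ⟨c + 1, by omega⟩
        rw [if_neg he, if_neg he', el_swap ha hb, hlc, ← h2 (-((l + 1 : ℕ) : ℤ))]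
        congr 1; push_cast; ring
    rw [h4]
    have := cs.length_wordProd_le (alternatingWord j i (l - 1))
    rwa [length_alternatingWord] at this
  have h5 := hr1.eq
  rw [length_alternatingWord] at h5
  omega

lemma orderOf_simple (i j : B) : orderOf (cs.simple i * cs.simple j) = M i j :=
  Nat.dvd_antisymm (orderOf_dvd_of_pow_eq_one (cs.simple_mul_simple_pow i j))
    (pow_eq_one_iff_dvd cs _ (pow_orderOf_eq_one _))

/-- `θ` maps the set of simple reflections onto itself -/
structure Diag (θ : W ≃* W) where
  σ : B ≃ B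
  map : ∀ i, θ (cs.simple i) = cs.simple (σ i)

variable {cs}

lemma exists_diag {θ : W ≃* W} (h : θ '' Set.range cs.simple = Set.range cs.simple) :
    Nonempty (Diag cs θ) := by
  have h1 : ∀ i, ∃ j, θ (cs.simple i) = cs.simple j := by
    intro i
    have : θ (cs.simple i) ∈ Set.range cs.simple := by
      rw [← h]; exact ⟨_, ⟨i, rfl⟩, rfl⟩
    obtain ⟨j, hj⟩ := this
    exact ⟨j, hj.symm⟩
  choose f hf using h1
  refine ⟨⟨Equiv.ofBijective f ⟨?_, ?_⟩, hf⟩⟩
  · intro i j hij
    apply simple_injective cs
    apply θ.injective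
    rw [hf, hf, hij]
  · intro j
    have : cs.simple j ∈ θ '' Set.range cs.simple := by rw [h]; exact ⟨j, rfl⟩
    obtain ⟨_, ⟨i, rfl⟩, hi⟩ := this
    refine ⟨i, simple_injective cs ?_⟩
    rw [← hf, hi]

namespace Diag

variable {θ : W ≃* W} (d : Diag cs θ)
include d

lemma M_eq (i j : B) : M (d.σ i) (d.σ j) = M i j := by
  rw [← orderOf_simple cs, ← orderOf_simple cs, ← d.map, ← d.map, ← map_mul,
    MulEquiv.orderOf_eq]

/-- the action of a diagram automorphism -/
noncomputable def P : (B →₀ ℝ) →ₗ[ℝ] (B →₀ ℝ) := Finsupp.lmapDomain ℝ ℝ d.σ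

lemma P_ee (i : B) : d.P (ee i) = ee (d.σ i) := by
  simp [P, ee, Finsupp.mapDomain_single]

lemma P_apply (v : B →₀ ℝ) (i : B) : d.P v (d.σ i) = v i := by
  simp only [P, Finsupp.lmapDomain_apply]
  exact Finsupp.mapDomain_apply d.σ.injective v i

lemma P_nonneg {v : B →₀ ℝ} (hv : 0 ≤ v) : 0 ≤ d.P v := by
  intro j
  obtain ⟨i, rfl⟩ := d.σ.surjective j
  rw [P_apply]
  exact hv i

lemma coroot_P (i : B) (v : B →₀ ℝ) : coroot M (d.σ i) (d.P v) = coroot M i v := by
  have : (coroot M (d.σ i) ∘ₗ d.P) = coroot M i := by
    apply Finsupp.lhom_ext'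
    intro j
    apply LinearMap.ext_ring
    have h1 : coroot M (d.σ i) (d.P (ee j)) = coroot M i (ee j) := by
      rw [P_ee, coroot_ee, coroot_ee, cc, cc, M_eq]
    simpa [ee] using h1
  rw [← this]; rfl

lemma geo_P (v : W) (x : B →₀ ℝ) : geo cs (θ v) (d.P x) = d.P (geo cs v x) := by
  induction v using cs.simple_induction_left generalizing x with
  | one => simp
  | mul_simple_left w i ih =>
    rw [map_mul, d.map, ← geo_geo, ih, geo_simple, ← geo_geo, geo_simple, sg_apply, sg_apply,
      coroot_P, map_sub, map_smul, P_ee]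

lemma refl {t : W} (ht : cs.IsReflection t) : cs.IsReflection (θ t) := by
  obtain ⟨w, i, rfl⟩ := ht
  refine ⟨θ w, d.σ i, ?_⟩
  rw [map_mul, map_mul, map_inv, d.map]

lemma rt_map {t : W} (ht : cs.IsReflection t) : rt cs (θ t) = d.P (rt cs t) := by
  obtain ⟨w, i, rfl⟩ := ht
  have hs := cs.isReflection_simple i
  have hs' := cs.isReflection_simple (d.σ i)
  rw [map_mul, map_mul, map_inv, d.map]
  rcases ((rt_isRt hs).geo w).cases with h | h
  · rw [rt_conj_pos hs w h, rt_conj_pos hs' (θ w), rt_simple, rt_simple, ← P_ee, geo_P]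
    rw [rt_simple, ← P_ee, geo_P]
    rw [rt_simple] at h
    exact d.P_nonneg h
  · rw [rt_conj_neg hs w h, rt_conj_neg hs' (θ w), rt_simple, rt_simple, ← P_ee, geo_P, map_neg]
    rw [rt_simple, ← P_ee, geo_P]
    rw [rt_simple] at h
    have := d.P_nonneg (neg_nonneg.mpr h)
    rw [map_neg] at this
    exact neg_nonneg.mp this

end Diag

end Q2.CX
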